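import Mathlib.Algebra.Notation.Lemmas
import Mathlib.Tactic.LinearCombination
import Mathlib.Topology.Sheaves.Presheaf
import Mathlib.Tactic.Monotonicity.Lemmas
import Mathlib.Analysis.Normed.Field.Basic
import Mathlib.Tactic.Bound
import Mathlib.Algebra.Order.Star.Real
import Mathlib.Combinatorics.SimpleGraph.Basic
import Mathlib.RingTheory.PiTensorProduct
import Mathlib.Tactic.Algebra.Basic

-- ======== part 0: formerly Pool.Agent.MP_b1b11b_co.Check
section MrgPart0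

/-! The certificate checker (definitions only). -/

namespace Pool.Agent.MP_b1b11b_co

structure Vx where
  (x0 x1 y0 y1 sa sb key : ℕ)
  deriving DecidableEq
structure Sg where
  (p q v : ℕ)
  deriving DecidableEq
structure Tr where
  (a b c vc v1 v2 v3 : ℕ)
  deriving DecidableEq
structure Rg where
  (lo hi : ℕ)
  (pos : Bool)
  deriving DecidableEq
structure Fm where
  (p n g : ℕ)
  deriving DecidableEq
structure St where
  (vs : List Vx)
  (sg : List Sg)
  (tr : List Tr)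
  (rg : List Rg)
  (tot : Fm)
  (e : ℕ)
  deriving DecidableEq
structure Fc where
  (F : Fm)
  (s : ℕ)

noncomputable section

def nth {α : Type} (d : α) (l : List α) : ℕ → α :=
  List.rec (fun _ => d) (fun a _ ih n => Nat.rec a (fun k _ => ih k) n) l
def upd {α : Type} (f : α → α) (l : List α) : ℕ → List α :=
  List.rec (fun _ => []) (fun a t ih n => Nat.rec (f a :: t) (fun k _ => a :: ih k) n) l
def snoc {α : Type} (l : List α) (r : List α) : List α :=
  List.rec r (fun a _ ih => a :: ih) l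
def iff {α : Type} (c : Bool) (t e : α) : α := Bool.rec e t c
def band (a b : Bool) : Bool := Bool.rec false b a
def bor (a b : Bool) : Bool := Bool.rec b true a
def frc {α : Type} (n : ℕ) (f : ℕ → α) : α := Nat.rec (f Nat.zero) (fun k _ => f k.succ) n
def lt (a b : ℕ) : Bool := Nat.ble a.succ b
def bit (d i : ℕ) : Bool := Nat.beq ((d.shiftRight i).mod 2) 1

def BB : ℕ := 340282366920938463463374607431768211456
def MM : ℕ := 1048576

def Fm.add (F G : Fm) : Fm := ⟨F.p.add G.p, F.n.add G.n, F.g.add G.g⟩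
def Fm.sub (F G : Fm) : Fm := ⟨F.p.add G.n, F.n.add G.p, F.g.add G.g⟩
def Fm.sm (c : ℕ) (F : Fm) : Fm := ⟨c.mul F.p, c.mul F.n, c.mul F.g⟩
def cst (c : ℕ) : Fm := ⟨c, 0, c⟩
def var (v : ℕ) : Fm := ⟨Nat.shiftLeft 1 (Nat.mul 128 (v.add 16)), 0, 1⟩
def xu (i : ℕ) : ℕ :=
  iff (Nat.ble 3 i) (Nat.shiftLeft 1 (Nat.mul 512 (i.sub 2))) (iff (Nat.beq i 1) 2048 1024)
def yu (i : ℕ) : ℕ :=
  iff (Nat.ble 3 i) (Nat.shiftLeft 1 (Nat.mul 128 (i.sub 2))) (iff (Nat.beq i 2) 2048 1024)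
def mon (i j : ℕ) : ℕ := (xu i).mul (yu j)
def detF (i j l : ℕ) : Fm :=
  ⟨((mon i j).add (mon j l)).add (mon l i), ((mon j i).add (mon l j)).add (mon i l), 12582912⟩
def crF (p q i z : ℕ) : Fm :=
  ⟨(((mon q z).add (mon p i)).add (mon i q)).add (mon z p),
    (((mon q i).add (mon p z)).add (mon z q)).add (mon i p), 16777216⟩

def dV : Vx := ⟨0, 0, 0, 0, 0, 0, 0⟩
def dS : Sg := ⟨0, 1, 2⟩
def dT : Tr := ⟨0, 1, 2, 1, 2, 4, 6⟩
def dR : Rg := ⟨0, 0, false⟩

def Vx.sx (V : Vx) : ℕ := V.x0.add V.x1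
def Vx.dx (V : Vx) : ℕ := V.x1.sub V.x0
def Vx.sy (V : Vx) : ℕ := V.y0.add V.y1
def Vx.dy (V : Vx) : ℕ := V.y1.sub V.y0
def dst (a b : ℕ) : ℕ := (a.sub b).add (b.sub a)
def rad (ca ra cb rb : ℕ) : ℕ := ((ca.mul rb).add (cb.mul ra)).add (ra.mul rb)
def ivp (P Q V Z : Vx) : ℕ :=
  (((Q.sx.mul Z.sy).add (P.sx.mul V.sy)).add (Q.sy.mul V.sx)).add (P.sy.mul Z.sx)
def ivn (P Q V Z : Vx) : ℕ :=
  (((Q.sx.mul V.sy).add (P.sx.mul Z.sy)).add (Q.sy.mul Z.sx)).add (P.sy.mul V.sx)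
def ivr (P Q V Z : Vx) : ℕ :=
  (rad (dst Q.sx P.sx) (Q.dx.add P.dx) (dst Z.sy V.sy) (Z.dy.add V.dy)).add
    (rad (dst Q.sy P.sy) (Q.dy.add P.dy) (dst Z.sx V.sx) (Z.dx.add V.dx))
def ivl (P Q V Z : Vx) : ℕ := ((ivp P Q V Z).sub ((ivn P Q V Z).add (ivr P Q V Z))).div 4
def ivh (P Q V Z : Vx) : ℕ :=
  (((((ivp P Q V Z).add (ivr P Q V Z))).sub (ivn P Q V Z)).add 3).div 4
def lo4 (vs : List Vx) (p q i z : ℕ) : ℕ :=
  ivl (nth dV vs p) (nth dV vs q) (nth dV vs i) (nth dV vs z)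
def hi4 (vs : List Vx) (p q i z : ℕ) : ℕ :=
  ivh (nth dV vs p) (nth dV vs q) (nth dV vs i) (nth dV vs z)

def ordk (a b c : ℕ) : Bool :=
  iff (lt a b) (bor (lt b c) (lt c a)) (band (lt b c) (lt c a))
def ord (vs : List Vx) (i j l : ℕ) : Bool :=
  ordk (nth dV vs i).key (nth dV vs j).key (nth dV vs l).key
def fixd (rg : List Rg) : Bool := band (Nat.beq (nth dR rg 0).lo 1) (Nat.beq (nth dR rg 0).hi 1)
def triv : Fc := ⟨cst 0, 0⟩

/-- McCormick lower bound for a product. -/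
def pl (x : Fm) (X : ℕ) (g : Fm) (G : ℕ) : Fm := ((x.sm G).add (g.sm X)).sub (cst (X.mul G))
def plv (rg : List Rg) (h : Bool) (v1 v2 : ℕ) (g : Fm) (gl gh : ℕ) : Fm :=
  iff h (pl ((var v1).add (var v2)) ((nth dR rg v1).hi.add (nth dR rg v2).hi) g gh)
    (pl ((var v1).add (var v2)) ((nth dR rg v1).lo.add (nth dR rg v2).lo) g gl)
def plw (rg : List Rg) (h : Bool) (v1 : ℕ) (g : Fm) (gl gh : ℕ) : Fm :=
  iff h (pl (var v1) (nth dR rg v1).hi g gh) (pl (var v1) (nth dR rg v1).lo g gl)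
def mn (a b : ℕ) : ℕ := iff (Nat.ble a b) a b

def wcore (Q : ℕ) (vs : List Vx) (rg : List Rg) (p q v u1 u2 v1 v2 vp vn d : ℕ) : Fc :=
  iff (band (lt 0 (lo4 vs u1 u2 v1 v2))
      (bor (nth dR rg v.succ).pos (iff (bit d 0) (iff (bit d 1) false true) true)))
    ⟨((iff (bit d 2) (pl (crF u1 u2 p q) (hi4 vs u1 u2 p q) (crF v1 v2 q p) (lo4 vs v1 v2 q p))
        (pl (crF u1 u2 p q) (lo4 vs u1 u2 p q) (crF v1 v2 q p) (hi4 vs v1 v2 q p))).sm Q).sub
      ((((iff (nth dR rg v.succ).pos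
          (plv rg (bit d 3) v.succ v (crF u1 u2 v1 v2) (lo4 vs u1 u2 v1 v2) (hi4 vs u1 u2 v1 v2))
          ((plw rg (bit d 3) v.succ (crF u1 u2 v1 v2) (lo4 vs u1 u2 v1 v2)
            (hi4 vs u1 u2 v1 v2)).add ((var v).sm
              (iff (bit d 1) (mn (lo4 vs u1 u2 v1 v2) (lo4 vs u1 u2 p q))
                (iff (bit d 0) (mn (lo4 vs u1 u2 v1 v2) (lo4 vs v1 v2 q p)) 0))))).add
        (iff (bit d 1) (plv rg (bit d 4) vn 0 (crF u1 u2 p q) (lo4 vs u1 u2 p q)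
          (hi4 vs u1 u2 p q)) (cst 0))).add
        (iff (bit d 0) (plv rg (bit d 5) vp 0 (crF v1 v2 q p) (lo4 vs v1 v2 q p)
          (hi4 vs v1 v2 q p)) (cst 0))).sm MM),
      iff (nth dR rg v.succ).pos 1 0⟩ triv

def fWedge (Q : ℕ) (vs : List Vx) (sg : List Sg) (rg : List Rg) (a b c d : ℕ) : Fc :=
  frc (nth dS sg a).p fun p => frc (nth dS sg a).q fun q => frc (nth dS sg a).v fun v =>
  frc (iff (bit d 0) (nth dS sg b).p (nth dV vs p).sa) fun u1 =>
  frc (iff (bit d 0) p (nth dV vs p).sb) fun u2 =>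
  frc (iff (bit d 1) q (nth dV vs q).sa) fun v1 =>
  frc (iff (bit d 1) (nth dS sg c).q (nth dV vs q).sb) fun v2 =>
  frc (nth dS sg b).v fun vp => frc (nth dS sg c).v fun vn =>
  iff (band (iff (bit d 0) (band (Nat.beq (nth dS sg b).q p) (ord vs u1 p q)) true)
      (iff (bit d 1) (band (Nat.beq (nth dS sg c).p q) (ord vs p q v2)) true))
    (wcore Q vs rg p q v u1 u2 v1 v2 vp vn d) triv

def fUp (Q : ℕ) (T : Tr) : Fc := ⟨((detF T.a T.b T.c).sm Q).sub ((var T.vc).sm MM), 1⟩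
def fEar (Q : ℕ) (vs : List Vx) (A B : Sg) : Fc :=
  iff (band (Nat.beq B.p A.q) (ord vs A.p A.q B.q))
    ⟨((detF A.p A.q B.q).sm Q).sub ((((var A.v).add (var B.v)).add (var 0)).sm MM), 1⟩ triv
def fMax (e a b c : ℕ) : Fc :=
  iff (band (lt a (e.add 3)) (band (lt b (e.add 3)) (lt c (e.add 3))))
    ⟨(cst MM).sub (detF a b c), 0⟩ triv
def fInt (Q : ℕ) (T : Tr) : Fc := ⟨(cst Q).sub ((var T.vc).add (var 0)), 0⟩
def fDeep (vs : List Vx) (e a b c : ℕ) : Fc :=
  iff (band (band (lt a 2) (band (lt b (e.add 3)) (lt c (e.add 3))))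
      (band (Nat.ble 3 b)
        (band (Nat.beq (nth dV vs b).sa a) (Nat.beq (nth dV vs b).sb a.succ))))
    ⟨(detF a.succ ((a.add 2).mod 3) c).sub (detF a a.succ b), 0⟩ triv
def fPos (rg : List Rg) (A : Sg) : Fc :=
  iff (nth dR rg A.v.succ).pos ⟨(var A.v.succ).sub (var 0), 0⟩ triv
def fRc (Q : ℕ) (vs : List Vx) (rg : List Rg) (T : Tr) : Fc :=
  iff (fixd rg) ⟨(cst (((Q.mul (hi4 vs T.a T.b T.a T.c)).sub 1).div MM)).sub (var T.vc), 0⟩ triv
def fRn (Q : ℕ) (vs : List Vx) (rg : List Rg) (A : Sg) : Fc :=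
  frc A.p fun p => frc A.q fun q =>
  frc (nth dV vs p).sa fun u1 => frc (nth dV vs p).sb fun u2 =>
  frc (nth dV vs q).sa fun v1 => frc (nth dV vs q).sb fun v2 =>
  iff (band (fixd rg) (lt 0 (lo4 vs u1 u2 v1 v2)))
    ⟨(cst ((((Q.mul (hi4 vs u1 u2 p q)).mul (hi4 vs v1 v2 q p)).sub 1).div
        (MM.mul (lo4 vs u1 u2 v1 v2)))).sub
      (iff (nth dR rg A.v.succ).pos ((var A.v.succ).add (var A.v)) (var A.v.succ)), 0⟩ triv
def fMin (Q : ℕ) (vs : List Vx) (e a b c : ℕ) : Fc :=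
  iff (band (band (lt a (e.add 3)) (band (lt b (e.add 3)) (lt c (e.add 3)))) (ord vs a b c))
    ⟨((detF a b c).sm Q).sub ((var 0).sm MM), 1⟩ triv
def fLo (T : Tr) : Fc :=
  ⟨(var T.vc).sub ((((var T.v1).add (var T.v2)).add (var T.v3)).add (var 0)), 0⟩
def fRb (Q : ℕ) (vs : List Vx) (rg : List Rg) (e : ℕ) (A : Sg) (b : ℕ) : Fc :=
  iff (band (band (fixd rg) (lt b (e.add 3))) (ord vs A.p A.q b))
    ⟨(cst (((Q.mul (hi4 vs A.p A.q A.p b)).sub 1).div MM)).sub ((var A.v).add (var 0)), 0⟩ triv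
def fTrap (Q e a : ℕ) (T : Tr) : Fc :=
  iff (band (Nat.ble 1 a) (Nat.ble a e))
    ⟨((detF T.a T.b T.c).sm Q).sub (((var T.v2.succ).add (var T.v3.succ)).sm MM), 0⟩ triv
def fStrong (Q : ℕ) (vs : List Vx) (rg : List Rg) (A B : Sg) : Fc :=
  iff (band (band (Nat.beq B.p A.q) (ord vs A.p A.q B.q))
      (band (lt 0 (nth dR rg A.v).lo) (lt 0 (nth dR rg B.v).lo)))
    ⟨((detF A.p A.q B.q).sm Q).sub ((((var A.v).add (var B.v)).add ((var 0).sm 2)).sm MM), 1⟩
    triv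
def fLeaf (rg : List Rg) (e a b : ℕ) : Fc :=
  iff (band (band (lt a 2) (lt b (e.add 3))) (Nat.beq (nth dR rg ((a.mul 2).add 3)).hi 0))
    ⟨detF a.succ ((a.add 2).mod 3) b, 0⟩ triv
def fSeg (Q a : ℕ) : Fc :=
  iff (lt a 3)
    ⟨(cst Q).sub (((var ((a.mul 2).add 2)).add (var ((a.mul 2).add 3))).add (var 0)), 0⟩ triv

def fact (Q : ℕ) (vs : List Vx) (sg : List Sg) (tr : List Tr) (rg : List Rg) (tot : Fm) (e : ℕ)
    (t a b c d : ℕ) : Fc :=
  nth triv [fWedge Q vs sg rg a b c d, fUp Q (nth dT tr a), fEar Q vs (nth dS sg a) (nth dS sg b),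
    fMax e a b c, ⟨tot, 0⟩, fInt Q (nth dT tr a), fDeep vs e a b c, fPos rg (nth dS sg a),
    fRc Q vs rg (nth dT tr a), fRn Q vs rg (nth dS sg a), fMin Q vs e a b c, fLo (nth dT tr a),
    fRb Q vs rg e (nth dS sg a) b, fTrap Q e a (nth dT tr a),
    fStrong Q vs rg (nth dS sg a) (nth dS sg b), fLeaf rg e a b, fSeg Q a, ⟨var 0, 1⟩] t

def factW (Q : ℕ) (vs : List Vx) (sg : List Sg) (tr : List Tr) (rg : List Rg) (tot : Fm) (e : ℕ)
    (w : ℕ) : Fc :=
  frc ((w.shiftRight 5).mod 16) fun a => frc ((w.shiftRight 9).mod 16) fun b =>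
  frc ((w.shiftRight 13).mod 16) fun c => frc ((w.shiftRight 17).mod 64) fun d =>
  fact Q vs sg tr rg tot e (w.mod 32) a b c d
def lamW (w : ℕ) : ℕ := ((w.shiftRight 30).mod 17179869184).shiftLeft ((w.shiftRight 23).mod 128)

def varB (r : List Rg) : ℕ → ℕ → ℕ → ℕ → ℕ × ℕ :=
  List.rec (fun _ _ u v => (u, v)) (fun a _ ih P N u v =>
    ih (P.shiftRight 128) (N.shiftRight 128) (u.add (((P.mod BB).sub (N.mod BB)).mul a.hi))
      (v.add (((N.mod BB).sub (P.mod BB)).mul a.lo))) r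
def dig (P i : ℕ) : ℕ := (P.shiftRight i).mod BB
def corner (A B C : Vx) (u v P N : ℕ) : Bool :=
  Nat.ble
    ((((u.add (P.mod BB)).add (((dig P 128).sub (dig N 128)).mul A.y1)).add
      (((dig P 256).sub (dig N 256)).mul B.y1)).add (((dig P 384).sub (dig N 384)).mul C.y1))
    ((((v.add (N.mod BB)).add (((dig N 128).sub (dig P 128)).mul A.y0)).add
      (((dig N 256).sub (dig P 256)).mul B.y0)).add (((dig N 384).sub (dig P 384)).mul C.y0))
def two (V : Vx) (rP rN P N : ℕ) (k : ℕ → ℕ → Bool) : Bool :=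
  band (k (P.add (V.x0.mul rP)) (N.add (V.x0.mul rN)))
    (bor (Nat.beq V.x0 V.x1) (k (P.add (V.x1.mul rP)) (N.add (V.x1.mul rN))))
def row (P i : ℕ) : ℕ := (P.shiftRight i).mod (Nat.shiftLeft 1 512)
def final2 (A B C : Vx) (P N u v : ℕ) : Bool :=
  two A (row P 512) (row N 512) (row P 0) (row N 0) fun P1 N1 =>
    two B (row P 1024) (row N 1024) P1 N1 fun P2 N2 =>
      two C (row P 1536) (row N 1536) P2 N2 fun P3 N3 => corner A B C u v P3 N3
def final1 (A B C : Vx) (F : Fm) (uv : ℕ × ℕ) : Bool :=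
  band (band (Nat.ble F.g (Nat.shiftLeft 1 114))
    (band (Nat.ble A.x1 2048) (band (Nat.ble B.x1 2048) (Nat.ble C.x1 2048))))
    (final2 A B C F.p F.n uv.1 uv.2)
def final (vs : List Vx) (rg : List Rg) (F : Fm) (s : ℕ) : Bool :=
  final1 (nth dV vs 3) (nth dV vs 4) (nth dV vs 5) F
    (varB rg (F.p.shiftRight 2048) (F.n.shiftRight 2048) (iff (Nat.beq s 0) 1 0) 0)
def acc1 (ih : ℕ → Fm → ℕ → Bool) (w : ℕ) (A : Fm) (s : ℕ) (c : Fc) (l : ℕ) : Bool :=
  ih (w.shiftRight 64) (A.add (c.F.sm l)) (s.add (l.mul c.s))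
def leaf (Q : ℕ) (vs : List Vx) (sg : List Sg) (tr : List Tr) (rg : List Rg) (tot : Fm) (e : ℕ)
    (n : ℕ) : ℕ → Fm → ℕ → Bool :=
  Nat.rec (fun _ A s => final vs rg A s) (fun _ ih w A s =>
    acc1 ih w A s (factW Q vs sg tr rg tot e (w.mod 18446744073709551616))
      (lamW (w.mod 18446744073709551616))) n

def setx1 (t : ℕ) (V : Vx) : Vx := ⟨V.x0, t, V.y0, V.y1, V.sa, V.sb, V.key⟩
def setx0 (t : ℕ) (V : Vx) : Vx := ⟨t, V.x1, V.y0, V.y1, V.sa, V.sb, V.key⟩
def sety1 (t : ℕ) (V : Vx) : Vx := ⟨V.x0, V.x1, V.y0, t, V.sa, V.sb, V.key⟩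
def sety0 (t : ℕ) (V : Vx) : Vx := ⟨V.x0, V.x1, t, V.y1, V.sa, V.sb, V.key⟩
def sethi (t : ℕ) (R : Rg) : Rg := ⟨R.lo, t, R.pos⟩
def setlo (t : ℕ) (R : Rg) : Rg := ⟨t, R.hi, R.pos⟩
def setpos (t : ℕ) (R : Rg) : Rg := ⟨iff (Nat.ble R.lo t) t R.lo, R.hi, true⟩
def keyOK (vs : List Vx) (e p q i : ℕ) : Bool :=
  bor (Nat.ble (e.add 3) i) (bor (Nat.beq i p) (bor (Nat.beq i q) (ord vs p q i)))
def expOK (vs : List Vx) (rg : List Rg) (e : ℕ) (A : Sg) (k : ℕ) : Bool :=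
  band (band (band (lt e 3) (nth dR rg A.v.succ).pos)
      (ordk (nth dV vs A.p).key k (nth dV vs A.q).key))
    (band (keyOK vs e A.p A.q 0) (band (keyOK vs e A.p A.q 1) (band (keyOK vs e A.p A.q 2)
      (band (keyOK vs e A.p A.q 3) (keyOK vs e A.p A.q 4)))))
def expand (Q : ℕ) (vs : List Vx) (sg : List Sg) (tr : List Tr) (rg : List Rg) (tot : Fm) (e : ℕ)
    (A : Sg) (k m r : ℕ) : St :=
  ⟨snoc vs [⟨0, 2048, 0, 2048, A.p, A.q, k⟩],
    snoc sg [⟨A.p, m, r.add 1⟩, ⟨m, A.q, r.add 3⟩],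
    snoc tr [⟨A.p, m, A.q, r, A.v, r.add 1, r.add 3⟩],
    snoc rg [⟨0, Q, false⟩, ⟨0, Q, false⟩, ⟨0, Q, false⟩, ⟨0, Q, false⟩, ⟨0, Q, false⟩],
    (tot.add ((((var r).add (var 0)).add ((var (r.add 1)).add (var (r.add 3)))).add
      (((var (r.add 2)).add (var (r.add 4))).sm 2))).sub ((var A.v).add ((var A.v.succ).sm 2)),
    e.succ⟩

def step (Q : ℕ) (H : List St) (ih : List St → Bool) (r : List St) (vs : List Vx) (sg : List Sg)
    (tr : List Tr) (rg : List Rg) (tot : Fm) (e : ℕ) (k a t : ℕ) : Bool :=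
  nth false [band (leaf Q vs sg tr rg tot e a t (cst 0) 0) (ih r),
    ih (⟨upd (setx1 t) vs a, sg, tr, rg, tot, e⟩ :: ⟨upd (setx0 t) vs a, sg, tr, rg, tot, e⟩ :: r),
    ih (⟨upd (sety1 t) vs a, sg, tr, rg, tot, e⟩ :: ⟨upd (sety0 t) vs a, sg, tr, rg, tot, e⟩ :: r),
    band (fixd rg) (ih (⟨vs, sg, tr, upd (sethi t) rg a, tot, e⟩ ::
      ⟨vs, sg, tr, upd (setlo t.succ) rg a, tot, e⟩ :: r)),
    ih (⟨vs, sg, tr, upd (sethi t) rg a, tot, e⟩ :: ⟨vs, sg, tr, upd (setlo t) rg a, tot, e⟩ :: r),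
    ih (⟨vs, sg, tr, upd (sethi 0) rg a, tot, e⟩ ::
      ⟨vs, sg, tr, upd (setpos (nth dR rg 0).lo) rg a, tot, e⟩ :: r),
    band (expOK vs rg e (nth dS sg a) t)
      (ih (expand Q vs sg tr rg tot e (nth dS sg a) t (e.add 3) ((e.mul 5).add 8) :: r)),
    band (decide ((⟨vs, sg, tr, rg, tot, e⟩ : St) ∈ H)) (ih r)] k

def run (Q : ℕ) (H : List St) (c : List ℕ) : List St → Bool :=
  List.rec (fun stk => List.rec true (fun _ _ _ => false) stk)
    (fun w _ ih stk => List.rec false (fun S r _ =>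
      St.rec (fun vs sg tr rg tot e =>
        step Q H ih r vs sg tr rg tot e (w.mod 8) ((w.shiftRight 3).mod 32) (w.shiftRight 8)) S)
      stk) c

def st0 (Q x ulo uhi : ℕ) : St :=
  ⟨[⟨1024, 1024, 1024, 1024, 2, 1, 0⟩, ⟨2048, 2048, 1024, 1024, 0, 2, 8⟩,
      ⟨1024, 1024, 2048, 2048, 1, 0, 16⟩],
    [⟨0, 1, 2⟩, ⟨1, 2, 4⟩, ⟨2, 0, 6⟩], [dT],
    [⟨ulo, uhi, false⟩, ⟨0, Q, false⟩, ⟨0, Q, false⟩, ⟨0, Q, false⟩, ⟨0, Q, false⟩, ⟨0, Q, false⟩,
      ⟨0, Q, false⟩, ⟨0, Q, false⟩],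
    ((((var 1).add (((var 2).add (var 4)).add (var 6))).add
      ((((var 3).add (var 5)).add (var 7)).sm 2)).add ((var 0).sm 3)).sub
      ((cst (Q.mul 4)).add ((var 0).sm x)), 0⟩

end

end Pool.Agent.MP_b1b11b_co

end MrgPart0

-- ======== part 1: formerly Pool.Agent.MP_b1b11b_co.Geo
section MrgPart1

/-! Plane point sets: counting lemmas for the area ratio problem. -/

namespace Pool.Agent.MP_b1b11b_co

open Finset

abbrev Pt := ℝ × ℝ

/-- Cross product of `B - A` and `D - C`. -/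
def cr (A B C D : Pt) : ℝ := (B.1 - A.1) * (D.2 - C.2) - (B.2 - A.2) * (D.1 - C.1)

/-- Twice the signed area of the triangle. -/
def det (A B C : Pt) : ℝ := (B.1 - A.1) * (C.2 - A.2) - (B.2 - A.2) * (C.1 - A.1)

lemma det_cyc (A B C : Pt) : det A B C = det B C A := by unfold det; ring
lemma det_swap (A B C : Pt) : det A B C = - det B A C := by unfold det; ring
lemma det_swap' (A B C : Pt) : det A B C = - det A C B := by unfold det; ring
@[simp] lemma det_aab (A B : Pt) : det A A B = 0 := by unfold det; ring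
@[simp] lemma det_aba (A B : Pt) : det A B A = 0 := by unfold det; ring
@[simp] lemma det_abb (A B : Pt) : det A B B = 0 := by unfold det; ring
lemma det_sum (P Q R Z : Pt) : det P Q Z + det Q R Z + det R P Z = det P Q R := by
  unfold det; ring

lemma ne12 {P Q R : Pt} (h : 0 < det P Q R) : P ≠ Q := by rintro rfl; simp at h
lemma ne13 {P Q R : Pt} (h : 0 < det P Q R) : P ≠ R := by rintro rfl; simp at h
lemma ne23 {P Q R : Pt} (h : 0 < det P Q R) : Q ≠ R := by rintro rfl; simp at h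

lemma eq_of_dets {P Q R Z : Pt} (h : 0 < det P Q R) (h1 : det P Q Z = 0) (h2 : det Q R Z = 0) :
    Z = Q := by
  have e1 : det P Q R * (Z.1 - Q.1) = (R.1 - Q.1) * det P Q Z + (P.1 - Q.1) * det Q R Z := by
    unfold det; ring
  have e2 : det P Q R * (Z.2 - Q.2) = (R.2 - Q.2) * det P Q Z + (P.2 - Q.2) * det Q R Z := by
    unfold det; ring
  rw [h1, h2] at e1 e2
  have a1 : Z.1 - Q.1 = 0 := by
    rcases mul_eq_zero.1 (by linarith : det P Q R * (Z.1 - Q.1) = 0) with h' | h'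
    · linarith
    · exact h'
  have a2 : Z.2 - Q.2 = 0 := by
    rcases mul_eq_zero.1 (by linarith : det P Q R * (Z.2 - Q.2) = 0) with h' | h'
    · linarith
    · exact h'
  exact Prod.ext (by linarith) (by linarith)

/-- `V` is an exposed point of `X`. -/
def Ex (X : Finset Pt) (V : Pt) : Prop :=
  V ∈ X ∧ ∃ a b : ℝ, ∀ Z ∈ X, Z ≠ V → 0 < a * (Z.1 - V.1) + b * (Z.2 - V.2)

lemma Ex.ang {X : Finset Pt} {V A B C : Pt} (h : Ex X V) (hA : A ∈ X) (hB : B ∈ X) (hC : C ∈ X)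
    (hAV : A ≠ V) (hBV : B ≠ V) (hCV : C ≠ V) (h1 : 0 ≤ det V A B) (h2 : 0 ≤ det V B C)
    (h3 : 0 < det V A B ∨ 0 < det V B C) : 0 < det V A C := by
  obtain ⟨-, a, b, hab⟩ := h
  have fA := hab A hA hAV
  have fB := hab B hB hBV
  have fC := hab C hC hCV
  have e : (a * (B.1 - V.1) + b * (B.2 - V.2)) * det V A C =
      (a * (C.1 - V.1) + b * (C.2 - V.2)) * det V A B +
        (a * (A.1 - V.1) + b * (A.2 - V.2)) * det V B C := by
    unfold det; ring
  have : 0 < (a * (B.1 - V.1) + b * (B.2 - V.2)) * det V A C := by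
    rw [e]
    rcases h3 with h3 | h3
    · have := mul_pos fC h3
      have := mul_nonneg fA.le h2
      linarith
    · have := mul_pos fA h3
      have := mul_nonneg fC.le h1
      linarith
  exact (pos_iff_pos_of_mul_pos this).1 fB

/-- If `Z` is not strictly to the left of `P Q` then it is strictly to the left of `Q R`. -/
lemma Ex.next {X : Finset Pt} {P Q R Z : Pt} (hQ : Ex X Q) (hP : P ∈ X) (hR : R ∈ X) (hZ : Z ∈ X)
    (h : 0 < det P Q R) (hZQ : Z ≠ Q) (h1 : det P Q Z ≤ 0) : 0 < det Q R Z := by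
  apply hQ.ang hR hP hZ (ne23 h).symm (ne12 h) hZQ
  · rw [← det_cyc]; exact h.le
  · rw [det_swap]; linarith
  · left; rw [← det_cyc]; exact h

/-- If `Z` is not strictly to the left of `P Q` then it is strictly to the left of `R P`. -/
lemma Ex.prev {X : Finset Pt} {P Q R Z : Pt} (hP : Ex X P) (hQ : Q ∈ X) (hR : R ∈ X) (hZ : Z ∈ X)
    (h : 0 < det P Q R) (hZP : Z ≠ P) (h1 : det P Q Z ≤ 0) : 0 < det R P Z := by
  rw [det_cyc]
  apply hP.ang hZ hQ hR hZP (ne12 h).symm (ne13 h).symm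
  · rw [det_swap']; linarith
  · exact h.le
  · right; exact h

lemma exists_deepest (X : Finset Pt) (hX : X.Nonempty) {P Q : Pt} (hPQ : P ≠ Q) :
    ∃ D, Ex X D ∧ ∀ Z ∈ X, det P Q D ≤ det P Q Z := by
  obtain ⟨D, hD, hmin⟩ := X.exists_min_image
    (fun Z => toLex (det P Q Z, (Q.1 - P.1) * Z.1 + (Q.2 - P.2) * Z.2)) hX
  have key : ∀ Z ∈ X, det P Q D < det P Q Z ∨ (det P Q D = det P Q Z ∧
      (Q.1 - P.1) * D.1 + (Q.2 - P.2) * D.2 ≤ (Q.1 - P.1) * Z.1 + (Q.2 - P.2) * Z.2) := by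
    intro Z hZ
    have := hmin Z hZ
    rw [Prod.Lex.toLex_le_toLex] at this
    exact this
  have hn : 0 < (Q.1 - P.1) ^ 2 + (Q.2 - P.2) ^ 2 := by
    by_contra hc
    have h1 : Q.1 - P.1 = 0 := by nlinarith [sq_nonneg (Q.1 - P.1), sq_nonneg (Q.2 - P.2)]
    have h2 : Q.2 - P.2 = 0 := by nlinarith [sq_nonneg (Q.1 - P.1), sq_nonneg (Q.2 - P.2)]
    exact hPQ (Prod.ext (by linarith) (by linarith))
  have ev : ∀ᶠ ε in nhdsWithin (0 : ℝ) (Set.Ioi 0), ∀ Z ∈ X, Z ≠ D →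
      0 < (det P Q Z - det P Q D) +
        ε * ((Q.1 - P.1) * (Z.1 - D.1) + (Q.2 - P.2) * (Z.2 - D.2)) := by
    rw [Filter.eventually_all_finset]
    intro Z hZ
    rcases key Z hZ with h | ⟨h, h'⟩
    · have hc : Continuous fun ε : ℝ => (det P Q Z - det P Q D) +
          ε * ((Q.1 - P.1) * (Z.1 - D.1) + (Q.2 - P.2) * (Z.2 - D.2)) := by fun_prop
      have := (hc.tendsto 0).eventually (lt_mem_nhds (show (0 : ℝ) < (det P Q Z - det P Q D) +
          0 * ((Q.1 - P.1) * (Z.1 - D.1) + (Q.2 - P.2) * (Z.2 - D.2)) by linarith))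
      exact (this.filter_mono nhdsWithin_le_nhds).mono fun ε h _ => h
    · filter_upwards [self_mem_nhdsWithin] with ε hε hZD
      have hε' : 0 < ε := hε
      have hd : 0 < (Q.1 - P.1) * (Z.1 - D.1) + (Q.2 - P.2) * (Z.2 - D.2) := by
        rcases lt_or_eq_of_le h' with h'' | h''
        · linarith
        · exfalso
          apply hZD
          have c : (Q.1 - P.1) * (Z.2 - D.2) - (Q.2 - P.2) * (Z.1 - D.1) = 0 := by
            unfold det at h; linarith
          have d : (Q.1 - P.1) * (Z.1 - D.1) + (Q.2 - P.2) * (Z.2 - D.2) = 0 := by linarith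
          have e1 : ((Q.1 - P.1) ^ 2 + (Q.2 - P.2) ^ 2) * (Z.1 - D.1) = 0 := by
            linear_combination (Q.1 - P.1) * d - (Q.2 - P.2) * c
          have e2 : ((Q.1 - P.1) ^ 2 + (Q.2 - P.2) ^ 2) * (Z.2 - D.2) = 0 := by
            linear_combination (Q.2 - P.2) * d + (Q.1 - P.1) * c
          have a1 := (mul_eq_zero.1 e1).resolve_left hn.ne'
          have a2 := (mul_eq_zero.1 e2).resolve_left hn.ne'
          exact Prod.ext (by linarith) (by linarith)
      have := mul_pos hε' hd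
      linarith
  obtain ⟨ε, hε⟩ := ev.exists
  refine ⟨D, ⟨hD, -(Q.2 - P.2) + ε * (Q.1 - P.1), (Q.1 - P.1) + ε * (Q.2 - P.2), ?_⟩, ?_⟩
  · intro Z hZ hZD
    have := hε Z hZ hZD
    unfold det at this
    linarith
  · intro Z hZ
    rcases key Z hZ with h | ⟨h, -⟩
    · exact h.le
    · exact h.le

open Classical in
/-- Number of points strictly to the right of the line `P Q`. -/
noncomputable def nN (X : Finset Pt) (P Q : Pt) : ℕ := (X.filter fun Z => det P Q Z < 0).card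
open Classical in
/-- Number of points on the line `P Q`. -/
noncomputable def nC (X : Finset Pt) (P Q : Pt) : ℕ := (X.filter fun Z => det P Q Z = 0).card
open Classical in
/-- Number of points in the closed triangle. -/
noncomputable def nCl (X : Finset Pt) (P Q R : Pt) : ℕ :=
  (X.filter fun Z => 0 ≤ det P Q Z ∧ 0 ≤ det Q R Z ∧ 0 ≤ det R P Z).card
open Classical in
/-- Number of points in the open triangle. -/
noncomputable def nOp (X : Finset Pt) (P Q R : Pt) : ℕ :=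
  (X.filter fun Z => 0 < det P Q Z ∧ 0 < det Q R Z ∧ 0 < det R P Z).card

open Classical in
/-- Indicator. -/
noncomputable def ind (p : Prop) : ℕ := if p then 1 else 0

lemma ind_pos {p : Prop} (h : p) : ind p = 1 := by simp [ind, h]
lemma ind_neg {p : Prop} (h : ¬ p) : ind p = 0 := by simp [ind, h]

lemma nN_eq (X : Finset Pt) (P Q : Pt) : nN X P Q = ∑ Z ∈ X, ind (det P Q Z < 0) := by
  unfold nN ind; rw [card_filter]
lemma nC_eq (X : Finset Pt) (P Q : Pt) : nC X P Q = ∑ Z ∈ X, ind (det P Q Z = 0) := by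
  unfold nC ind; rw [card_filter]
lemma nCl_eq (X : Finset Pt) (P Q R : Pt) :
    nCl X P Q R = ∑ Z ∈ X, ind (0 ≤ det P Q Z ∧ 0 ≤ det Q R Z ∧ 0 ≤ det R P Z) := by
  unfold nCl ind; rw [card_filter]
  exact sum_congr rfl fun Z _ => by split_ifs <;> rfl
lemma nOp_eq (X : Finset Pt) (P Q R : Pt) :
    nOp X P Q R = ∑ Z ∈ X, ind (0 < det P Q Z ∧ 0 < det Q R Z ∧ 0 < det R P Z) := by
  unfold nOp ind; rw [card_filter]
  exact sum_congr rfl fun Z _ => by split_ifs <;> rfl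
lemma one_eq {X : Finset Pt} {P : Pt} (h : P ∈ X) : ∑ Z ∈ X, ind (Z = P) = 1 := by
  rw [sum_eq_single P]
  · exact ind_pos rfl
  · intro b _ hb; exact ind_neg hb
  · intro h'; exact absurd h h'

lemma nCl_cyc (X : Finset Pt) (P Q R : Pt) : nCl X P Q R = nCl X Q R P := by
  rw [nCl_eq, nCl_eq]; refine sum_congr rfl fun Z _ => ?_
  congr 1; exact propext (by tauto)
lemma nOp_cyc (X : Finset Pt) (P Q R : Pt) : nOp X P Q R = nOp X Q R P := by
  rw [nOp_eq, nOp_eq]; refine sum_congr rfl fun Z _ => ?_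
  congr 1; exact propext (by tauto)
lemma nC_comm (X : Finset Pt) (P Q : Pt) : nC X P Q = nC X Q P := by
  rw [nC_eq, nC_eq]; refine sum_congr rfl fun Z _ => ?_
  congr 1; rw [det_swap]; exact propext neg_eq_zero

lemma two_sided (X : Finset Pt) (P Q : Pt) : nN X P Q + nN X Q P + nC X P Q = X.card := by
  rw [nN_eq, nN_eq, nC_eq, ← sum_add_distrib, ← sum_add_distrib, card_eq_sum_ones]
  refine sum_congr rfl fun Z _ => ?_
  rw [det_swap Q P Z]
  rcases lt_trichotomy (det P Q Z) 0 with h | h | h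
  · rw [ind_pos h, ind_neg (by linarith), ind_neg h.ne]
  · rw [ind_neg (by linarith), ind_neg (by linarith), ind_pos h]
  · rw [ind_neg (by linarith), ind_pos (by linarith), ind_neg h.ne']

lemma two_le_nC {X : Finset Pt} {P Q : Pt} (hP : P ∈ X) (hQ : Q ∈ X) (h : P ≠ Q) :
    2 ≤ nC X P Q := by
  rw [nC_eq]
  calc 2 = ∑ Z ∈ X, (ind (Z = P) + ind (Z = Q)) := by
        rw [sum_add_distrib, one_eq hP, one_eq hQ]
    _ ≤ _ := by
        refine sum_le_sum fun Z _ => ?_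
        by_cases h1 : Z = P
        · subst h1; rw [ind_pos rfl, ind_neg h, ind_pos (by simp)]
        · by_cases h2 : Z = Q
          · subst h2; rw [ind_neg h1, ind_pos rfl, ind_pos (by simp)]
          · rw [ind_neg h1, ind_neg h2]; omega

lemma pw_tri {s1 s2 s3 : ℝ} (h1 : s1 ≤ 0 → 0 < s2 ∧ 0 < s3) (h2 : s2 ≤ 0 → 0 < s3) :
    ind (0 ≤ s1 ∧ 0 ≤ s2 ∧ 0 ≤ s3) + ind (0 < s1 ∧ 0 < s2 ∧ 0 < s3) +
      (2 * ind (s1 < 0) + ind (s1 = 0)) + (2 * ind (s2 < 0) + ind (s2 = 0)) +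
      (2 * ind (s3 < 0) + ind (s3 = 0)) = 2 ∧
    ind (s1 = 0) + ind (s2 = 0) + ind (s3 = 0) ≤ ind (0 ≤ s1 ∧ 0 ≤ s2 ∧ 0 ≤ s3) := by
  rcases lt_trichotomy s1 0 with a | a | a
  · obtain ⟨b, c⟩ := h1 a.le
    simp [ind, a, b, c, a.ne, b.ne', c.ne', not_le.2 a, not_lt.2 a.le, not_lt.2 b.le,
      not_lt.2 c.le]
  · obtain ⟨b, c⟩ := h1 a.le
    simp [ind, a, b.le, c.le, b.ne', c.ne', not_lt.2 b.le, not_lt.2 c.le]
  · rcases lt_trichotomy s2 0 with b | b | b
    · have c := h2 b.le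
      simp [ind, b, a.ne', b.ne, c.ne', not_le.2 b, not_lt.2 a.le, not_lt.2 b.le,
        not_lt.2 c.le]
    · have c := h2 b.le
      simp [ind, b, a.le, c.le, a.ne', c.ne', not_lt.2 a.le, not_lt.2 c.le]
    · rcases lt_trichotomy s3 0 with c | c | c
      · simp [ind, c, a.ne', b.ne', c.ne, not_le.2 c, not_lt.2 a.le, not_lt.2 b.le,
          not_lt.2 c.le]
      · simp [ind, c, a.le, b.le, a.ne', b.ne', not_lt.2 a.le, not_lt.2 b.le]
      · simp [ind, a, b, c, a.le, b.le, c.le, a.ne', b.ne', c.ne', not_lt.2 a.le,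
          not_lt.2 b.le, not_lt.2 c.le]

lemma pw_tri' {X : Finset Pt} {P Q R Z : Pt} (hP : Ex X P) (hQ : Ex X Q) (hR : Ex X R)
    (h : 0 < det P Q R) (hZ : Z ∈ X) :
    ind (0 ≤ det P Q Z ∧ 0 ≤ det Q R Z ∧ 0 ≤ det R P Z) +
      ind (0 < det P Q Z ∧ 0 < det Q R Z ∧ 0 < det R P Z) +
      (2 * ind (det P Q Z < 0) + ind (det P Q Z = 0)) +
      (2 * ind (det Q R Z < 0) + ind (det Q R Z = 0)) +
      (2 * ind (det R P Z < 0) + ind (det R P Z = 0)) =
        2 + (ind (Z = P) + ind (Z = Q) + ind (Z = R)) ∧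
    ind (det P Q Z = 0) + ind (det Q R Z = 0) + ind (det R P Z = 0) ≤
      ind (0 ≤ det P Q Z ∧ 0 ≤ det Q R Z ∧ 0 ≤ det R P Z) +
        (ind (Z = P) + ind (Z = Q) + ind (Z = R)) := by
  have h2 : 0 < det Q R P := by rwa [← det_cyc]
  have h3 : 0 < det R P Q := by rwa [← det_cyc]
  by_cases e1 : Z = P
  · subst e1
    simp [ind, h2.le, h2.ne', not_lt.2 h2.le, ne12 h, ne13 h]
  by_cases e2 : Z = Q
  · subst e2
    simp [ind, h3.le, h3.ne', not_lt.2 h3.le, (ne12 h).symm, ne23 h]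
  by_cases e3 : Z = R
  · subst e3
    simp [ind, h.le, h.ne', not_lt.2 h.le, (ne13 h).symm, (ne23 h).symm]
  rw [ind_neg e1, ind_neg e2, ind_neg e3]
  exact pw_tri (fun a => ⟨hQ.next hP.1 hR.1 hZ h e2 a, hP.prev hQ.1 hR.1 hZ h e1 a⟩)
    (fun a => hR.next hQ.1 hP.1 hZ h2 e3 a)

lemma tri_id {X : Finset Pt} {P Q R : Pt} (hP : Ex X P) (hQ : Ex X Q) (hR : Ex X R)
    (h : 0 < det P Q R) :
    nCl X P Q R + nOp X P Q R + (2 * nN X P Q + nC X P Q) + (2 * nN X Q R + nC X Q R) +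
      (2 * nN X R P + nC X R P) = 2 * X.card + 3 := by
  have := sum_congr rfl fun Z (hZ : Z ∈ X) => (pw_tri' hP hQ hR h hZ).1
  simp only [sum_add_distrib, ← mul_sum, one_eq hP.1, one_eq hQ.1, one_eq hR.1, sum_const,
    smul_eq_mul] at this
  simp only [nCl_eq, nOp_eq, nN_eq, nC_eq]
  omega

lemma cnt_lo {X : Finset Pt} {P Q R : Pt} (hP : Ex X P) (hQ : Ex X Q) (hR : Ex X R)
    (h : 0 < det P Q R) : nC X P Q + nC X Q R + nC X R P ≤ nCl X P Q R + 3 := by
  have := sum_le_sum fun Z (hZ : Z ∈ X) => (pw_tri' hP hQ hR h hZ).2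
  simp only [sum_add_distrib, one_eq hP.1, one_eq hQ.1, one_eq hR.1] at this
  simp only [nCl_eq, nC_eq]
  omega

/-- The expansion identity. -/
lemma expand_id {X : Finset Pt} {P D Q : Pt} (hP : Ex X P) (hD : Ex X D) (hQ : Ex X Q)
    (h : 0 < det P D Q) :
    2 * nN X P Q + nC X P Q + 3 =
      nCl X P D Q + nOp X P D Q + (2 * nN X P D + nC X P D) + (2 * nN X D Q + nC X D Q) := by
  have := tri_id hP hD hQ h
  have := two_sided X P Q
  have := nC_comm X P Q
  omega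

end Pool.Agent.MP_b1b11b_co

end MrgPart1

-- ======== part 2: formerly Pool.Agent.MP_b1b11b_co.Count
section MrgPart2

/-! The number of points in a triangle is bounded by its area. -/

namespace Pool.Agent.MP_b1b11b_co

open Finset

/-- Every positively oriented triangle has `κ * det > 1`. -/
def Un (X : Finset Pt) (κ : ℝ) : Prop :=
  ∀ A ∈ X, ∀ B ∈ X, ∀ C ∈ X, 0 < det A B C → 1 < κ * det A B C

lemma pw3 {a b c r1 r2 r3 x y z : ℝ} (ha : 0 < a) (hb : 0 < b) (hc : 0 < c)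
    (hr : a * r1 + b * r2 + c * r3 = 0) (hx : 0 ≤ x) (hy : 0 ≤ y) (hz : 0 ≤ z) :
    1 + ind (0 < x ∧ 0 < y ∧ 0 < z) ≤
      (ind (0 ≤ -r2 ∧ 0 ≤ x ∧ 0 ≤ r3) + ind (0 < -r2 ∧ 0 < x ∧ 0 < r3)) +
      (ind (0 ≤ r1 ∧ 0 ≤ -r3 ∧ 0 ≤ y) + ind (0 < r1 ∧ 0 < -r3 ∧ 0 < y)) +
      (ind (0 ≤ z ∧ 0 ≤ r2 ∧ 0 ≤ -r1) + ind (0 < z ∧ 0 < r2 ∧ 0 < -r1)) := by
  have p1 : 0 < r1 → 0 < a * r1 := fun h => mul_pos ha h
  have p2 : 0 < r2 → 0 < b * r2 := fun h => mul_pos hb h
  have p3 : 0 < r3 → 0 < c * r3 := fun h => mul_pos hc h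
  have n1 : r1 < 0 → a * r1 < 0 := fun h => mul_neg_of_pos_of_neg ha h
  have n2 : r2 < 0 → b * r2 < 0 := fun h => mul_neg_of_pos_of_neg hb h
  have n3 : r3 < 0 → c * r3 < 0 := fun h => mul_neg_of_pos_of_neg hc h
  have z1 : r1 = 0 → a * r1 = 0 := fun h => by rw [h, mul_zero]
  have z2 : r2 = 0 → b * r2 = 0 := fun h => by rw [h, mul_zero]
  have z3 : r3 = 0 → c * r3 = 0 := fun h => by rw [h, mul_zero]
  simp only [Left.nonneg_neg_iff, Left.neg_pos_iff, hx, hy, hz, true_and, and_true]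
  by_cases o : 0 < x ∧ 0 < y ∧ 0 < z
  · obtain ⟨o1, o2, o3⟩ := o
    simp only [o1, o2, o3, true_and, and_true]
    rcases lt_trichotomy r1 0 with s1 | s1 | s1 <;> rcases lt_trichotomy r2 0 with s2 | s2 | s2 <;>
      rcases lt_trichotomy r3 0 with s3 | s3 | s3 <;>
      first
      | (exfalso
         first
         | linarith [n1 s1, n2 s2, n3 s3]
         | linarith [n1 s1, n2 s2, z3 s3]
         | linarith [n1 s1, z2 s2, n3 s3]
         | linarith [n1 s1, z2 s2, z3 s3]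
         | linarith [z1 s1, n2 s2, n3 s3]
         | linarith [z1 s1, n2 s2, z3 s3]
         | linarith [z1 s1, z2 s2, n3 s3]
         | linarith [p1 s1, p2 s2, p3 s3]
         | linarith [p1 s1, p2 s2, z3 s3]
         | linarith [p1 s1, z2 s2, p3 s3]
         | linarith [p1 s1, z2 s2, z3 s3]
         | linarith [z1 s1, p2 s2, p3 s3]
         | linarith [z1 s1, p2 s2, z3 s3]
         | linarith [z1 s1, z2 s2, p3 s3])
      | simp [ind, s1, s2, s3, le_of_lt, not_le_of_gt, not_lt_of_gt]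
  · rw [ind_neg o]
    rcases lt_trichotomy r1 0 with s1 | s1 | s1 <;> rcases lt_trichotomy r2 0 with s2 | s2 | s2 <;>
      rcases lt_trichotomy r3 0 with s3 | s3 | s3 <;>
      first
      | (exfalso
         first
         | linarith [n1 s1, n2 s2, n3 s3]
         | linarith [p1 s1, p2 s2, p3 s3])
      | (have := ind_pos (p := r2 ≤ 0 ∧ 0 ≤ r3) ⟨by linarith, by linarith⟩; omega)
      | (have := ind_pos (p := 0 ≤ r1 ∧ r3 ≤ 0) ⟨by linarith, by linarith⟩; omega)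
      | (have := ind_pos (p := 0 ≤ r2 ∧ r1 ≤ 0) ⟨by linarith, by linarith⟩; omega)

lemma split3 {X : Finset Pt} {P Q R W : Pt} (hP : P ∈ X) (hQ : Q ∈ X) (hR : R ∈ X) (hW : W ∈ X)
    (ha : 0 < det Q R W) (hb : 0 < det R P W) (hc : 0 < det P Q W) :
    nCl X P Q R + nOp X P Q R + 4 ≤ (nCl X W Q R + nOp X W Q R) + (nCl X P W R + nOp X P W R) +
      (nCl X P Q W + nOp X P Q W) := by
  have h : 0 < det P Q R := by rw [← det_sum P Q R W]; linarith
  have key : ∀ Z ∈ X, ind (0 ≤ det P Q Z ∧ 0 ≤ det Q R Z ∧ 0 ≤ det R P Z) +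
      ind (0 < det P Q Z ∧ 0 < det Q R Z ∧ 0 < det R P Z) +
      (ind (Z = P) + ind (Z = Q) + ind (Z = R) + ind (Z = W)) ≤
      (ind (0 ≤ det W Q Z ∧ 0 ≤ det Q R Z ∧ 0 ≤ det R W Z) +
        ind (0 < det W Q Z ∧ 0 < det Q R Z ∧ 0 < det R W Z)) +
      (ind (0 ≤ det P W Z ∧ 0 ≤ det W R Z ∧ 0 ≤ det R P Z) +
        ind (0 < det P W Z ∧ 0 < det W R Z ∧ 0 < det R P Z)) +
      (ind (0 ≤ det P Q Z ∧ 0 ≤ det Q W Z ∧ 0 ≤ det W P Z) +
        ind (0 < det P Q Z ∧ 0 < det Q W Z ∧ 0 < det W P Z)) := by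
    intro Z _
    have h2 : 0 < det Q R P := by rwa [← det_cyc]
    have h3 : 0 < det R P Q := by rwa [← det_cyc]
    have a2 : 0 < det R W Q := by rwa [← det_cyc]
    have a3 : 0 < det W Q R := by rwa [← det_cyc]
    have b2 : 0 < det P W R := by rwa [← det_cyc]
    have b3 : 0 < det W R P := by rwa [← det_cyc]
    have c2 : 0 < det Q W P := by rwa [← det_cyc]
    have c3 : 0 < det W P Q := by rwa [← det_cyc]
    by_cases e1 : Z = P
    · subst e1
      simp [ind, h2.le, b3.le, c2.le, ne12 h, ne13 h, ne13 hc]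
    by_cases e2 : Z = Q
    · subst e2
      simp [ind, h3.le, a2.le, c3.le, (ne12 h).symm, ne23 h, ne23 hc]
    by_cases e3 : Z = R
    · subst e3
      simp [ind, h.le, a3.le, b2.le, (ne13 h).symm, (ne23 h).symm, ne23 ha]
    by_cases e4 : Z = W
    · subst e4
      simp [ind, ha, hb, hc, ha.le, hb.le, hc.le, e1, e2, e3]
    rw [ind_neg e1, ind_neg e2, ind_neg e3, ind_neg e4]
    by_cases o : 0 ≤ det P Q Z ∧ 0 ≤ det Q R Z ∧ 0 ≤ det R P Z
    · have := pw3 (r1 := det P W Z) (r2 := det Q W Z) (r3 := det R W Z) ha hb hc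
        (by unfold det; ring) o.2.1 o.2.2 o.1
      rw [ind_pos o, det_swap W Q Z, det_swap W R Z, det_swap W P Z]
      have e : ind (0 < det P Q Z ∧ 0 < det Q R Z ∧ 0 < det R P Z) =
          ind (0 < det Q R Z ∧ 0 < det R P Z ∧ 0 < det P Q Z) := by
        congr 1; exact propext (by tauto)
      omega
    · rw [ind_neg o, ind_neg (fun o' => o ⟨o'.1.le, o'.2.1.le, o'.2.2.le⟩)]
      omega
  have := sum_le_sum key
  simp only [sum_add_distrib, one_eq hP, one_eq hQ, one_eq hR, one_eq hW] at this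
  simp only [nCl_eq, nOp_eq]
  omega

lemma split2 {X : Finset Pt} {P Q R W : Pt} (hR : R ∈ X) (hW : W ∈ X)
    (ha : 0 < det Q R W) (hb : 0 < det R P W) (hc : det P Q W = 0) :
    nCl X P Q R + nOp X P Q R + 2 ≤ (nCl X W Q R + nOp X W Q R) + (nCl X P W R + nOp X P W R) := by
  have hs := det_sum P Q R W
  have h : 0 < det P Q R := by linarith
  have key : ∀ Z ∈ X, ind (0 ≤ det P Q Z ∧ 0 ≤ det Q R Z ∧ 0 ≤ det R P Z) +
      ind (0 < det P Q Z ∧ 0 < det Q R Z ∧ 0 < det R P Z) + (ind (Z = R) + ind (Z = W)) ≤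
      (ind (0 ≤ det W Q Z ∧ 0 ≤ det Q R Z ∧ 0 ≤ det R W Z) +
        ind (0 < det W Q Z ∧ 0 < det Q R Z ∧ 0 < det R W Z)) +
      (ind (0 ≤ det P W Z ∧ 0 ≤ det W R Z ∧ 0 ≤ det R P Z) +
        ind (0 < det P W Z ∧ 0 < det W R Z ∧ 0 < det R P Z)) := by
    intro Z _
    have a3 : 0 < det W Q R := by rwa [← det_cyc, ← det_cyc]
    have b2 : 0 < det P W R := by rwa [← det_cyc]
    by_cases e3 : Z = R
    · subst e3
      simp [ind, h.le, a3.le, b2.le, ne23 ha]
    by_cases e4 : Z = W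
    · subst e4
      simp [ind, ha.le, hb.le, hc, e3]
    rw [ind_neg e3, ind_neg e4]
    have i1 : det P Q R * det W Q Z = det Q R W * det P Q Z - det P Q W * det Q R Z := by
      unfold det; ring
    have i2 : det P Q R * det P W Z = det R P W * det P Q Z - det P Q W * det R P Z := by
      unfold det; ring
    rw [hc] at i1 i2
    by_cases o : 0 ≤ det P Q Z ∧ 0 ≤ det Q R Z ∧ 0 ≤ det R P Z
    · have j1 : 0 ≤ det W Q Z := by
        have := mul_nonneg ha.le o.1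
        exact nonneg_of_mul_nonneg_right (by linarith) h
      have j2 : 0 ≤ det P W Z := by
        have := mul_nonneg hb.le o.1
        exact nonneg_of_mul_nonneg_right (by linarith) h
      rw [ind_pos o, det_swap W R Z]
      by_cases o' : 0 < det P Q Z ∧ 0 < det Q R Z ∧ 0 < det R P Z
      · have k1 : 0 < det W Q Z := by
          have := mul_pos ha o'.1
          exact (pos_iff_pos_of_mul_pos (by linarith : 0 < det P Q R * det W Q Z)).1 h
        have k2 : 0 < det P W Z := by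
          have := mul_pos hb o'.1
          exact (pos_iff_pos_of_mul_pos (by linarith : 0 < det P Q R * det P W Z)).1 h
        rw [ind_pos o']
        rcases lt_trichotomy (det R W Z) 0 with s | s | s
        · rw [ind_pos (p := 0 ≤ det P W Z ∧ _) ⟨j2, by linarith, o.2.2⟩,
            ind_pos (p := 0 < det P W Z ∧ _) ⟨k2, by linarith, o'.2.2⟩]
          omega
        · rw [ind_pos (p := 0 ≤ det P W Z ∧ _) ⟨j2, by linarith, o.2.2⟩,
            ind_pos (p := 0 ≤ det W Q Z ∧ _) ⟨j1, o.2.1, by linarith⟩]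
          omega
        · rw [ind_pos (p := 0 ≤ det W Q Z ∧ _) ⟨j1, o.2.1, by linarith⟩,
            ind_pos (p := 0 < det W Q Z ∧ _) ⟨k1, o'.2.1, by linarith⟩]
          omega
      · rw [ind_neg o']
        rcases le_total (det R W Z) 0 with s | s
        · rw [ind_pos (p := 0 ≤ det P W Z ∧ _) ⟨j2, by linarith, o.2.2⟩]
          omega
        · rw [ind_pos (p := 0 ≤ det W Q Z ∧ _) ⟨j1, o.2.1, by linarith⟩]
          omega
    · rw [ind_neg o, ind_neg (fun o' => o ⟨o'.1.le, o'.2.1.le, o'.2.2.le⟩)]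
      omega
  have := sum_le_sum key
  simp only [sum_add_distrib, one_eq hR, one_eq hW] at this
  simp only [nCl_eq, nOp_eq]
  omega

/-- Replacing the vertex `P` by another point of the closed triangle loses points. -/
lemma nCl_lt {X : Finset Pt} {P Q R W : Pt} (hP : P ∈ X) (h : 0 < det P Q R)
    (ha : 0 < det Q R W) (hb : 0 ≤ det R P W) (hc : 0 ≤ det P Q W) (hWP : W ≠ P) :
    nCl X W Q R < nCl X P Q R := by
  classical
  unfold nCl
  apply card_lt_card
  rw [ssubset_iff_of_subset]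
  · refine ⟨P, ?_, ?_⟩
    · simp only [mem_filter, det_aba, det_abb, le_refl, true_and, and_true]
      exact ⟨hP, by rw [← det_cyc]; exact h.le⟩
    · simp only [mem_filter, not_and]
      intro _ h1 _ h3
      apply hWP
      have e1 : det W Q P = - det P Q W := by unfold det; ring
      have e2 : det R W P = - det R P W := by unfold det; ring
      exact eq_of_dets (P := R) (Q := P) (R := Q) (by rwa [← det_cyc, ← det_cyc])
        (by linarith) (by linarith)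
  · intro Z hZ
    simp only [mem_filter] at hZ ⊢
    obtain ⟨hZ, h1, h2, h3⟩ := hZ
    have i1 : det Q R W * det P Q Z = det P Q R * det W Q Z + det P Q W * det Q R Z := by
      unfold det; ring
    have i2 : det Q R W * det R P Z = det P Q R * det R W Z + det R P W * det Q R Z := by
      unfold det; ring
    refine ⟨hZ, ?_, h2, ?_⟩
    · have := mul_nonneg h.le h1
      have := mul_nonneg hc h2
      exact le_of_mul_le_mul_left (by linarith) ha
    · have := mul_nonneg h.le h3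
      have := mul_nonneg hb h2
      exact le_of_mul_le_mul_left (by linarith) ha

lemma cnt_lt_aux {X : Finset Pt} {κ : ℝ} (hU : Un X κ) (n : ℕ) :
    ∀ P ∈ X, ∀ Q ∈ X, ∀ R ∈ X, 0 < det P Q R → nCl X P Q R ≤ n →
      (nCl X P Q R : ℝ) + nOp X P Q R - 2 < κ * det P Q R := by
  induction n with
  | zero =>
    intro P hP Q hQ R hR h hn
    exfalso
    have : 1 ≤ nCl X P Q R := by
      classical
      unfold nCl
      apply card_pos.2
      refine ⟨P, ?_⟩
      simp only [mem_filter, det_aba, det_abb, le_refl, true_and, and_true]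
      exact ⟨hP, by rw [← det_cyc]; exact h.le⟩
    omega
  | succ n ih =>
    have two : ∀ P ∈ X, ∀ Q ∈ X, ∀ R ∈ X, ∀ W ∈ X, 0 < det Q R W → 0 < det R P W → det P Q W = 0 →
        nCl X P Q R ≤ n + 1 → (nCl X P Q R : ℝ) + nOp X P Q R - 2 < κ * det P Q R := by
      intro P hP Q hQ R hR W hW ha hb hc hn
      have hs := det_sum P Q R W
      have h : 0 < det P Q R := by linarith
      have l1 := nCl_lt hP h ha hb.le hc.ge (ne23 hb).symm
      have l2 := nCl_lt (P := Q) (Q := R) (R := P) (W := W) hQ (by rwa [← det_cyc]) hb hc.ge ha.le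
        (ne13 ha).symm
      rw [← nCl_cyc X P Q R, ← nCl_cyc X P W R] at l2
      have i1 := ih W hW Q hQ R hR (by rwa [← det_cyc, ← det_cyc]) (by omega)
      have i2 := ih P hP W hW R hR (by rwa [← det_cyc]) (by omega)
      have s : ((nCl X P Q R + nOp X P Q R + 2 : ℕ) : ℝ) ≤
          ((nCl X W Q R + nOp X W Q R) + (nCl X P W R + nOp X P W R) : ℕ) := by
        exact_mod_cast split2 hR hW ha hb hc
      push_cast at s
      have e : det P Q R = det W Q R + det P W R := by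
        rw [det_cyc W Q R, ← det_cyc R P W]; linarith
      rw [e, mul_add]
      linarith
    intro P hP Q hQ R hR h hn
    by_cases hall : ∀ Z ∈ X, 0 ≤ det P Q Z ∧ 0 ≤ det Q R Z ∧ 0 ≤ det R P Z → Z = P ∨ Z = Q ∨ Z = R
    · have c1 : nCl X P Q R ≤ 3 := by
        classical
        unfold nCl
        refine le_trans (card_le_card (t := {P, Q, R}) ?_) card_le_three
        intro Z hZ
        simp only [mem_filter] at hZ
        simpa using hall Z hZ.1 hZ.2
      have c2 : nOp X P Q R = 0 := by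
        classical
        unfold nOp
        rw [card_eq_zero, filter_eq_empty_iff]
        intro Z hZ o
        rcases hall Z hZ ⟨o.1.le, o.2.1.le, o.2.2.le⟩ with rfl | rfl | rfl <;> simp at o
      have := hU P hP Q hQ R hR h
      have c1' : (nCl X P Q R : ℝ) ≤ 3 := by exact_mod_cast c1
      rw [c2]; push_cast; linarith
    push Not at hall
    obtain ⟨W, hW, ⟨hc, ha, hb⟩, n1, n2, n3⟩ := hall
    have h2 : 0 < det Q R P := by rwa [← det_cyc]
    have h3 : 0 < det R P Q := by rwa [← det_cyc]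
    rcases hc.eq_or_lt with hc | hc
    · have ha' : 0 < det Q R W := lt_of_le_of_ne ha fun e => n2 (eq_of_dets h hc.symm e.symm)
      have hb' : 0 < det R P W := lt_of_le_of_ne hb fun e => n1 (eq_of_dets h3 e.symm hc.symm)
      exact two P hP Q hQ R hR W hW ha' hb' hc.symm hn
    rcases ha.eq_or_lt with ha | ha
    · have hb' : 0 < det R P W := lt_of_le_of_ne hb fun e => n3 (eq_of_dets h2 ha.symm e.symm)
      have := two Q hQ R hR P hP W hW hb' hc ha.symm (by rwa [← nCl_cyc])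
      rwa [← nCl_cyc, ← nOp_cyc, ← det_cyc] at this
    rcases hb.eq_or_lt with hb | hb
    · have := two R hR P hP Q hQ W hW hc ha hb.symm (by rwa [nCl_cyc])
      rwa [nCl_cyc X R, nOp_cyc X R, det_cyc R] at this
    have l1 := nCl_lt hP h ha hb.le hc.le n1
    have l2 := nCl_lt (P := Q) (Q := R) (R := P) (W := W) hQ h2 hb hc.le ha.le n2
    have l3 := nCl_lt (P := R) (Q := P) (R := Q) (W := W) hR h3 hc ha.le hb.le n3
    rw [← nCl_cyc X P Q R, ← nCl_cyc X P W R] at l2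
    rw [nCl_cyc X R P Q, nCl_cyc X W P Q] at l3
    have i1 := ih W hW Q hQ R hR (by rwa [← det_cyc, ← det_cyc]) (by omega)
    have i2 := ih P hP W hW R hR (by rwa [← det_cyc]) (by omega)
    have i3 := ih P hP Q hQ W hW hc (by omega)
    have s : ((nCl X P Q R + nOp X P Q R + 4 : ℕ) : ℝ) ≤
        ((nCl X W Q R + nOp X W Q R) + (nCl X P W R + nOp X P W R) +
          (nCl X P Q W + nOp X P Q W) : ℕ) := by
      exact_mod_cast split3 hP hQ hR hW ha hb hc
    push_cast at s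
    have e : det P Q R = det W Q R + det P W R + det P Q W := by
      rw [det_cyc W Q R, ← det_cyc R P W, ← det_sum P Q R W]; ring
    rw [e, mul_add, mul_add]
    linarith

lemma cnt_lt {X : Finset Pt} {κ : ℝ} (hU : Un X κ) {P Q R : Pt} (hP : P ∈ X) (hQ : Q ∈ X)
    (hR : R ∈ X) (h : 0 < det P Q R) : (nCl X P Q R : ℝ) + nOp X P Q R - 2 < κ * det P Q R :=
  cnt_lt_aux hU _ P hP Q hQ R hR h le_rfl

end Pool.Agent.MP_b1b11b_co

end MrgPart2

-- marker of a merged file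
example : 731051 + 638780 = 731051 + 638780 := rfl
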