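import Mathlib.Algebra.CharP.Defs
import Mathlib.Tactic.IntervalCases
import Mathlib.Data.Int.Star
import Mathlib.Algebra.Order.Ring.Star
import Pool.Agent.MP_b1b11b_co.Count

/-! Packed linear forms and their meaning. -/

namespace Pool.Agent.MP_b1b11b_co

open Finset

@[simp] lemma nth_nil {α : Type} (d : α) (n : ℕ) : nth d [] n = d := rfl
@[simp] lemma nth_zero {α : Type} (d a : α) (l : List α) : nth d (a :: l) 0 = a := rfl
@[simp] lemma nth_succ {α : Type} (d a : α) (l : List α) (n : ℕ) :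
    nth d (a :: l) (n + 1) = nth d l n := rfl
lemma upd_nil {α : Type} (f : α → α) (n : ℕ) : upd f [] n = [] := rfl
lemma upd_zero {α : Type} (f : α → α) (a : α) (l : List α) : upd f (a :: l) 0 = f a :: l := rfl
lemma upd_succ {α : Type} (f : α → α) (a : α) (l : List α) (n : ℕ) :
    upd f (a :: l) (n + 1) = a :: upd f l n := rfl
lemma snoc_eq {α : Type} (l r : List α) : snoc l r = l ++ r := by
  induction l with
  | nil => rfl
  | cons a t ih => exact congrArg (a :: ·) ih
lemma upd_length {α : Type} (f : α → α) (l : List α) (n : ℕ) : (upd f l n).length = l.length := by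
  induction l generalizing n with
  | nil => rfl
  | cons a t ih =>
    cases n with
    | zero => rfl
    | succ n => rw [upd_succ]; simp [ih]
lemma nth_upd {α : Type} (d : α) (f : α → α) (l : List α) (n i : ℕ) :
    nth d (upd f l n) i = nth d l i ∨ (i = n ∧ nth d (upd f l n) i = f (nth d l i)) := by
  induction l generalizing n i with
  | nil => left; rfl
  | cons a t ih =>
    cases n with
    | zero =>
      cases i with
      | zero => right; exact ⟨rfl, rfl⟩
      | succ i => left; rfl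
    | succ n =>
      cases i with
      | zero => left; rfl
      | succ i =>
        rw [upd_succ, nth_succ, nth_succ]
        rcases ih n i with h | ⟨h, h'⟩
        · left; exact h
        · right; exact ⟨by rw [h], h'⟩
lemma nth_append_lt {α : Type} (d : α) (l r : List α) (i : ℕ) (h : i < l.length) :
    nth d (l ++ r) i = nth d l i := by
  induction l generalizing i with
  | nil => simp at h
  | cons a t ih =>
    cases i with
    | zero => rfl
    | succ i => exact ih i (by simpa using h)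
lemma nth_append_ge {α : Type} (d : α) (l r : List α) (i : ℕ) :
    nth d (l ++ r) (l.length + i) = nth d r i := by
  induction l with
  | nil => simp
  | cons a t ih =>
    rw [List.length_cons, show t.length + 1 + i = (t.length + i) + 1 by omega]
    exact ih
lemma nth_ge {α : Type} (d : α) (l : List α) (i : ℕ) (h : l.length ≤ i) : nth d l i = d := by
  induction l generalizing i with
  | nil => rfl
  | cons a t ih =>
    cases i with
    | zero => simp at h
    | succ i => exact ih i (by simpa using h)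
lemma nth_mem {α : Type} (d : α) (l : List α) (i : ℕ) : nth d l i = d ∨ nth d l i ∈ l := by
  induction l generalizing i with
  | nil => left; rfl
  | cons a t ih =>
    cases i with
    | zero => right; simp
    | succ i =>
      rcases ih i with h | h
      · left; exact h
      · right; exact List.mem_cons_of_mem _ h

@[simp] lemma iff_true {α : Type} (t e : α) : iff true t e = t := rfl
@[simp] lemma iff_false {α : Type} (t e : α) : iff false t e = e := rfl
@[simp] lemma band_eq (a b : Bool) : band a b = true ↔ a = true ∧ b = true := by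
  cases a <;> simp [band]
@[simp] lemma bor_eq (a b : Bool) : bor a b = true ↔ a = true ∨ b = true := by
  cases a <;> simp [bor]
@[simp] lemma frc_eq {α : Type} (n : ℕ) (f : ℕ → α) : frc n f = f n := by cases n <;> rfl
@[simp] lemma lt_eq (a b : ℕ) : lt a b = true ↔ a < b := by
  simp [lt, Nat.ble_eq]

lemma BB_eq : BB = 2 ^ 128 := by norm_num [BB]
lemma BB_pos : 0 < BB := by norm_num [BB]
lemma MM_cast : ((MM : ℕ) : ℝ) = 1048576 := by norm_num [MM]

/-- The packed number with digits `f`. -/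
def SS (f : ℕ → ℕ) (n : ℕ) : ℕ := ∑ s ∈ range n, f s * BB ^ s

lemma SS_add (f : ℕ → ℕ) (a b : ℕ) : SS f (a + b) = SS f a + BB ^ a * SS (fun s => f (a + s)) b := by
  unfold SS
  rw [sum_range_add, mul_sum]
  congr 1
  refine sum_congr rfl fun s _ => ?_
  rw [pow_add]; ring
lemma SS_lt {f : ℕ → ℕ} (n : ℕ) (h : ∀ s < n, f s < BB) : SS f n < BB ^ n := by
  induction n with
  | zero => simp [SS]
  | succ n ih =>
    have := ih fun s hs => h s (by omega)
    have h2 := h n (by omega)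
    unfold SS at *
    rw [sum_range_succ, pow_succ]
    have : (f n + 1) * BB ^ n ≤ BB * BB ^ n := Nat.mul_le_mul_right _ h2
    nlinarith
lemma SS_div {f : ℕ → ℕ} (a b : ℕ) (h : ∀ s < a, f s < BB) :
    SS f (a + b) / BB ^ a = SS (fun s => f (a + s)) b := by
  rw [SS_add, Nat.add_mul_div_left _ _ (pow_pos BB_pos a), Nat.div_eq_of_lt (SS_lt a h), zero_add]
lemma SS_mod {f : ℕ → ℕ} (a b : ℕ) (h : ∀ s < a, f s < BB) : SS f (a + b) % BB ^ a = SS f a := by
  rw [SS_add, Nat.add_mul_mod_self_left, Nat.mod_eq_of_lt (SS_lt a h)]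
lemma SS_one (f : ℕ → ℕ) : SS f 1 = f 0 := by simp [SS]
lemma shr_eq (P a : ℕ) : P.shiftRight (128 * a) = P / BB ^ a := by
  rw [BB_eq, ← pow_mul]; exact Nat.shiftRight_eq_div_pow _ _
lemma shl_eq (a : ℕ) : Nat.shiftLeft 1 (128 * a) = BB ^ a := by
  rw [BB_eq, ← pow_mul]; exact Nat.one_shiftLeft _

/-- Sum of the digits. -/
def S1 (f : ℕ → ℕ) (n : ℕ) : ℕ := ∑ s ∈ range n, f s
/-- Weighted sum of the digits. -/
def SW (w : ℕ → ℝ) (f : ℕ → ℕ) (n : ℕ) : ℝ := ∑ s ∈ range n, (f s : ℝ) * w s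

lemma SS_plus (f g : ℕ → ℕ) (n : ℕ) : SS (fun s => f s + g s) n = SS f n + SS g n := by
  simp only [SS, add_mul, sum_add_distrib]
lemma S1_plus (f g : ℕ → ℕ) (n : ℕ) : S1 (fun s => f s + g s) n = S1 f n + S1 g n := by
  simp only [S1, sum_add_distrib]
lemma SW_plus (w : ℕ → ℝ) (f g : ℕ → ℕ) (n : ℕ) :
    SW w (fun s => f s + g s) n = SW w f n + SW w g n := by
  simp only [SW, Nat.cast_add, add_mul, sum_add_distrib]
lemma SS_sm (c : ℕ) (f : ℕ → ℕ) (n : ℕ) : SS (fun s => c * f s) n = c * SS f n := by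
  simp only [SS, mul_sum, mul_assoc]
lemma S1_sm (c : ℕ) (f : ℕ → ℕ) (n : ℕ) : S1 (fun s => c * f s) n = c * S1 f n := by
  simp only [S1, mul_sum]
lemma SW_sm (w : ℕ → ℝ) (c : ℕ) (f : ℕ → ℕ) (n : ℕ) :
    SW w (fun s => c * f s) n = c * SW w f n := by
  simp only [SW, Nat.cast_mul, mul_sum, mul_assoc]
lemma SS_unit (c : ℕ) {s n : ℕ} (h : s < n) :
    SS (fun t => if t = s then c else 0) n = c * BB ^ s := by simp [SS, h]
lemma S1_unit (c : ℕ) {s n : ℕ} (h : s < n) : S1 (fun t => if t = s then c else 0) n = c := by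
  simp [S1, h]
lemma SW_unit (w : ℕ → ℝ) (c : ℕ) {s n : ℕ} (h : s < n) :
    SW w (fun t => if t = s then c else 0) n = c * w s := by simp [SW, h]
lemma le_S1 (f : ℕ → ℕ) {s n : ℕ} (h : s < n) : f s ≤ S1 f n :=
  single_le_sum (f := f) (fun _ _ => Nat.zero_le _) (mem_range.2 h)
lemma SW_add (w : ℕ → ℝ) (f : ℕ → ℕ) (a b : ℕ) :
    SW w f (a + b) = SW w f a + SW (fun s => w (a + s)) (fun s => f (a + s)) b := by
  unfold SW; rw [sum_range_add]
lemma SW_one (w : ℕ → ℝ) (f : ℕ → ℕ) : SW w f 1 = f 0 * w 0 := by simp [SW]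
lemma SW_zero (w : ℕ → ℝ) (f : ℕ → ℕ) (n : ℕ) (h : ∀ s, w s = 0) : SW w f n = 0 := by simp [SW, h]
lemma SS_four (f : ℕ → ℕ) : SS f 4 = f 0 + f 1 * BB + f 2 * BB ^ 2 + f 3 * BB ^ 3 := by
  simp only [SS, sum_range_succ, sum_range_zero, pow_zero, pow_one, mul_one, zero_add]
lemma SW_four (w : ℕ → ℝ) (f : ℕ → ℕ) :
    SW w f 4 = f 0 * w 0 + f 1 * w 1 + f 2 * w 2 + f 3 * w 3 := by
  simp only [SW, sum_range_succ, sum_range_zero, zero_add]

attribute [irreducible] SS S1 SW
attribute [local irreducible] BB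

/-- `n` packs digits of total size at most `g` whose weighted sum is `r`. -/
def Rep0 (w : ℕ → ℝ) (n g : ℕ) (r : ℝ) : Prop :=
  ∃ f : ℕ → ℕ, n = SS f 39 ∧ S1 f 39 ≤ g ∧ r = SW w f 39

variable {w : ℕ → ℝ}

lemma Rep0.add {n n' g g' : ℕ} {r r' : ℝ} (h : Rep0 w n g r) (h' : Rep0 w n' g' r') :
    Rep0 w (n + n') (g + g') (r + r') := by
  obtain ⟨f, h1, h2, h3⟩ := h
  obtain ⟨f', h1', h2', h3'⟩ := h'
  exact ⟨fun s => f s + f' s, by rw [SS_plus, h1, h1'], by rw [S1_plus]; exact Nat.add_le_add h2 h2',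
    by rw [SW_plus, h3, h3']⟩
lemma Rep0.sm {n g : ℕ} {r : ℝ} (c : ℕ) (h : Rep0 w n g r) : Rep0 w (c * n) (c * g) (c * r) := by
  obtain ⟨f, h1, h2, h3⟩ := h
  exact ⟨fun s => c * f s, by rw [SS_sm, h1], by rw [S1_sm]; exact Nat.mul_le_mul_left _ h2,
    by rw [SW_sm, h3]⟩
lemma Rep0.mono {n g g' : ℕ} {r : ℝ} (h : Rep0 w n g r) (hg : g ≤ g') : Rep0 w n g' r := by
  obtain ⟨f, h1, h2, h3⟩ := h
  exact ⟨f, h1, h2.trans hg, h3⟩
lemma Rep0.unit (c : ℕ) {s : ℕ} (hs : s < 39) : Rep0 w (c * BB ^ s) c (c * w s) :=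
  ⟨fun t => if t = s then c else 0, (SS_unit c hs).symm, (S1_unit c hs).le, (SW_unit w c hs).symm⟩
lemma Rep0.zero (g : ℕ) : Rep0 w 0 g 0 := by
  have := Rep0.unit (w := w) 0 (s := 0) (by norm_num)
  rw [zero_mul, Nat.cast_zero, zero_mul] at this
  exact this.mono (Nat.zero_le _)

/-- The real number a form stands for. -/
def Val (w : ℕ → ℝ) (F : Fm) (r : ℝ) : Prop :=
  ∃ rp rn, Rep0 w F.p F.g rp ∧ Rep0 w F.n F.g rn ∧ r = rp - rn

lemma Val.add {F G : Fm} {r s : ℝ} (h : Val w F r) (h' : Val w G s) : Val w (F.add G) (r + s) := by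
  obtain ⟨a, b, h1, h2, rfl⟩ := h
  obtain ⟨c, d, h3, h4, rfl⟩ := h'
  exact ⟨a + c, b + d, h1.add h3, h2.add h4, by ring⟩
lemma Val.sub {F G : Fm} {r s : ℝ} (h : Val w F r) (h' : Val w G s) : Val w (F.sub G) (r - s) := by
  obtain ⟨a, b, h1, h2, rfl⟩ := h
  obtain ⟨c, d, h3, h4, rfl⟩ := h'
  exact ⟨a + d, b + c, h1.add h4, h2.add h3, by ring⟩
lemma Val.sm {F : Fm} {r : ℝ} (c : ℕ) (h : Val w F r) : Val w (F.sm c) (c * r) := by
  obtain ⟨a, b, h1, h2, rfl⟩ := h
  exact ⟨c * a, c * b, h1.sm c, h2.sm c, by ring⟩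

/-- First coordinates of the free vertices. -/
def xs (σ : ℕ → Pt) (a : ℕ) : ℝ := if a = 0 then 1 else (σ (a + 2)).1
/-- Second coordinates of the free vertices. -/
def ys (σ : ℕ → Pt) (a : ℕ) : ℝ := if a = 0 then 1 else (σ (a + 2)).2
/-- The weights of the slots. -/
def wt (σ : ℕ → Pt) (val : ℕ → ℝ) (s : ℕ) : ℝ :=
  if s < 16 then xs σ (s / 4) * ys σ (s % 4) else val (s - 16)

variable {σ : ℕ → Pt} {val : ℕ → ℝ}

lemma val_cst (c : ℕ) : Val (wt σ val) (cst c) c := by
  refine ⟨c, 0, ?_, Rep0.zero _, by ring⟩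
  have := Rep0.unit (w := wt σ val) c (s := 0) (by norm_num)
  simpa [wt, xs, ys, cst] using this
lemma val_var {v : ℕ} (h : v < 23) : Val (wt σ val) (var v) (val v) := by
  refine ⟨val v, 0, ?_, Rep0.zero _, by ring⟩
  have := Rep0.unit (w := wt σ val) 1 (s := v + 16) (by omega)
  rw [one_mul, ← shl_eq] at this
  have e : wt σ val (v + 16) = val v := by simp [wt]
  rw [e, Nat.cast_one, one_mul] at this
  unfold var
  dsimp only
  rw [Nat.mul_eq, Nat.add_eq]
  exact this

/-- The three fixed vertices. -/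
def Fix (σ : ℕ → Pt) : Prop := σ 0 = (1024, 1024) ∧ σ 1 = (2048, 1024) ∧ σ 2 = (1024, 2048)

lemma xu_spec (h : Fix σ) {i : ℕ} (hi : i < 6) :
    ∃ c a : ℕ, c ≤ 2048 ∧ a < 4 ∧ xu i = c * BB ^ (4 * a) ∧ (σ i).1 = c * xs σ a := by
  obtain ⟨h0, h1, h2⟩ := h
  interval_cases i
  · exact ⟨1024, 0, by norm_num, by norm_num, by decide +kernel, by simp [h0, xs]⟩
  · exact ⟨2048, 0, by norm_num, by norm_num, by decide +kernel, by simp [h1, xs]⟩
  · exact ⟨1024, 0, by norm_num, by norm_num, by decide +kernel, by simp [h2, xs]⟩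
  · exact ⟨1, 1, by norm_num, by norm_num, by decide +kernel, by simp [xs]⟩
  · exact ⟨1, 2, by norm_num, by norm_num, by decide +kernel, by simp [xs]⟩
  · exact ⟨1, 3, by norm_num, by norm_num, by decide +kernel, by simp [xs]⟩
lemma yu_spec (h : Fix σ) {i : ℕ} (hi : i < 6) :
    ∃ c a : ℕ, c ≤ 2048 ∧ a < 4 ∧ yu i = c * BB ^ a ∧ (σ i).2 = c * ys σ a := by
  obtain ⟨h0, h1, h2⟩ := h
  interval_cases i
  · exact ⟨1024, 0, by norm_num, by norm_num, by decide +kernel, by simp [h0, ys]⟩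
  · exact ⟨1024, 0, by norm_num, by norm_num, by decide +kernel, by simp [h1, ys]⟩
  · exact ⟨2048, 0, by norm_num, by norm_num, by decide +kernel, by simp [h2, ys]⟩
  · exact ⟨1, 1, by norm_num, by norm_num, by decide +kernel, by simp [ys]⟩
  · exact ⟨1, 2, by norm_num, by norm_num, by decide +kernel, by simp [ys]⟩
  · exact ⟨1, 3, by norm_num, by norm_num, by decide +kernel, by simp [ys]⟩

lemma rep_mon (h : Fix σ) {i j : ℕ} (hi : i < 6) (hj : j < 6) :
    Rep0 (wt σ val) (mon i j) 4194304 ((σ i).1 * (σ j).2) := by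
  obtain ⟨c, a, hc, ha, e1, e2⟩ := xu_spec h hi
  obtain ⟨d, b, hd, hb, e3, e4⟩ := yu_spec h hj
  have := Rep0.unit (w := wt σ val) (c * d) (s := 4 * a + b) (by omega)
  have e5 : mon i j = c * d * BB ^ (4 * a + b) := by
    change xu i * yu j = _
    rw [e1, e3, pow_add]; ring
  have e6 : wt σ val (4 * a + b) = xs σ a * ys σ b := by
    unfold wt
    rw [if_pos (by omega), show (4 * a + b) / 4 = a by omega, show (4 * a + b) % 4 = b by omega]
  rw [e5, e2, e4]
  rw [e6] at this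
  have e7 : (c : ℝ) * xs σ a * (d * ys σ b) = ((c * d : ℕ) : ℝ) * (xs σ a * ys σ b) := by
    push_cast; ring
  rw [e7]
  exact this.mono (le_trans (Nat.mul_le_mul hc hd) (by norm_num))

lemma val_det (h : Fix σ) {i j l : ℕ} (hi : i < 6) (hj : j < 6) (hl : l < 6) :
    Val (wt σ val) (detF i j l) (det (σ i) (σ j) (σ l)) :=
  ⟨_, _, ((rep_mon h hi hj).add (rep_mon h hj hl)).add (rep_mon h hl hi),
    ((rep_mon h hj hi).add (rep_mon h hl hj)).add (rep_mon h hi hl), by unfold det; ring⟩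

lemma val_cr (h : Fix σ) {p q i z : ℕ} (hp : p < 6) (hq : q < 6) (hi : i < 6) (hz : z < 6) :
    Val (wt σ val) (crF p q i z) (cr (σ p) (σ q) (σ i) (σ z)) :=
  ⟨_, _, (((rep_mon h hq hz).add (rep_mon h hp hi)).add (rep_mon h hi hq)).add (rep_mon h hz hp),
    (((rep_mon h hq hi).add (rep_mon h hp hz)).add (rep_mon h hz hq)).add (rep_mon h hi hp),
    by unfold cr; ring⟩

end Pool.Agent.MP_b1b11b_co
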