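import Mathlib.Data.Nat.Cast.Order.Field
import Pool.Agent.MP_b1b11b_co.Rep
import Pool.Agent.MP_b1b11b_co.Count

-- ======== part 0: formerly Pool.Agent.MP_b1b11b_co.Final
section MrgPart0

/-! Soundness of the bound computed at a leaf, and of the interval bounds. -/

namespace Pool.Agent.MP_b1b11b_co

open Finset

attribute [local irreducible] BB

/-- The point lies in the box. -/
def InB (V : Vx) (P : Pt) : Prop := (V.x0 : ℝ) ≤ P.1 ∧ P.1 ≤ V.x1 ∧ (V.y0 : ℝ) ≤ P.2 ∧ P.2 ≤ V.y1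

lemma tsub_bound (a b lo hi : ℕ) {x : ℝ} (h1 : (lo : ℝ) ≤ x) (h2 : x ≤ hi) :
    ((a : ℝ) - b) * x ≤ ((a - b) * hi : ℕ) - ((b - a) * lo : ℕ) := by
  rcases le_total a b with h | h
  · rw [Nat.sub_eq_zero_of_le h]
    push_cast [Nat.cast_sub h]
    have : (a : ℝ) ≤ b := by exact_mod_cast h
    nlinarith
  · rw [Nat.sub_eq_zero_of_le h]
    push_cast [Nat.cast_sub h]
    have : (b : ℝ) ≤ a := by exact_mod_cast h
    nlinarith

lemma SS_head {f : ℕ → ℕ} (n : ℕ) (h : f 0 < BB) : (SS f (1 + n)).mod BB = f 0 := by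
  have := SS_mod (f := f) 1 n (fun s hs => by rwa [show s = 0 by omega])
  rw [pow_one, SS_one] at this
  exact this
lemma SS_tail {f : ℕ → ℕ} (n : ℕ) (h : f 0 < BB) :
    (SS f (1 + n)).shiftRight 128 = SS (fun s => f (1 + s)) n := by
  have := SS_div (f := f) 1 n (fun s hs => by rwa [show s = 0 by omega])
  rw [← this, ← shr_eq]

lemma varB_cons (a : Rg) (r : List Rg) (P N u v : ℕ) : varB (a :: r) P N u v =
    varB r (P.shiftRight 128) (N.shiftRight 128) (u + ((P.mod BB) - (N.mod BB)) * a.hi)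
      (v + ((N.mod BB) - (P.mod BB)) * a.lo) := rfl

lemma varB_spec (r : List Rg) : ∀ (n : ℕ) (f g : ℕ → ℕ) (w : ℕ → ℝ) (u v : ℕ), r.length ≤ n →
    (∀ s < n, f s < BB) → (∀ s < n, g s < BB) →
    (∀ i < r.length, ((nth dR r i).lo : ℝ) ≤ w i ∧ w i ≤ (nth dR r i).hi) →
    (∀ i, r.length ≤ i → w i = 0) →
    SW w f n - SW w g n + u - v ≤
      ((varB r (SS f n) (SS g n) u v).1 : ℝ) - (varB r (SS f n) (SS g n) u v).2 := by
  induction r with
  | nil =>
    intro n f g w u v _ _ _ _ h0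
    rw [SW_zero w f n fun s => h0 s (Nat.zero_le _), SW_zero w g n fun s => h0 s (Nat.zero_le _)]
    change _ ≤ ((u : ℕ) : ℝ) - (v : ℕ)
    linarith
  | cons a r ih =>
    intro n f g w u v hn hf hg hw h0
    obtain ⟨n, rfl⟩ : ∃ m, n = 1 + m := ⟨n - 1, by simp at hn; omega⟩
    rw [varB_cons, SS_head n (hf 0 (by omega)), SS_head n (hg 0 (by omega)),
      SS_tail n (hf 0 (by omega)), SS_tail n (hg 0 (by omega)), SW_add, SW_add, SW_one, SW_one]
    have := ih n (fun s => f (1 + s)) (fun s => g (1 + s)) (fun s => w (1 + s))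
      (u + (f 0 - g 0) * a.hi) (v + (g 0 - f 0) * a.lo) (by simp at hn; omega)
      (fun s hs => hf _ (by omega)) (fun s hs => hg _ (by omega))
      (fun i hi => by
        have := hw (i + 1) (by simpa using hi)
        rw [nth_succ] at this
        rwa [add_comm 1 i])
      (fun i hi => h0 _ (by simp; omega))
    have h1 := hw 0 (by simp)
    rw [nth_zero] at h1
    have h2 := tsub_bound (f 0) (g 0) a.lo a.hi h1.1 h1.2
    rw [Nat.cast_add, Nat.cast_add] at this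
    linarith

lemma dig_spec {f : ℕ → ℕ} (h : ∀ s < 4, f s < BB) :
    (SS f 4).mod BB = f 0 ∧ dig (SS f 4) 128 = f 1 ∧ dig (SS f 4) 256 = f 2 ∧
      dig (SS f 4) 384 = f 3 := by
  refine ⟨SS_head 3 (h 0 (by omega)), ?_, ?_, ?_⟩
  · have := SS_div (f := f) 1 3 (fun s hs => h s (by omega))
    rw [← shr_eq] at this
    unfold dig
    rw [show (SS f 4).shiftRight 128 = _ from this]
    exact SS_head 2 (h 1 (by omega))
  · have := SS_div (f := f) 2 2 (fun s hs => h s (by omega))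
    rw [← shr_eq] at this
    unfold dig
    rw [show (SS f 4).shiftRight 256 = _ from this]
    exact SS_head 1 (h 2 (by omega))
  · have := SS_div (f := f) 3 1 (fun s hs => h s (by omega))
    rw [← shr_eq] at this
    unfold dig
    rw [show (SS f 4).shiftRight 384 = _ from this]
    exact SS_head 0 (h 3 (by omega))

variable {σ : ℕ → Pt} {val : ℕ → ℝ}

lemma corner_spec {A B C : Vx} (hA : InB A (σ 3)) (hB : InB B (σ 4)) (hC : InB C (σ 5))
    {u v : ℕ} {a b : ℕ → ℕ} (ha : ∀ s < 4, a s < BB) (hb : ∀ s < 4, b s < BB)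
    (h : corner A B C u v (SS a 4) (SS b 4) = true) :
    SW (ys σ) a 4 - SW (ys σ) b 4 + ((u : ℝ) - v) ≤ 0 := by
  obtain ⟨a0, a1, a2, a3⟩ := dig_spec ha
  obtain ⟨b0, b1, b2, b3⟩ := dig_spec hb
  unfold corner at h
  rw [a0, a1, a2, a3, b0, b1, b2, b3, Nat.ble_eq] at h
  have h' : u + a 0 + (a 1 - b 1) * A.y1 + (a 2 - b 2) * B.y1 + (a 3 - b 3) * C.y1 ≤
      v + b 0 + (b 1 - a 1) * A.y0 + (b 2 - a 2) * B.y0 + (b 3 - a 3) * C.y0 := h
  have h'' := (Nat.cast_le (α := ℝ)).2 h'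
  simp only [Nat.cast_add] at h''
  have t1 := tsub_bound (a 1) (b 1) A.y0 A.y1 hA.2.2.1 hA.2.2.2
  have t2 := tsub_bound (a 2) (b 2) B.y0 B.y1 hB.2.2.1 hB.2.2.2
  have t3 := tsub_bound (a 3) (b 3) C.y0 C.y1 hC.2.2.1 hC.2.2.2
  rw [SW_four, SW_four]
  simp only [ys, if_true, OfNat.ofNat_ne_zero, one_ne_zero, if_false]
  linarith

lemma two_spec {V : Vx} {x R : ℝ} {y : ℕ → ℝ} {k : ℕ → ℕ → Bool} {L G : ℕ}
    (hx0 : (V.x0 : ℝ) ≤ x) (hx1 : x ≤ V.x1) (hV : V.x1 ≤ 2048)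
    (hk : ∀ a b : ℕ → ℕ, (∀ s < 4, a s ≤ L + 2048 * G) → (∀ s < 4, b s ≤ L + 2048 * G) →
      k (SS a 4) (SS b 4) = true → SW y a 4 - SW y b 4 + R ≤ 0)
    {ra rb : ℕ → ℕ} (hra : ∀ s < 4, ra s ≤ G) (hrb : ∀ s < 4, rb s ≤ G)
    (a b : ℕ → ℕ) (ha : ∀ s < 4, a s ≤ L) (hb : ∀ s < 4, b s ≤ L)
    (h : two V (SS ra 4) (SS rb 4) (SS a 4) (SS b 4) k = true) :
    SW y a 4 - SW y b 4 + (x * (SW y ra 4 - SW y rb 4) + R) ≤ 0 := by
  have key : ∀ c : ℕ, c ≤ 2048 → k ((SS a 4).add (c.mul (SS ra 4))) ((SS b 4).add (c.mul (SS rb 4)))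
      = true → SW y a 4 - SW y b 4 + (c * (SW y ra 4 - SW y rb 4) + R) ≤ 0 := by
    intro c hc h
    rw [Nat.add_eq, Nat.add_eq, Nat.mul_eq, Nat.mul_eq, ← SS_sm, ← SS_sm, ← SS_plus, ← SS_plus] at h
    have := hk _ _ (fun s hs => Nat.add_le_add (ha s hs) (Nat.mul_le_mul hc (hra s hs)))
      (fun s hs => Nat.add_le_add (hb s hs) (Nat.mul_le_mul hc (hrb s hs))) h
    rw [SW_plus, SW_plus, SW_sm, SW_sm] at this
    linarith
  unfold two at h
  rw [band_eq, bor_eq] at h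
  have h01 : V.x0 ≤ V.x1 := by exact_mod_cast hx0.trans hx1
  have k0 := key V.x0 (h01.trans hV) h.1
  rcases h.2 with e | e
  · have e' : (V.x0 : ℝ) = V.x1 := by exact_mod_cast Nat.eq_of_beq_eq_true e
    have : x = V.x0 := le_antisymm (by linarith) hx0
    rw [this]; exact k0
  · have k1 := key V.x1 hV e
    rcases le_total 0 (SW y ra 4 - SW y rb 4) with s | s
    · have := mul_le_mul_of_nonneg_right hx1 s
      linarith
    · have := mul_le_mul_of_nonpos_right hx0 s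
      linarith

lemma row_spec {f : ℕ → ℕ} (h : ∀ s < 39, f s < BB) (i : ℕ) (hi : i ≤ 3) :
    row (SS f 39) (128 * (4 * i)) = SS (fun s => f (4 * i + s)) 4 := by
  unfold row
  have e1 := SS_div (f := f) (4 * i) (39 - 4 * i) (fun s hs => h s (by omega))
  rw [show 4 * i + (39 - 4 * i) = 39 by omega, ← shr_eq] at e1
  have e2 := SS_mod (f := fun s => f (4 * i + s)) 4 (35 - 4 * i) (fun s hs => h _ (by omega))
  rw [show 4 + (35 - 4 * i) = 39 - 4 * i by omega, ← shl_eq] at e2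
  rw [e1]
  exact e2

lemma SW_wt (f : ℕ → ℕ) : SW (wt σ val) f 39 =
    SW (ys σ) (fun s => f (4 * 0 + s)) 4 + (σ 3).1 * SW (ys σ) (fun s => f (4 * 1 + s)) 4 +
      (σ 4).1 * SW (ys σ) (fun s => f (4 * 2 + s)) 4 +
      (σ 5).1 * SW (ys σ) (fun s => f (4 * 3 + s)) 4 + SW val (fun s => f (16 + s)) 23 := by
  rw [show 39 = 4 + (4 + (4 + (4 + 23))) by norm_num, SW_add, SW_add, SW_add, SW_add]
  have e : (fun s => wt σ val (4 + (4 + (4 + (4 + s))))) = val := by
    funext s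
    unfold wt
    rw [if_neg (by omega), show 4 + (4 + (4 + (4 + s))) - 16 = s by omega]
  have e2 : (fun s => f (4 + (4 + (4 + (4 + s))))) = fun s => f (16 + s) := by
    funext s; congr 1; omega
  rw [e, e2]
  simp only [SW_four]
  norm_num [wt, xs]
  ring

lemma final_spec {vs : List Vx} {rg : List Rg} {F : Fm} {s : ℕ} {r : ℝ}
    (hA : InB (nth dV vs 3) (σ 3)) (hB : InB (nth dV vs 4) (σ 4)) (hC : InB (nth dV vs 5) (σ 5))
    (hl : rg.length ≤ 23)
    (hw : ∀ i < rg.length, ((nth dR rg i).lo : ℝ) ≤ val i ∧ val i ≤ (nth dR rg i).hi)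
    (h0 : ∀ i, rg.length ≤ i → val i = 0) (hF : Val (wt σ val) F r) (hr : 0 ≤ r)
    (hs : s ≠ 0 → 0 < r) (h : final vs rg F s = true) : False := by
  obtain ⟨rp, rn, ⟨f, f1, f2, f3⟩, ⟨g, g1, g2, g3⟩, er⟩ := hF
  unfold final final1 at h
  simp only [band_eq, Nat.ble_eq] at h
  obtain ⟨⟨hg, a1, b1, c1⟩, h⟩ := h
  have hG : F.g ≤ 2 ^ 114 := hg.trans (le_of_eq (Nat.one_shiftLeft _))
  have fb : ∀ s < 39, f s ≤ 2 ^ 114 := fun s hs => (le_S1 f hs).trans (f2.trans hG)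
  have gb : ∀ s < 39, g s ≤ 2 ^ 114 := fun s hs => (le_S1 g hs).trans (g2.trans hG)
  have lB : 2 ^ 114 < BB := by rw [BB_eq]; norm_num
  have fb' : ∀ s < 39, f s < BB := fun s hs => (fb s hs).trans_lt lB
  have gb' : ∀ s < 39, g s < BB := fun s hs => (gb s hs).trans_lt lB
  have ef : F.p.shiftRight 2048 = SS (fun s => f (16 + s)) 23 := by
    have := SS_div (f := f) 16 23 (fun s hs => fb' s (by omega))
    rw [← shr_eq] at this
    rw [f1]; exact this
  have eg : F.n.shiftRight 2048 = SS (fun s => g (16 + s)) 23 := by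
    have := SS_div (f := g) 16 23 (fun s hs => gb' s (by omega))
    rw [← shr_eq] at this
    rw [g1]; exact this
  rw [ef, eg] at h
  have hv := varB_spec rg 23 (fun s => f (16 + s)) (fun s => g (16 + s)) val
    (iff (Nat.beq s 0) 1 0) 0 hl (fun s hs => fb' _ (by omega)) (fun s hs => gb' _ (by omega)) hw h0
  generalize varB rg (SS (fun s => f (16 + s)) 23) (SS (fun s => g (16 + s)) 23)
    (iff (Nat.beq s 0) 1 0) 0 = uv at h hv
  unfold final2 at h
  rw [f1, g1] at h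
  rw [show row (SS f 39) 0 = _ from row_spec fb' 0 (by norm_num),
    show row (SS f 39) 512 = _ from row_spec fb' 1 (by norm_num),
    show row (SS f 39) 1024 = _ from row_spec fb' 2 (by norm_num),
    show row (SS f 39) 1536 = _ from row_spec fb' 3 (by norm_num),
    show row (SS g 39) 0 = _ from row_spec gb' 0 (by norm_num),
    show row (SS g 39) 512 = _ from row_spec gb' 1 (by norm_num),
    show row (SS g 39) 1024 = _ from row_spec gb' 2 (by norm_num),
    show row (SS g 39) 1536 = _ from row_spec gb' 3 (by norm_num)] at h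
  have lB2 : 2 ^ 114 + 2048 * 2 ^ 114 + 2048 * 2 ^ 114 + 2048 * 2 ^ 114 < BB := by
    rw [BB_eq]; norm_num
  have := two_spec (y := ys σ) (L := 2 ^ 114) (G := 2 ^ 114) hA.1 hA.2.1 a1
    (two_spec (L := 2 ^ 114 + 2048 * 2 ^ 114) (G := 2 ^ 114) hB.1 hB.2.1 b1
      (two_spec (L := 2 ^ 114 + 2048 * 2 ^ 114 + 2048 * 2 ^ 114) (G := 2 ^ 114) hC.1 hC.2.1 c1
        (fun a b ha hb h => corner_spec hA hB hC (fun s hs => (ha s hs).trans_lt lB2)
          (fun s hs => (hb s hs).trans_lt lB2) h)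
        (fun s hs => fb _ (by omega)) (fun s hs => gb _ (by omega)))
      (fun s hs => fb _ (by omega)) (fun s hs => gb _ (by omega)))
    (fun s hs => fb _ (by omega)) (fun s hs => gb _ (by omega)) _ _
    (fun s hs => fb _ (by omega)) (fun s hs => gb _ (by omega)) h
  rw [SW_wt] at f3 g3
  by_cases e : s = 0
  · subst e
    have : iff (Nat.beq 0 0) 1 0 = 1 := rfl
    rw [this] at hv
    push_cast at hv
    linarith
  · have := hs e
    have : (0 : ℝ) ≤ (iff (Nat.beq s 0) 1 0 : ℕ) := Nat.cast_nonneg _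
    push_cast at hv
    linarith

lemma dst_cast (a b : ℕ) : ((dst a b : ℕ) : ℝ) = |(a : ℝ) - b| := by
  change (((a - b) + (b - a) : ℕ) : ℝ) = _
  rcases le_total a b with h | h
  · have : (a : ℝ) ≤ b := by exact_mod_cast h
    rw [Nat.sub_eq_zero_of_le h, zero_add, Nat.cast_sub h, abs_of_nonpos (by linarith)]; ring
  · have : (b : ℝ) ≤ a := by exact_mod_cast h
    rw [Nat.sub_eq_zero_of_le h, add_zero, Nat.cast_sub h, abs_of_nonneg (by linarith)]

lemma InB.x {V : Vx} {P : Pt} (h : InB V P) : |2 * P.1 - V.sx| ≤ V.dx := by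
  obtain ⟨h1, h2, -, -⟩ := h
  have h01 : V.x0 ≤ V.x1 := by exact_mod_cast h1.trans h2
  change |2 * P.1 - ((V.x0 + V.x1 : ℕ) : ℝ)| ≤ ((V.x1 - V.x0 : ℕ) : ℝ)
  rw [Nat.cast_add, Nat.cast_sub h01, abs_le]
  constructor <;> linarith
lemma InB.y {V : Vx} {P : Pt} (h : InB V P) : |2 * P.2 - V.sy| ≤ V.dy := by
  obtain ⟨-, -, h1, h2⟩ := h
  have h01 : V.y0 ≤ V.y1 := by exact_mod_cast h1.trans h2
  change |2 * P.2 - ((V.y0 + V.y1 : ℕ) : ℝ)| ≤ ((V.y1 - V.y0 : ℕ) : ℝ)
  rw [Nat.cast_add, Nat.cast_sub h01, abs_le]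
  constructor <;> linarith

lemma prod_err {a b ca cb ra rb : ℝ} (ha : |a - ca| ≤ ra) (hb : |b - cb| ≤ rb) :
    |a * b - ca * cb| ≤ |ca| * rb + |cb| * ra + ra * rb := by
  have e : a * b - ca * cb = ca * (b - cb) + cb * (a - ca) + (a - ca) * (b - cb) := by ring
  rw [e]
  refine (abs_add_three _ _ _).trans ?_
  rw [abs_mul, abs_mul, abs_mul]
  have := mul_le_mul_of_nonneg_left hb (abs_nonneg ca)
  have := mul_le_mul_of_nonneg_left ha (abs_nonneg cb)
  have := mul_le_mul ha hb (abs_nonneg _) ((abs_nonneg _).trans ha)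
  linarith

lemma diff_err {a b ca cb ra rb : ℝ} (ha : |a - ca| ≤ ra) (hb : |b - cb| ≤ rb) :
    |(a - b) - (ca - cb)| ≤ ra + rb := by
  rw [abs_le] at *
  constructor <;> linarith [ha.1, ha.2, hb.1, hb.2]

lemma iv_err {P Q V Z : Vx} {p q v z : Pt} (hP : InB P p) (hQ : InB Q q) (hV : InB V v)
    (hZ : InB Z z) : |4 * cr p q v z - ((ivp P Q V Z : ℝ) - ivn P Q V Z)| ≤ ivr P Q V Z := by
  have t1 := prod_err (diff_err hQ.x hP.x) (diff_err hZ.y hV.y)
  have t2 := prod_err (diff_err hQ.y hP.y) (diff_err hZ.x hV.x)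
  have := diff_err t1 t2
  simp only [ivp, ivn, ivr, rad, Nat.add_eq, Nat.mul_eq, Nat.cast_add, Nat.cast_mul, dst_cast]
  refine le_trans (le_of_eq ?_) this
  congr 1
  unfold cr
  ring

lemma ivl_spec {P Q V Z : Vx} {p q v z : Pt} (hP : InB P p) (hQ : InB Q q) (hV : InB V v)
    (hZ : InB Z z) : ivl P Q V Z = 0 ∨ (ivl P Q V Z : ℝ) ≤ cr p q v z := by
  have h := (abs_le.1 (iv_err hP hQ hV hZ)).1
  change (ivp P Q V Z - (ivn P Q V Z + ivr P Q V Z)) / 4 = 0 ∨
    (((ivp P Q V Z - (ivn P Q V Z + ivr P Q V Z)) / 4 : ℕ) : ℝ) ≤ _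
  rcases le_total (ivp P Q V Z) (ivn P Q V Z + ivr P Q V Z) with c | c
  · left; rw [Nat.sub_eq_zero_of_le c]
  · right
    refine Nat.cast_div_le.trans ?_
    rw [Nat.cast_sub c, Nat.cast_add, div_le_iff₀ (by norm_num)]
    push_cast
    linarith

lemma ivh_spec {P Q V Z : Vx} {p q v z : Pt} (hP : InB P p) (hQ : InB Q q) (hV : InB V v)
    (hZ : InB Z z) : cr p q v z ≤ (ivh P Q V Z : ℝ) := by
  have h := (abs_le.1 (iv_err hP hQ hV hZ)).2
  change _ ≤ (((ivp P Q V Z + ivr P Q V Z - ivn P Q V Z + 3) / 4 : ℕ) : ℝ)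
  have h1 : ivp P Q V Z + ivr P Q V Z ≤
      ivn P Q V Z + 4 * ((ivp P Q V Z + ivr P Q V Z - ivn P Q V Z + 3) / 4) := by omega
  have h2 := (Nat.cast_le (α := ℝ)).2 h1
  rw [Nat.cast_add, Nat.cast_add, Nat.cast_mul] at h2
  norm_num at h2 ⊢
  linarith

end Pool.Agent.MP_b1b11b_co

end MrgPart0

-- ======== part 1: formerly Pool.Agent.MP_b1b11b_co.Region
section MrgPart1

/-! Bounds for the number of points on and beyond a chord. -/

namespace Pool.Agent.MP_b1b11b_co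

open Finset

variable {X : Finset Pt} {κ : ℝ}

lemma Un.pos (hU : Un X κ) {P Q R : Pt} (hP : P ∈ X) (hQ : Q ∈ X) (hR : R ∈ X)
    (h : 0 < det P Q R) : 0 < κ := by
  have := hU P hP Q hQ R hR h
  by_contra hc
  have := mul_nonpos_of_nonpos_of_nonneg (not_lt.1 hc) h.le
  linarith

/-- Points on a chord between exposed points, seen from any other point. -/
lemma seg_lt (hU : Un X κ) {P Q Z : Pt} (hP : Ex X P) (hQ : Ex X Q) (hZ : Z ∈ X)
    (h : 0 < det P Q Z) : (nC X P Q : ℝ) - 1 < κ * det P Q Z := by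
  have h1 := cnt_lt hU hP.1 hQ.1 hZ h
  have h2 : nC X P Q + 1 ≤ nCl X P Q Z := by
    rw [nC_eq, nCl_eq, ← one_eq hZ, ← sum_add_distrib]
    refine sum_le_sum fun W hW => ?_
    by_cases e : W = Z
    · subst e
      rw [ind_neg h.ne', ind_pos rfl, ind_pos ⟨h.le, by simp, by simp⟩]
    rw [ind_neg e]
    by_cases c : det P Q W = 0
    · rw [ind_pos c, ind_pos]
      refine ⟨c.ge, ?_, ?_⟩
      · by_cases e2 : W = Q
        · subst e2; simp
        · exact (hQ.next hP.1 hZ hW h e2 c.le).le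
      · by_cases e2 : W = P
        · subst e2; simp
        · exact (hP.prev hQ.1 hZ hW h e2 c.le).le
    · rw [ind_neg c]; omega
  have h3 : ((nC X P Q + 1 : ℕ) : ℝ) ≤ nCl X P Q Z := by exact_mod_cast h2
  have h4 : (0 : ℝ) ≤ nOp X P Q Z := Nat.cast_nonneg _
  push_cast at h3
  linarith

lemma ear_lt (hU : Un X κ) {P Q R : Pt} (hP : Ex X P) (hQ : Ex X Q) (hR : Ex X R)
    (h : 0 < det P Q R) :
    (nC X P Q : ℝ) + nC X Q R + nC X R P - 5 < κ * det P Q R := by
  have h1 := cnt_lt hU hP.1 hQ.1 hR.1 h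
  have h3 : ((nC X P Q + nC X Q R + nC X R P : ℕ) : ℝ) ≤ (nCl X P Q R + 3 : ℕ) := by
    exact_mod_cast cnt_lo hP hQ hR h
  have h4 : (0 : ℝ) ≤ nOp X P Q R := Nat.cast_nonneg _
  push_cast at h3
  linarith

lemma nN_pos_iff {P Q : Pt} : 0 < nN X P Q ↔ ∃ Z ∈ X, det P Q Z < 0 := by
  classical
  unfold nN
  rw [card_pos]
  constructor
  · rintro ⟨Z, hZ⟩
    exact ⟨Z, (mem_filter.1 hZ).1, (mem_filter.1 hZ).2⟩
  · rintro ⟨Z, h1, h2⟩
    exact ⟨Z, mem_filter.2 ⟨h1, h2⟩⟩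

lemma beyond_left {P D Q Z : Pt} (hP : Ex X P) (hD : D ∈ X) (hQ : Q ∈ X) (hZ : Z ∈ X)
    (h : 0 < det P D Q) (h1 : det P D Z < 0) : det P Q Z < 0 := by
  have := hP.prev hD hQ hZ h (by rintro rfl; simp at h1) h1.le
  rw [det_swap]; linarith

lemma beyond_right {P D Q Z : Pt} (hP : P ∈ X) (hD : D ∈ X) (hQ : Ex X Q) (hZ : Z ∈ X)
    (h : 0 < det P D Q) (h1 : det D Q Z < 0) : det P Q Z < 0 := by
  have := hQ.next hD hP hZ (by rwa [← det_cyc]) (by rintro rfl; simp at h1) h1.le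
  rw [det_swap]; linarith

lemma nN_left_lt {P D Q : Pt} (hP : Ex X P) (hD : D ∈ X) (hQ : Q ∈ X) (h : 0 < det P D Q) :
    nN X P D < nN X P Q := by
  classical
  unfold nN
  apply card_lt_card
  rw [ssubset_iff_of_subset]
  · refine ⟨D, mem_filter.2 ⟨hD, by rw [det_swap']; linarith⟩, by simp⟩
  · intro Z hZ
    rw [mem_filter] at hZ ⊢
    exact ⟨hZ.1, beyond_left hP hD hQ hZ.1 h hZ.2⟩

lemma nN_right_lt {P D Q : Pt} (hP : P ∈ X) (hD : D ∈ X) (hQ : Ex X Q) (h : 0 < det P D Q) :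
    nN X D Q < nN X P Q := by
  classical
  unfold nN
  apply card_lt_card
  rw [ssubset_iff_of_subset]
  · refine ⟨D, mem_filter.2 ⟨hD, by rw [det_swap']; linarith⟩, by simp⟩
  · intro Z hZ
    rw [mem_filter] at hZ ⊢
    exact ⟨hZ.1, beyond_right hP hD hQ hZ.1 h hZ.2⟩

/-- Positivity of the two angles at a chord with a point beyond it. -/
lemma ab_pos {P Q U1 U2 V1 V2 D : Pt} (h1 : 0 ≤ cr U1 U2 P D) (h2 : 0 ≤ cr V1 V2 Q D)
    (ha : 0 ≤ cr U1 U2 P Q) (hb : 0 ≤ cr V1 V2 Q P) (hc : 0 < cr U1 U2 V1 V2)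
    (hd : 0 < det P D Q) : 0 < cr U1 U2 P Q ∧ 0 < cr V1 V2 Q P := by
  have e : cr U1 U2 P D * cr V1 V2 Q P + cr V1 V2 Q D * cr U1 U2 P Q =
      cr U1 U2 P Q * cr V1 V2 Q P - det P D Q * cr U1 U2 V1 V2 := by
    unfold cr det; ring
  have := mul_nonneg h1 hb
  have := mul_nonneg h2 ha
  have := mul_pos hd hc
  have hab : 0 < cr U1 U2 P Q * cr V1 V2 Q P := by linarith
  constructor
  · rcases ha.eq_or_lt with h | h
    · rw [← h] at hab; simp at hab
    · exact h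
  · rcases hb.eq_or_lt with h | h
    · rw [← h] at hab; simp at hab
    · exact h

lemma region_aux (hU : Un X κ) (n : ℕ) : ∀ P Q U1 U2 V1 V2 : Pt, Ex X P → Ex X Q →
    (∀ Z ∈ X, det P Q Z < 0 → 0 ≤ cr U1 U2 P Z ∧ 0 ≤ cr V1 V2 Q Z) →
    0 ≤ cr U1 U2 P Q → 0 ≤ cr V1 V2 Q P → 0 < cr U1 U2 V1 V2 → 0 < nN X P Q → nN X P Q ≤ n →
    ((nN X P Q : ℝ) + nC X P Q - 2) * cr U1 U2 V1 V2 < κ * (cr U1 U2 P Q * cr V1 V2 Q P) := by
  induction n with
  | zero => intro P Q U1 U2 V1 V2 _ _ _ _ _ _ h1 h2; omega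
  | succ n ih =>
    intro P Q U1 U2 V1 V2 hP hQ hs ha hb hc hN hn
    obtain ⟨Z0, hZ0, hZ0'⟩ := nN_pos_iff.1 hN
    have hPQ : P ≠ Q := by rintro rfl; simp at hZ0'
    obtain ⟨D, hD, hmin⟩ := exists_deepest X ⟨Z0, hZ0⟩ hPQ
    have hD' : det P Q D < 0 := lt_of_le_of_lt (hmin Z0 hZ0) hZ0'
    have hd : 0 < det P D Q := by rw [det_swap']; linarith
    obtain ⟨d1, d2⟩ := hs D hD.1 hD'
    obtain ⟨ha', hb'⟩ := ab_pos d1 d2 ha hb hc hd
    have hκ := hU.pos hP.1 hD.1 hQ.1 hd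
    have e1 : cr P Q D P = det P D Q := by unfold cr det; ring
    have e2 : cr P Q D Q = det P D Q := by unfold cr det; ring
    have e3 : cr P Q V1 V2 = cr V1 V2 Q P := by unfold cr; ring
    have sD : ∀ Z ∈ X, 0 ≤ cr P Q D Z := by
      intro Z hZ
      have := hmin Z hZ
      have e : cr P Q D Z = det P Q Z - det P Q D := by unfold cr det; ring
      linarith
    have hL : (nN X P D : ℝ) * cr U1 U2 P Q ≤ κ * (cr U1 U2 P D * det P D Q) := by
      rcases (nN X P D).eq_zero_or_pos with z | z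
      · rw [z]; simp only [Nat.cast_zero, zero_mul]; positivity
      · have := ih P D U1 U2 P Q hP hD (fun Z hZ h =>
          ⟨(hs Z hZ (beyond_left hP hD.1 hQ.1 hZ hd h)).1, sD Z hZ⟩) d1 (by rw [e1]; exact hd.le)
          ha' z (by have := nN_left_lt hP hD.1 hQ.1 hd; omega)
        rw [e1] at this
        have c : (2 : ℝ) ≤ nC X P D := by exact_mod_cast two_le_nC hP.1 hD.1 (ne12 hd)
        nlinarith
    have hR : (nN X D Q : ℝ) * cr V1 V2 Q P ≤ κ * (det P D Q * cr V1 V2 Q D) := by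
      rcases (nN X D Q).eq_zero_or_pos with z | z
      · rw [z]; simp only [Nat.cast_zero, zero_mul]; positivity
      · have := ih D Q P Q V1 V2 hD hQ (fun Z hZ h =>
          ⟨sD Z hZ, (hs Z hZ (beyond_right hP.1 hD.1 hQ hZ hd h)).2⟩) (by rw [e2]; exact hd.le) d2
          (by rw [e3]; exact hb') z (by have := nN_right_lt hP.1 hD.1 hQ hd; omega)
        rw [e2, e3] at this
        have c : (2 : ℝ) ≤ nC X D Q := by exact_mod_cast two_le_nC hD.1 hQ.1 (ne23 hd)
        nlinarith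
    have ht := cnt_lt hU hP.1 hD.1 hQ.1 hd
    have i1 := expand_id hP hD hQ hd
    have i2 := cnt_lo hP hD hQ hd
    rw [nC_comm X Q P] at i2
    have i3 : ((nN X P Q + nC X P Q : ℕ) : ℝ) ≤
        (nCl X P D Q + nOp X P D Q + nN X P D + nN X D Q : ℕ) := by
      exact_mod_cast (by omega)
    push_cast at i3
    have e : cr U1 U2 P D * cr V1 V2 Q P + cr V1 V2 Q D * cr U1 U2 P Q =
        cr U1 U2 P Q * cr V1 V2 Q P - det P D Q * cr U1 U2 V1 V2 := by
      unfold cr det; ring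
    set a := cr U1 U2 P Q
    set b := cr V1 V2 Q P
    set c := cr U1 U2 V1 V2
    set d := det P D Q
    set aD := cr U1 U2 P D
    set bD := cr V1 V2 Q D
    set s := (nN X P Q : ℝ) + nC X P Q - 2
    have hab := mul_pos ha' hb'
    have k1 : s * (a * b) < κ * d * (2 * (a * b) - d * c) := by
      have t1 : s < κ * d + nN X P D + nN X D Q := by simp only [s]; linarith
      have t2 := mul_lt_mul_of_pos_right t1 hab
      have t3 := mul_le_mul_of_nonneg_right hL hb'.le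
      have t4 := mul_le_mul_of_nonneg_right hR ha'.le
      have t5 : κ * d * (aD * b + bD * a) = κ * d * (a * b - d * c) := by rw [e]
      nlinarith
    have k2 := mul_lt_mul_of_pos_right k1 hc
    have k3 := mul_nonneg hκ.le (sq_nonneg (a * b - d * c))
    have k4 : (s * c) * (a * b) < (κ * (a * b)) * (a * b) := by nlinarith
    exact lt_of_mul_lt_mul_right k4 hab.le

lemma region (hU : Un X κ) {P Q U1 U2 V1 V2 : Pt} (hP : Ex X P) (hQ : Ex X Q)
    (hs : ∀ Z ∈ X, det P Q Z < 0 → 0 ≤ cr U1 U2 P Z ∧ 0 ≤ cr V1 V2 Q Z)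
    (ha : 0 ≤ cr U1 U2 P Q) (hb : 0 ≤ cr V1 V2 Q P) (hc : 0 < cr U1 U2 V1 V2) (hN : 0 < nN X P Q) :
    ((nN X P Q : ℝ) + nC X P Q - 2) * cr U1 U2 V1 V2 < κ * (cr U1 U2 P Q * cr V1 V2 Q P) :=
  region_aux hU _ P Q U1 U2 V1 V2 hP hQ hs ha hb hc hN le_rfl

/-- The wedge bound. -/
lemma wedge (hU : Un X κ) {P Q U1 U2 V1 V2 : Pt} {l l' : ℝ} (hP : Ex X P) (hQ : Ex X Q)
    (hs : ∀ Z ∈ X, det P Q Z < 0 → l' ≤ κ * cr U1 U2 P Z ∧ l ≤ κ * cr V1 V2 Q Z)
    (hl : 0 ≤ l) (hl' : 0 ≤ l') (ha : l' ≤ κ * cr U1 U2 P Q) (hb : l ≤ κ * cr V1 V2 Q P)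
    (hc : 0 < cr U1 U2 V1 V2) (hN : 0 < nN X P Q) :
    ((nN X P Q : ℝ) + nC X P Q - 2) * cr U1 U2 V1 V2 + l * cr U1 U2 P Q + l' * cr V1 V2 Q P <
      κ * (cr U1 U2 P Q * cr V1 V2 Q P) := by
  obtain ⟨Z0, hZ0, hZ0'⟩ := nN_pos_iff.1 hN
  have hκ := hU.pos hP.1 hZ0 hQ.1 (by rw [det_swap']; linarith)
  set a := cr U1 U2 P Q with ea
  set b := cr V1 V2 Q P with eb
  set c := cr U1 U2 V1 V2 with ec
  have ha0 : 0 ≤ a := le_of_mul_le_mul_left (by linarith) hκ
  have hb0 : 0 ≤ b := le_of_mul_le_mul_left (by linarith) hκ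
  let W : Pt := ((κ * b - l) * (U2.1 - U1.1) + l' * (V2.1 - V1.1),
    (κ * b - l) * (U2.2 - U1.2) + l' * (V2.2 - V1.2))
  let W' : Pt := (κ * c * (Q.1 - P.1) - W.1, κ * c * (Q.2 - P.2) - W.2)
  set r := (κ * b - l) * a - l' * b with er
  have f1 : cr 0 W P Q = r := by
    simp only [W, er, ea, eb, cr, Prod.fst_zero, Prod.snd_zero]; ring
  have f2 : cr 0 W' Q P = r := by
    simp only [W', W, er, ea, eb, cr, Prod.fst_zero, Prod.snd_zero]; ring
  have f3 : cr 0 W 0 W' = κ * c * r := by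
    simp only [W', W, er, ea, eb, cr, Prod.fst_zero, Prod.snd_zero]; ring
  have g1 : ∀ Z, cr 0 W P Z =
      (κ * b - l) * (cr U1 U2 P Z) + l' * (cr V1 V2 Q Z - b) := by
    intro Z; simp only [W, eb, cr, Prod.fst_zero, Prod.snd_zero]; ring
  have g2 : ∀ Z, cr 0 W' Q Z =
      (κ * a - l') * (cr V1 V2 Q Z) + l * (cr U1 U2 P Z - a) := by
    intro Z; simp only [W', W, ea, eb, ec, cr, Prod.fst_zero, Prod.snd_zero]; ring
  have hr : 0 < r := by
    obtain ⟨z1, z2⟩ := hs Z0 hZ0 hZ0'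
    have e : c * det P Q Z0 = a * cr V1 V2 Q Z0 + b * cr U1 U2 P Z0 - a * b := by
      simp only [ea, eb, ec, cr, det]; ring
    have t1 := mul_le_mul_of_nonneg_left z1 hb0
    have t2 := mul_le_mul_of_nonneg_left z2 ha0
    have t3 := mul_pos hκ (mul_pos hc (neg_pos.2 hZ0'))
    have t4 : κ * (c * det P Q Z0) = κ * (a * cr V1 V2 Q Z0 + b * cr U1 U2 P Z0 - a * b) := by
      rw [e]
    rw [er]; nlinarith
  have := region hU (U1 := 0) (U2 := W) (V1 := 0) (V2 := W') hP hQ (fun Z hZ h => by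
      obtain ⟨z1, z2⟩ := hs Z hZ h
      rw [g1, g2]
      have t1 := mul_nonneg (sub_nonneg.2 hb) (sub_nonneg.2 z1)
      have t2 := mul_nonneg hl' (sub_nonneg.2 z2)
      have t3 := mul_nonneg (sub_nonneg.2 ha) (sub_nonneg.2 z2)
      have t4 := mul_nonneg hl (sub_nonneg.2 z1)
      constructor
      · exact le_of_mul_le_mul_left (by nlinarith) hκ
      · exact le_of_mul_le_mul_left (by nlinarith) hκ)
    (by rw [f1]; exact hr.le) (by rw [f2]; exact hr.le) (by rw [f3]; positivity) hN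
  rw [f1, f2, f3] at this
  have k : (((nN X P Q : ℝ) + nC X P Q - 2) * c) * (κ * r) < r * (κ * r) := by nlinarith
  have := lt_of_mul_lt_mul_right k (mul_pos hκ hr).le
  rw [er] at this
  linarith

/-- The trapezoid bound for the two children of an expanded chord. -/
lemma trapezoid (hU : Un X κ) {P Q D U1 U2 V1 V2 : Pt} (hP : Ex X P) (hQ : Ex X Q) (hD : Ex X D)
    (hu : ∀ Z ∈ X, 0 ≤ cr U1 U2 P Z) (hv : ∀ Z ∈ X, 0 ≤ cr V1 V2 Q Z)
    (hw : ∀ Z ∈ X, 0 ≤ cr P Q D Z) (hc : 0 < cr U1 U2 V1 V2) (hd : 0 < det P D Q) :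
    (nN X P D : ℝ) + nN X D Q ≤ κ * det P D Q := by
  have d1 := hu D hD.1
  have d2 := hv D hD.1
  obtain ⟨ha', hb'⟩ := ab_pos d1 d2 (hu Q hQ.1) (hv P hP.1) hc hd
  have hκ := hU.pos hP.1 hD.1 hQ.1 hd
  have e1 : cr P Q D P = det P D Q := by unfold cr det; ring
  have e2 : cr P Q D Q = det P D Q := by unfold cr det; ring
  have e3 : cr P Q V1 V2 = cr V1 V2 Q P := by unfold cr; ring
  have hL : (nN X P D : ℝ) * cr U1 U2 P Q ≤ κ * (cr U1 U2 P D * det P D Q) := by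
    rcases (nN X P D).eq_zero_or_pos with z | z
    · rw [z]; simp only [Nat.cast_zero, zero_mul]; positivity
    · have := region hU (U1 := U1) (U2 := U2) (V1 := P) (V2 := Q) hP hD (fun Z hZ _ =>
        ⟨hu Z hZ, hw Z hZ⟩) d1 (by rw [e1]; exact hd.le) ha' z
      rw [e1] at this
      have c : (2 : ℝ) ≤ nC X P D := by exact_mod_cast two_le_nC hP.1 hD.1 (ne12 hd)
      nlinarith
  have hR : (nN X D Q : ℝ) * cr V1 V2 Q P ≤ κ * (det P D Q * cr V1 V2 Q D) := by
    rcases (nN X D Q).eq_zero_or_pos with z | z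
    · rw [z]; simp only [Nat.cast_zero, zero_mul]; positivity
    · have := region hU (U1 := P) (U2 := Q) (V1 := V1) (V2 := V2) hD hQ (fun Z hZ _ =>
        ⟨hw Z hZ, hv Z hZ⟩) (by rw [e2]; exact hd.le) d2 (by rw [e3]; exact hb') z
      rw [e2, e3] at this
      have c : (2 : ℝ) ≤ nC X D Q := by exact_mod_cast two_le_nC hD.1 hQ.1 (ne23 hd)
      nlinarith
  have e : cr U1 U2 P D * cr V1 V2 Q P + cr V1 V2 Q D * cr U1 U2 P Q =
      cr U1 U2 P Q * cr V1 V2 Q P - det P D Q * cr U1 U2 V1 V2 := by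
    unfold cr det; ring
  set a := cr U1 U2 P Q
  set b := cr V1 V2 Q P
  set c := cr U1 U2 V1 V2
  set d := det P D Q
  set aD := cr U1 U2 P D
  set bD := cr V1 V2 Q D
  have hab := mul_pos ha' hb'
  have t3 := mul_le_mul_of_nonneg_right hL hb'.le
  have t4 := mul_le_mul_of_nonneg_right hR ha'.le
  have t5 : κ * d * (aD * b + bD * a) = κ * d * (a * b - d * c) := by rw [e]
  have t6 := mul_pos (mul_pos hκ hd) (mul_pos hd hc)
  have k : ((nN X P D : ℝ) + nN X D Q) * (a * b) ≤ κ * d * (a * b) := by nlinarith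
  exact le_of_mul_le_mul_right k hab

end Pool.Agent.MP_b1b11b_co

end MrgPart1

-- ======== part 2: formerly Pool.Agent.MP_b1b11b_co.Ear
section MrgPart2

/-! A sharper bound for two consecutive chords that both carry further points. -/

namespace Pool.Agent.MP_b1b11b_co

open Finset

variable {X : Finset Pt} {κ : ℝ}

lemma on_line {P Q R Z : Pt} (h : 0 < det P Q R) (h1 : det P Q Z = 0) :
    ∃ s : ℝ, Z = (Q.1 + s * (P.1 - Q.1), Q.2 + s * (P.2 - Q.2)) := by
  have e1 : det P Q R * (Z.1 - Q.1) = (R.1 - Q.1) * det P Q Z + (P.1 - Q.1) * det Q R Z := by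
    unfold det; ring
  have e2 : det P Q R * (Z.2 - Q.2) = (R.2 - Q.2) * det P Q Z + (P.2 - Q.2) * det Q R Z := by
    unfold det; ring
  rw [h1] at e1 e2
  refine ⟨det Q R Z / det P Q R, Prod.ext ?_ ?_⟩
  · field_simp; linarith
  · field_simp; linarith

lemma on_line' {P Q R Z : Pt} (h : 0 < det P Q R) (h1 : det Q R Z = 0) :
    ∃ s : ℝ, Z = (Q.1 + s * (R.1 - Q.1), Q.2 + s * (R.2 - Q.2)) := by
  have e1 : det P Q R * (Z.1 - Q.1) = (R.1 - Q.1) * det P Q Z + (P.1 - Q.1) * det Q R Z := by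
    unfold det; ring
  have e2 : det P Q R * (Z.2 - Q.2) = (R.2 - Q.2) * det P Q Z + (P.2 - Q.2) * det Q R Z := by
    unfold det; ring
  rw [h1] at e1 e2
  refine ⟨det P Q Z / det P Q R, Prod.ext ?_ ?_⟩
  · field_simp; linarith
  · field_simp; linarith

lemma third {P Q : Pt} (h : 3 ≤ nC X P Q) : ∃ Z ∈ X, det P Q Z = 0 ∧ Z ≠ P ∧ Z ≠ Q := by
  classical
  by_contra hc
  push Not at hc
  have : nC X P Q ≤ 2 := by
    unfold nC
    refine le_trans (card_le_card (t := {P, Q}) ?_) card_le_two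
    intro Z hZ
    rw [mem_filter] at hZ
    by_cases e : Z = P
    · simp [e]
    · simp [hc Z hZ.1 hZ.2 e]
  omega

lemma count_in {A B C : Pt} {p : Pt → Prop} {Q E : Pt} (hE : E ∈ X) (hQ : Q ∈ X)
    (hEp : ¬ p E) (hEc : 0 ≤ det A B E ∧ 0 ≤ det B C E ∧ 0 ≤ det C A E) (hEQ : E ≠ Q)
    (h : ∀ Z ∈ X, p Z → Z ≠ Q → 0 ≤ det A B Z ∧ 0 ≤ det B C Z ∧ 0 ≤ det C A Z) :
    ∑ Z ∈ X, ind (p Z) ≤ nCl X A B C := by
  have : ∑ Z ∈ X, (ind (p Z) + ind (Z = E)) ≤
      ∑ Z ∈ X, (ind (0 ≤ det A B Z ∧ 0 ≤ det B C Z ∧ 0 ≤ det C A Z) + ind (Z = Q)) := by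
    refine sum_le_sum fun Z hZ => ?_
    by_cases e : Z = E
    · subst e; rw [ind_neg hEp, ind_pos rfl, ind_pos hEc]; omega
    rw [ind_neg e]
    by_cases e2 : Z = Q
    · rw [ind_pos e2]; unfold ind; split_ifs <;> omega
    by_cases e3 : p Z
    · rw [ind_pos e3, ind_pos (h Z hZ e3 e2)]; omega
    · rw [ind_neg e3]; omega
  rw [sum_add_distrib, sum_add_distrib, one_eq hE, one_eq hQ, ← nCl_eq] at this
  omega

lemma strong_ear (hU : Un X κ) {P Q R : Pt} (hP : Ex X P) (hQ : Ex X Q) (hR : Ex X R)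
    (h : 0 < det P Q R) (h1 : 3 ≤ nC X P Q) (h2 : 3 ≤ nC X Q R) :
    (nC X P Q : ℝ) + nC X Q R - 2 < κ * det P Q R := by
  classical
  have h' : 0 < det Q R P := by rwa [← det_cyc]
  have hκ := hU.pos hP.1 hQ.1 hR.1 h
  obtain ⟨Z1, hZ1, c1, n1, n1'⟩ := third h1
  obtain ⟨Z2, hZ2, c2, n2, n2'⟩ := third h2
  obtain ⟨U, hUm, hUmin⟩ := (X.filter fun Z => det P Q Z = 0 ∧ Z ≠ Q).exists_min_image
    (fun Z => det Q R Z) ⟨Z1, mem_filter.2 ⟨hZ1, c1, n1'⟩⟩
  obtain ⟨V, hVm, hVmin⟩ := (X.filter fun Z => det Q R Z = 0 ∧ Z ≠ Q).exists_min_image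
    (fun Z => det P Q Z) ⟨Z2, mem_filter.2 ⟨hZ2, c2, n2⟩⟩
  obtain ⟨hUX, cU, nU⟩ := mem_filter.1 hUm
  obtain ⟨hVX, cV, nV⟩ := mem_filter.1 hVm
  have x0 := hQ.next hP.1 hR.1 hUX h nU cU.le
  have y0 := hQ.prev hR.1 hP.1 hVX h' nV cV.le
  have x1 : det Q R U < det P Q R := by
    have := hUmin Z1 (mem_filter.2 ⟨hZ1, c1, n1'⟩)
    have := hP.prev hQ.1 hR.1 hZ1 h n1 c1.le
    have := det_sum P Q R Z1
    linarith
  have y1 : det P Q V < det P Q R := by
    have := hVmin Z2 (mem_filter.2 ⟨hZ2, c2, n2⟩)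
    have := hR.next hQ.1 hP.1 hZ2 h' n2' c2.le
    have := det_sum P Q R Z2
    linarith
  obtain ⟨s, rfl⟩ := on_line h cU
  obtain ⟨t, rfl⟩ := on_line' h cV
  set U : Pt := (Q.1 + s * (P.1 - Q.1), Q.2 + s * (P.2 - Q.2)) with eU
  set V : Pt := (Q.1 + t * (R.1 - Q.1), Q.2 + t * (R.2 - Q.2)) with eV
  set d := det P Q R with ed
  have es : det Q R U = s * d := by simp only [eU, ed, det]; ring
  have et : det P Q V = t * d := by simp only [eV, ed, det]; ring
  have s0 : 0 < s := by rw [es] at x0; exact (pos_iff_pos_of_mul_pos x0).2 h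
  have t0 : 0 < t := by rw [et] at y0; exact (pos_iff_pos_of_mul_pos y0).2 h
  have s1 : s < 1 := by rw [es] at x1; nlinarith
  have t1 : t < 1 := by rw [et] at y1; nlinarith
  have eA : det P U V = (1 - s) * t * d := by simp only [eU, eV, ed, det]; ring
  have eB : det U V R = s * (1 - t) * d := by simp only [eU, eV, ed, det]; ring
  have pA : 0 < det P U V := by rw [eA]; have := sub_pos.2 s1; positivity
  have pB : 0 < det U V R := by rw [eB]; have := sub_pos.2 t1; positivity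
  have cA : nC X P Q ≤ nCl X P U V := by
    rw [nC_eq]
    refine count_in hVX hQ.1 y0.ne' ⟨pA.le, by simp, by simp⟩ nV fun Z hZ cZ nZ => ?_
    have m := hUmin Z (mem_filter.2 ⟨hZ, cZ, nZ⟩)
    have m2 : 0 ≤ det R P Z := by
      by_cases e : Z = P
      · rw [e]; simp
      · exact (hP.prev hQ.1 hR.1 hZ h e cZ.le).le
    have m3 := det_sum P Q R Z
    obtain ⟨r, rfl⟩ := on_line h cZ
    set Z : Pt := (Q.1 + r * (P.1 - Q.1), Q.2 + r * (P.2 - Q.2)) with eZ
    have er : det Q R Z = r * d := by simp only [eZ, ed, det]; ring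
    have f1 : det P U Z = 0 := by simp only [eZ, eU, det]; ring
    have f2 : det U V Z = t * (r * d - s * d) := by simp only [eZ, eU, eV, ed, det]; ring
    have f3 : det V P Z = t * (d - r * d) := by simp only [eZ, eV, ed, det]; ring
    rw [f1, f2, f3]
    exact ⟨le_rfl, mul_nonneg t0.le (by linarith), mul_nonneg t0.le (by linarith)⟩
  have cB : nC X Q R ≤ nCl X U V R := by
    rw [nC_eq]
    refine count_in hUX hQ.1 x0.ne' ⟨by simp, by rw [← det_cyc]; exact pB.le, by simp⟩ nU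
      fun Z hZ cZ nZ => ?_
    have m := hVmin Z (mem_filter.2 ⟨hZ, cZ, nZ⟩)
    have m2 : 0 ≤ det R P Z := by
      by_cases e : Z = R
      · rw [e]; simp
      · exact (hR.next hQ.1 hP.1 hZ h' e cZ.le).le
    have m3 := det_sum P Q R Z
    obtain ⟨r, rfl⟩ := on_line' h cZ
    set Z : Pt := (Q.1 + r * (R.1 - Q.1), Q.2 + r * (R.2 - Q.2)) with eZ
    have er : det P Q Z = r * d := by simp only [eZ, ed, det]; ring
    have f1 : det V R Z = 0 := by simp only [eZ, eV, det]; ring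
    have f2 : det U V Z = s * (r * d - t * d) := by simp only [eZ, eU, eV, ed, det]; ring
    have f3 : det R U Z = s * (d - r * d) := by simp only [eZ, eU, ed, det]; ring
    rw [f1, f2, f3]
    exact ⟨mul_nonneg s0.le (by linarith), le_rfl, mul_nonneg s0.le (by linarith)⟩
  have gA := cnt_lt hU hP.1 hUX hVX pA
  have gB := cnt_lt hU hUX hVX hR.1 pB
  have cA' : (nC X P Q : ℝ) ≤ nCl X P U V := by exact_mod_cast cA
  have cB' : (nC X Q R : ℝ) ≤ nCl X U V R := by exact_mod_cast cB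
  have h1' : (3 : ℝ) ≤ nC X P Q := by exact_mod_cast h1
  have h2' : (3 : ℝ) ≤ nC X Q R := by exact_mod_cast h2
  have o1 : (0 : ℝ) ≤ nOp X P U V := Nat.cast_nonneg _
  have o2 : (0 : ℝ) ≤ nOp X U V R := Nat.cast_nonneg _
  rw [eA] at gA
  rw [eB] at gB
  set K := κ * d with eK
  have K0 : 0 < K := mul_pos hκ h
  have a1 : (nC X P Q : ℝ) - 2 < (1 - s) * t * K := by rw [eK]; linarith
  have a2 : (nC X Q R : ℝ) - 2 < s * (1 - t) * K := by rw [eK]; linarith
  have b0 : 1 < ((1 - s) * t * K) * (s * (1 - t) * K) := by nlinarith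
  have b1 : 0 < s * t * K := by positivity
  have b2 : 0 < (1 - s) * (1 - t) * K := by
    have := sub_pos.2 s1; have := sub_pos.2 t1; positivity
  have b3 : 1 < (s * t * K) * ((1 - s) * (1 - t) * K) := by linarith
  have b4 : 2 < s * t * K + (1 - s) * (1 - t) * K := by
    by_contra hc
    push Not at hc
    nlinarith [sq_nonneg (s * t * K - (1 - s) * (1 - t) * K)]
  linarith

end Pool.Agent.MP_b1b11b_co

end MrgPart2

-- ======== part 3: formerly Pool.Agent.MP_b1b11b_co.Good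
section MrgPart3

/-! The invariant of the checker and the soundness of the simple facts. -/

namespace Pool.Agent.MP_b1b11b_co

open Finset

/-- The normalised configuration. -/
structure Glob (X : Finset Pt) (k Q : ℕ) : Prop where
  kpos : 0 < k
  qpos : 0 < Q
  un : Un X (k / 1048576)
  mx : ∀ A ∈ X, ∀ B ∈ X, ∀ C ∈ X, det A B C ≤ 1048576
  o1 : ∀ Z ∈ X, ∃ W ∈ X, det (1024, 1024) (2048, 1024) W ≤ det (2048, 1024) (1024, 2048) Z
  o2 : ∀ Z ∈ X, ∃ W ∈ X, det (2048, 1024) (1024, 2048) W ≤ det (1024, 2048) (1024, 1024) Z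

structure VOK (X : Finset Pt) (σ : ℕ → Pt) (m a b i : ℕ) : Prop where
  ex : Ex X (σ i)
  sa : a < m
  sb : b < m
  sup : ∀ Z ∈ X, 0 ≤ cr (σ a) (σ b) (σ i) Z

structure SOK (X : Finset Pt) (σ : ℕ → Pt) (val : ℕ → ℝ) (vs : List Vx) (m nr : ℕ) (A : Sg) :
    Prop where
  p : A.p < m
  q : A.q < m
  v : A.v + 1 < nr
  ne : σ A.p ≠ σ A.q
  b : val A.v = val 0 * ((nC X (σ A.p) (σ A.q) : ℝ) - 2)
  n : val (A.v + 1) = val 0 * nN X (σ A.p) (σ A.q)
  c : 0 < cr (σ (nth dV vs A.p).sa) (σ (nth dV vs A.p).sb) (σ (nth dV vs A.q).sa)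
    (σ (nth dV vs A.q).sb)

structure TOK (Q : ℕ) (σ : ℕ → Pt) (val : ℕ → ℝ) (m nr : ℕ) (T : Tr) : Prop where
  a : T.a < m
  b : T.b < m
  c : T.c < m
  vc : T.vc < nr
  v1 : T.v1 < nr
  v2 : T.v2 + 1 < nr
  v3 : T.v3 + 1 < nr
  up : 1048576 * val T.vc < Q * det (σ T.a) (σ T.b) (σ T.c)
  lo : val T.v1 + val T.v2 + val T.v3 + val 0 ≤ val T.vc
  int : val T.vc + val 0 ≤ Q

structure ROK (R : Rg) (u x : ℝ) : Prop where
  lo : (R.lo : ℝ) ≤ x
  hi : x ≤ R.hi
  pos : R.pos = true → u ≤ x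

structure Good (X : Finset Pt) (k Q : ℕ) (vs : List Vx) (sg : List Sg) (tr : List Tr)
    (rg : List Rg) (tot : Fm) (e : ℕ) (σ : ℕ → Pt) (val : ℕ → ℝ) : Prop where
  e3 : e ≤ 3
  lv : vs.length = e + 3
  lr : rg.length = 5 * e + 8
  ltr : tr.length = e + 1
  fix : Fix σ
  box : ∀ i, InB (nth dV vs i) (σ i)
  vx : ∀ i < e + 3, VOK X σ (e + 3) (nth dV vs i).sa (nth dV vs i).sb i
  ord : ∀ i < e + 3, ∀ j < e + 3, ∀ l < e + 3, ord vs i j l = true → 0 < det (σ i) (σ j) (σ l)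
  sg : ∀ j, SOK X σ val vs (e + 3) (5 * e + 8) (nth dS sg j)
  tr' : ∀ t, TOK Q σ val (e + 3) (5 * e + 8) (nth dT tr t)
  trap : ∀ t, 1 ≤ t → t ≤ e → 1048576 * (val ((nth dT tr t).v2 + 1) + val ((nth dT tr t).v3 + 1)) ≤
    Q * det (σ (nth dT tr t).a) (σ (nth dT tr t).b) (σ (nth dT tr t).c)
  top : ∀ a < 3, val (a * 2 + 2) + val (a * 2 + 3) + val 0 ≤ Q
  top2 : ∀ a < 2, val (a * 2 + 3) = val 0 * nN X (σ a) (σ (a + 1))
  rg : ∀ v < 5 * e + 8, ROK (nth dR rg v) (val 0) (val v)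
  nat : ∀ v, ∃ n : ℕ, val v = val 0 * n
  zero : ∀ v, 5 * e + 8 ≤ v → val v = 0
  u : val 0 = Q / k
  tot : ∀ (σ' : ℕ → Pt) (val' : ℕ → ℝ), (∀ v < 5 * e + 8, val' v = val v) →
    ∃ r, Val (wt σ' val') tot r ∧ 0 ≤ r

/-- A fact is valid. -/
def FOK (w : ℕ → ℝ) (c : Fc) : Prop := ∃ r, Val w c.F r ∧ 0 ≤ r ∧ (c.s ≠ 0 → 0 < r)

variable {X : Finset Pt} {k Q : ℕ} {vs : List Vx} {sg : List Sg} {tr : List Tr} {rg : List Rg}
  {tot : Fm} {e : ℕ} {σ : ℕ → Pt} {val : ℕ → ℝ}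

lemma fok_triv : FOK (wt σ val) triv := ⟨_, val_cst 0, by simp, fun h => absurd rfl h⟩
lemma fok_iff {c : Bool} {F : Fc} (h : c = true → FOK (wt σ val) F) :
    FOK (wt σ val) (iff c F triv) := by
  cases c
  · exact fok_triv
  · exact h rfl
lemma fok_le {w : ℕ → ℝ} {F : Fm} {r : ℝ} (h : Val w F r) (h2 : 0 ≤ r) : FOK w ⟨F, 0⟩ :=
  ⟨r, h, h2, fun h => absurd rfl h⟩
lemma fok_lt {w : ℕ → ℝ} {F : Fm} {r : ℝ} {s : ℕ} (h : Val w F r) (h2 : 0 < r) : FOK w ⟨F, s⟩ :=
  ⟨r, h, h2.le, fun _ => h2⟩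

lemma Good.upos (G : Glob X k Q) (h : Good X k Q vs sg tr rg tot e σ val) : 0 < val 0 := by
  rw [h.u]
  have := G.kpos
  have := G.qpos
  positivity
lemma Good.ku (G : Glob X k Q) (h : Good X k Q vs sg tr rg tot e σ val) : (Q : ℝ) = val 0 * k := by
  rw [h.u]
  have : (k : ℝ) ≠ 0 := by have := G.kpos; positivity
  field_simp
lemma Good.sc (G : Glob X k Q) (h : Good X k Q vs sg tr rg tot e σ val) {x y : ℝ}
    (hx : x < k / 1048576 * y) : 1048576 * (val 0 * x) < Q * y := by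
  have := mul_lt_mul_of_pos_left hx (h.upos G)
  rw [h.ku G]; linarith
lemma Good.sc' (G : Glob X k Q) (h : Good X k Q vs sg tr rg tot e σ val) {x y : ℝ}
    (hx : x ≤ k / 1048576 * y) : 1048576 * (val 0 * x) ≤ Q * y := by
  have := mul_le_mul_of_nonneg_left hx (h.upos G).le
  rw [h.ku G]; linarith
lemma Good.nn (G : Glob X k Q) (h : Good X k Q vs sg tr rg tot e σ val) (v : ℕ) : 0 ≤ val v := by
  obtain ⟨n, hn⟩ := h.nat v
  rw [hn]; have := h.upos G; positivity
lemma Good.vvar (h : Good X k Q vs sg tr rg tot e σ val) {v : ℕ} (hv : v < 5 * e + 8) :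
    Val (wt σ val) (var v) (val v) := val_var (by have := h.e3; omega)
lemma Good.v0 (h : Good X k Q vs sg tr rg tot e σ val) : Val (wt σ val) (var 0) (val 0) :=
  h.vvar (by omega)
lemma Good.vdet (h : Good X k Q vs sg tr rg tot e σ val) {i j l : ℕ} (hi : i < e + 3)
    (hj : j < e + 3) (hl : l < e + 3) : Val (wt σ val) (detF i j l) (det (σ i) (σ j) (σ l)) := by
  have := h.e3
  exact val_det h.fix (by omega) (by omega) (by omega)
lemma Good.vcr (h : Good X k Q vs sg tr rg tot e σ val) {p q i z : ℕ} (hp : p < e + 3)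
    (hq : q < e + 3) (hi : i < e + 3) (hz : z < e + 3) :
    Val (wt σ val) (crF p q i z) (cr (σ p) (σ q) (σ i) (σ z)) := by
  have := h.e3
  exact val_cr h.fix (by omega) (by omega) (by omega) (by omega)
lemma Good.lo4' (h : Good X k Q vs sg tr rg tot e σ val) (p q i z : ℕ) :
    lo4 vs p q i z = 0 ∨ (lo4 vs p q i z : ℝ) ≤ cr (σ p) (σ q) (σ i) (σ z) :=
  ivl_spec (h.box p) (h.box q) (h.box i) (h.box z)
lemma Good.lo4 (h : Good X k Q vs sg tr rg tot e σ val) {p q i z : ℕ}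
    (h0 : 0 ≤ cr (σ p) (σ q) (σ i) (σ z)) : (lo4 vs p q i z : ℝ) ≤ cr (σ p) (σ q) (σ i) (σ z) := by
  rcases h.lo4' p q i z with h1 | h1
  · rw [h1]; simpa using h0
  · exact h1
lemma Good.hi4 (h : Good X k Q vs sg tr rg tot e σ val) (p q i z : ℕ) :
    cr (σ p) (σ q) (σ i) (σ z) ≤ (hi4 vs p q i z : ℝ) :=
  ivh_spec (h.box p) (h.box q) (h.box i) (h.box z)
lemma Good.one (h : Good X k Q vs sg tr rg tot e σ val) (hf : fixd rg = true) : val 0 = 1 := by
  unfold fixd at hf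
  rw [band_eq] at hf
  have r := h.rg 0 (by omega)
  have h1 := r.lo
  have h2 := r.hi
  rw [Nat.eq_of_beq_eq_true hf.1] at h1
  rw [Nat.eq_of_beq_eq_true hf.2] at h2
  push_cast at h1 h2
  linarith
lemma SOK.two {nr : ℕ} {A : Sg} (h : Good X k Q vs sg tr rg tot e σ val)
    (s : SOK X σ val vs (e + 3) nr A) : (2 : ℝ) ≤ nC X (σ A.p) (σ A.q) := by
  exact_mod_cast two_le_nC (h.vx _ s.p).ex.1 (h.vx _ s.q).ex.1 s.ne

lemma round_le {n D c : ℕ} (hc : 0 < c) (h : (c : ℝ) * n < D) : (n : ℝ) ≤ ((D - 1) / c : ℕ) := by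
  have h1 : c * n < D := by exact_mod_cast h
  have : n ≤ (D - 1) / c := by
    rw [Nat.le_div_iff_mul_le hc, mul_comm]; omega
  exact_mod_cast this

lemma fUp_ok (h : Good X k Q vs sg tr rg tot e σ val) (a : ℕ) :
    FOK (wt σ val) (fUp Q (nth dT tr a)) := by
  have t := h.tr' a
  refine fok_lt (((h.vdet t.a t.b t.c).sm Q).sub ((h.vvar t.vc).sm MM)) ?_
  rw [MM_cast]; linarith [t.up]

lemma fInt_ok (h : Good X k Q vs sg tr rg tot e σ val) (a : ℕ) :
    FOK (wt σ val) (fInt Q (nth dT tr a)) := by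
  have t := h.tr' a
  refine fok_le ((val_cst Q).sub ((h.vvar t.vc).add h.v0)) ?_
  linarith [t.int]

lemma fLo_ok (h : Good X k Q vs sg tr rg tot e σ val) (a : ℕ) :
    FOK (wt σ val) (fLo (nth dT tr a)) := by
  have t := h.tr' a
  refine fok_le ((h.vvar t.vc).sub ((((h.vvar t.v1).add (h.vvar (by have := t.v2; omega))).add
    (h.vvar (by have := t.v3; omega))).add h.v0)) ?_
  linarith [t.lo]

lemma fTrap_ok (h : Good X k Q vs sg tr rg tot e σ val) (a : ℕ) :
    FOK (wt σ val) (fTrap Q e a (nth dT tr a)) := by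
  refine fok_iff fun c => ?_
  simp only [band_eq, Nat.ble_eq] at c
  have t := h.tr' a
  refine fok_le (((h.vdet t.a t.b t.c).sm Q).sub (((h.vvar t.v2).add (h.vvar t.v3)).sm MM)) ?_
  rw [MM_cast]; linarith [h.trap a c.1 c.2]

lemma fRc_ok (h : Good X k Q vs sg tr rg tot e σ val) (a : ℕ) :
    FOK (wt σ val) (fRc Q vs rg (nth dT tr a)) := by
  refine fok_iff fun c => ?_
  have t := h.tr' a
  generalize nth dT tr a = T at t ⊢
  refine fok_le ((val_cst _).sub (h.vvar t.vc)) ?_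
  obtain ⟨n, hn⟩ := h.nat T.vc
  rw [h.one c, one_mul] at hn
  have h1 := h.hi4 T.a T.b T.a T.c
  have h2 : cr (σ T.a) (σ T.b) (σ T.a) (σ T.c) = det (σ T.a) (σ T.b) (σ T.c) := rfl
  have h3 := t.up
  have h4 := mul_le_mul_of_nonneg_left h1 (Nat.cast_nonneg (α := ℝ) Q)
  rw [h2] at h4
  have := round_le (n := n) (D := Q * hi4 vs T.a T.b T.a T.c) (c := MM) (by norm_num [MM])
    (by rw [MM_cast]; push_cast; rw [← hn]; linarith)
  rw [hn]
  exact sub_nonneg.2 this

lemma fMax_ok (G : Glob X k Q) (h : Good X k Q vs sg tr rg tot e σ val) (a b c : ℕ) :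
    FOK (wt σ val) (fMax e a b c) := by
  refine fok_iff fun d => ?_
  simp only [band_eq, lt_eq, Nat.add_eq] at d
  refine fok_le ((val_cst _).sub (h.vdet d.1 d.2.1 d.2.2)) ?_
  rw [MM_cast]
  linarith [G.mx _ (h.vx _ d.1).ex.1 _ (h.vx _ d.2.1).ex.1 _ (h.vx _ d.2.2).ex.1]

lemma fMin_ok (G : Glob X k Q) (h : Good X k Q vs sg tr rg tot e σ val) (a b c : ℕ) :
    FOK (wt σ val) (fMin Q vs e a b c) := by
  refine fok_iff fun d => ?_
  simp only [band_eq, lt_eq, Nat.add_eq] at d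
  obtain ⟨⟨ha, hb, hc⟩, o⟩ := d
  refine fok_lt (((h.vdet ha hb hc).sm Q).sub (h.v0.sm MM)) ?_
  have := h.sc G (G.un _ (h.vx _ ha).ex.1 _ (h.vx _ hb).ex.1 _ (h.vx _ hc).ex.1
    (h.ord _ ha _ hb _ hc o))
  rw [MM_cast]; linarith

lemma fEar_ok (G : Glob X k Q) (h : Good X k Q vs sg tr rg tot e σ val) (a b : ℕ) :
    FOK (wt σ val) (fEar Q vs (nth dS sg a) (nth dS sg b)) := by
  refine fok_iff fun d => ?_
  have s := h.sg a
  have t := h.sg b
  generalize nth dS sg a = A at *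
  generalize nth dS sg b = B at *
  rw [band_eq] at d
  have e1 := Nat.eq_of_beq_eq_true d.1
  have o := h.ord _ s.p _ s.q _ t.q d.2
  refine fok_lt (((h.vdet s.p s.q t.q).sm Q).sub ((((h.vvar (by have := s.v; omega)).add
    (h.vvar (by have := t.v; omega))).add h.v0).sm MM)) ?_
  have h1 := ear_lt G.un (h.vx _ s.p).ex (h.vx _ s.q).ex (h.vx _ t.q).ex o
  have h2 : (2 : ℝ) ≤ nC X (σ B.q) (σ A.p) := by
    exact_mod_cast two_le_nC (h.vx _ t.q).ex.1 (h.vx _ s.p).ex.1 (ne13 o).symm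
  have h3 := h.sc G (x := (nC X (σ A.p) (σ A.q) - 2) + (nC X (σ A.q) (σ B.q) - 2) + 1)
    (lt_of_le_of_lt (by linarith) h1)
  rw [MM_cast, s.b, t.b, e1]; linarith

lemma fStrong_ok (G : Glob X k Q) (h : Good X k Q vs sg tr rg tot e σ val) (a b : ℕ) :
    FOK (wt σ val) (fStrong Q vs rg (nth dS sg a) (nth dS sg b)) := by
  refine fok_iff fun d => ?_
  have s := h.sg a
  have t := h.sg b
  generalize nth dS sg a = A at *
  generalize nth dS sg b = B at *
  simp only [band_eq, lt_eq] at d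
  obtain ⟨⟨d1, d2⟩, d3, d4⟩ := d
  have e1 := Nat.eq_of_beq_eq_true d1
  have o := h.ord _ s.p _ s.q _ t.q d2
  refine fok_lt (((h.vdet s.p s.q t.q).sm Q).sub ((((h.vvar (by have := s.v; omega)).add
    (h.vvar (by have := t.v; omega))).add (h.v0.sm 2)).sm MM)) ?_
  have u0 := h.upos G
  have three : ∀ (C : Sg), SOK X σ val vs (e + 3) (5 * e + 8) C → 0 < (nth dR rg C.v).lo →
      3 ≤ nC X (σ C.p) (σ C.q) := by
    intro C c l
    have r := (h.rg C.v (by have := c.v; omega)).lo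
    have l' : (0 : ℝ) < (nth dR rg C.v).lo := by exact_mod_cast l
    rw [c.b] at r
    have := (pos_iff_pos_of_mul_pos (l'.trans_le r)).1 u0
    have : (2 : ℝ) < nC X (σ C.p) (σ C.q) := by linarith
    exact_mod_cast this
  have h1 := strong_ear G.un (h.vx _ s.p).ex (h.vx _ s.q).ex (h.vx _ t.q).ex o (three A s d3)
    (e1 ▸ three B t d4)
  have h3 := h.sc G h1
  rw [MM_cast, s.b, t.b, e1]; push_cast; linarith

lemma fRb_ok (G : Glob X k Q) (h : Good X k Q vs sg tr rg tot e σ val) (a b : ℕ) :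
    FOK (wt σ val) (fRb Q vs rg e (nth dS sg a) b) := by
  refine fok_iff fun d => ?_
  have s := h.sg a
  generalize nth dS sg a = A at *
  simp only [band_eq, lt_eq, Nat.add_eq] at d
  obtain ⟨⟨d1, d2⟩, d3⟩ := d
  have o := h.ord _ s.p _ s.q _ d2 d3
  refine fok_le ((val_cst _).sub ((h.vvar (by have := s.v; omega)).add h.v0)) ?_
  obtain ⟨n, hn⟩ := h.nat A.v
  have u1 := h.one d1
  rw [u1, one_mul] at hn
  have h1 := h.hi4 A.p A.q A.p b
  have h2 : cr (σ A.p) (σ A.q) (σ A.p) (σ b) = det (σ A.p) (σ A.q) (σ b) := rfl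
  have h3 := h.sc G (seg_lt G.un (h.vx _ s.p).ex (h.vx _ s.q).ex (h.vx _ d2).ex.1 o)
  have h4 := mul_le_mul_of_nonneg_left h1 (Nat.cast_nonneg (α := ℝ) Q)
  rw [h2] at h4
  have h5 := s.b
  rw [u1] at h3 h5
  have := round_le (n := n + 1) (D := Q * hi4 vs A.p A.q A.p b) (c := MM) (by norm_num [MM])
    (by rw [MM_cast]; push_cast; rw [← hn]; linarith)
  rw [hn, u1]
  rw [Nat.cast_add, Nat.cast_one] at this
  exact sub_nonneg.2 this

lemma fPos_ok (h : Good X k Q vs sg tr rg tot e σ val) (a : ℕ) :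
    FOK (wt σ val) (fPos rg (nth dS sg a)) := by
  refine fok_iff fun d => ?_
  have s := h.sg a
  exact fok_le ((h.vvar s.v).sub h.v0) (sub_nonneg.2 ((h.rg _ s.v).pos d))

lemma fSeg_ok (h : Good X k Q vs sg tr rg tot e σ val) (a : ℕ) : FOK (wt σ val) (fSeg Q a) := by
  refine fok_iff fun d => ?_
  rw [lt_eq] at d
  refine fok_le ((val_cst _).sub (((h.vvar (v := a * 2 + 2) (by omega)).add
    (h.vvar (v := a * 2 + 3) (by omega))).add h.v0)) ?_
  linarith [h.top a d]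

lemma Good.side (G : Glob X k Q) (h : Good X k Q vs sg tr rg tot e σ val) {a : ℕ} (ha : a < 2)
    {Z : Pt} (hZ : Z ∈ X) :
    ∃ W ∈ X, det (σ a) (σ (a + 1)) W ≤ det (σ (a + 1)) (σ ((a + 2) % 3)) Z := by
  obtain ⟨h0, h1, h2⟩ := h.fix
  interval_cases a
  · simpa [h0, h1, h2] using G.o1 Z hZ
  · simpa [h0, h1, h2] using G.o2 Z hZ

lemma fDeep_ok (G : Glob X k Q) (h : Good X k Q vs sg tr rg tot e σ val) (a b c : ℕ) :
    FOK (wt σ val) (fDeep vs e a b c) := by
  refine fok_iff fun d => ?_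
  simp only [band_eq, lt_eq, Nat.add_eq] at d
  obtain ⟨⟨d1, d2, d3⟩, -, d4, d5⟩ := d
  refine fok_le ((h.vdet (i := a + 1) (j := (a + 2) % 3) (by omega) (by omega) d3).sub
    (h.vdet (i := a) (j := a + 1) (by omega) (by omega) d2)) ?_
  obtain ⟨W, hW, hW'⟩ := h.side G d1 (h.vx _ d3).ex.1
  have := (h.vx _ d2).sup W hW
  rw [Nat.eq_of_beq_eq_true d4, Nat.eq_of_beq_eq_true d5] at this
  have e : cr (σ a) (σ a.succ) (σ b) W = det (σ a) (σ (a + 1)) W - det (σ a) (σ (a + 1)) (σ b) := by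
    unfold cr det; ring
  linarith

lemma fLeaf_ok (G : Glob X k Q) (h : Good X k Q vs sg tr rg tot e σ val) (a b : ℕ) :
    FOK (wt σ val) (fLeaf rg e a b) := by
  refine fok_iff fun d => ?_
  simp only [band_eq, lt_eq, Nat.add_eq, Nat.mul_eq] at d
  obtain ⟨⟨d1, d2⟩, d3⟩ := d
  refine fok_le (h.vdet (i := a + 1) (j := (a + 2) % 3) (by omega) (by omega) d2) ?_
  obtain ⟨W, hW, hW'⟩ := h.side G d1 (h.vx _ d2).ex.1
  refine le_trans ?_ hW'
  by_contra hc
  have h1 := nN_pos_iff.2 ⟨W, hW, not_le.1 hc⟩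
  have h2 := (h.rg (a * 2 + 3) (by omega)).hi
  rw [Nat.eq_of_beq_eq_true d3, h.top2 a d1] at h2
  have h3 : (0 : ℝ) < nN X (σ a) (σ (a + 1)) := by exact_mod_cast h1
  have := mul_pos (h.upos G) h3
  push_cast at h2
  linarith

lemma fRn_ok (G : Glob X k Q) (h : Good X k Q vs sg tr rg tot e σ val) (a : ℕ) :
    FOK (wt σ val) (fRn Q vs rg (nth dS sg a)) := by
  have s := h.sg a
  generalize nth dS sg a = A at *
  unfold fRn
  simp only [frc_eq]
  refine fok_iff fun d => ?_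
  simp only [band_eq, lt_eq] at d
  have vp := h.vx _ s.p
  have vq := h.vx _ s.q
  have u1 := h.one d.1
  have a0 := vp.sup _ vq.ex.1
  have b0 := vq.sup _ vp.ex.1
  have a1 := h.hi4 (nth dV vs A.p).sa (nth dV vs A.p).sb A.p A.q
  have b1 := h.hi4 (nth dV vs A.q).sa (nth dV vs A.q).sb A.q A.p
  have c1 := h.lo4 s.c.le
  have two := s.two h
  have key : 0 < nN X (σ A.p) (σ A.q) → val (A.v + 1) + val A.v ≤
      (((Q * hi4 vs (nth dV vs A.p).sa (nth dV vs A.p).sb A.p A.q *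
        hi4 vs (nth dV vs A.q).sa (nth dV vs A.q).sb A.q A.p - 1) /
        (MM * lo4 vs (nth dV vs A.p).sa (nth dV vs A.p).sb (nth dV vs A.q).sa
          (nth dV vs A.q).sb) : ℕ) : ℝ) := by
    intro hN
    have r := h.sc G (region G.un vp.ex vq.ex (fun Z hZ _ => ⟨vp.sup Z hZ, vq.sup Z hZ⟩) a0 b0
      s.c hN)
    obtain ⟨n, hn⟩ := h.nat A.v
    have e1 := s.b
    have e2 := s.n
    rw [u1, one_mul] at hn e1 e2 r
    have e3 : val (A.v + 1) + val A.v = ((nN X (σ A.p) (σ A.q) + n : ℕ) : ℝ) := by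
      push_cast; linarith
    rw [e3]
    apply round_le (Nat.mul_pos (by norm_num [MM]) d.2)
    push_cast
    rw [MM_cast]
    have t1 := mul_le_mul a1 b1 b0 (Nat.cast_nonneg _)
    have t2 := mul_le_mul_of_nonneg_left t1 (Nat.cast_nonneg (α := ℝ) Q)
    have t3 := mul_le_mul_of_nonneg_left c1
      (by positivity : (0 : ℝ) ≤ (nN X (σ A.p) (σ A.q) : ℝ) + n)
    have e4 : (nN X (σ A.p) (σ A.q) : ℝ) + nC X (σ A.p) (σ A.q) - 2 =
        nN X (σ A.p) (σ A.q) + n := by linarith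
    rw [e4] at r
    linarith
  cases hp : (nth dR rg A.v.succ).pos
  · rw [iff_false]
    refine fok_le ((val_cst _).sub (h.vvar s.v)) (sub_nonneg.2 ?_)
    rcases (nN X (σ A.p) (σ A.q)).eq_zero_or_pos with z | z
    · rw [s.n, z]; simp
    · exact le_trans (by linarith [h.nn G A.v]) (key z)
  · rw [iff_true]
    refine fok_le ((val_cst _).sub ((h.vvar s.v).add (h.vvar (by have := s.v; omega))))
      (sub_nonneg.2 (key ?_))
    have := (h.rg _ s.v).pos hp
    rw [s.n, u1, one_mul] at this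
    exact_mod_cast (by linarith : (0 : ℝ) < nN X (σ A.p) (σ A.q))

end Pool.Agent.MP_b1b11b_co

end MrgPart3

-- ======== part 4: formerly Pool.Agent.MP_b1b11b_co.Wedge
section MrgPart4

/-! Soundness of the wedge fact and of leaves. -/

namespace Pool.Agent.MP_b1b11b_co

open Finset

variable {X : Finset Pt} {k Q : ℕ} {vs : List Vx} {sg : List Sg} {tr : List Tr} {rg : List Rg}
  {tot : Fm} {e : ℕ} {σ : ℕ → Pt} {val : ℕ → ℝ}

lemma val_pl {x g : Fm} {rx rg' : ℝ} (hx : Val (wt σ val) x rx) (hg : Val (wt σ val) g rg')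
    (A B : ℕ) : Val (wt σ val) (pl x A g B) (B * rx + A * rg' - A * B) := by
  have := ((hx.sm B).add (hg.sm A)).sub (val_cst (A * B))
  rw [Nat.cast_mul] at this
  exact this

lemma plv_ok (h : Good X k Q vs sg tr rg tot e σ val) (b : Bool) {v1 v2 : ℕ} (h1 : v1 < 5 * e + 8)
    (h2 : v2 < 5 * e + 8) {g : Fm} {r : ℝ} (hg : Val (wt σ val) g r) {gl gh : ℕ}
    (hl : (gl : ℝ) ≤ r) (hh : r ≤ gh) :
    ∃ s, Val (wt σ val) (plv rg b v1 v2 g gl gh) s ∧ s ≤ (val v1 + val v2) * r := by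
  have r1 := h.rg _ h1
  have r2 := h.rg _ h2
  cases b
  · refine ⟨_, val_pl ((h.vvar h1).add (h.vvar h2)) hg _ _, ?_⟩
    rw [Nat.add_eq, Nat.cast_add]
    nlinarith [mul_nonneg (sub_nonneg.2 (add_le_add r1.lo r2.lo)) (sub_nonneg.2 hl)]
  · refine ⟨_, val_pl ((h.vvar h1).add (h.vvar h2)) hg _ _, ?_⟩
    rw [Nat.add_eq, Nat.cast_add]
    nlinarith [mul_nonneg (sub_nonneg.2 (add_le_add r1.hi r2.hi)) (sub_nonneg.2 hh)]

lemma plw_ok (h : Good X k Q vs sg tr rg tot e σ val) (b : Bool) {v1 : ℕ} (h1 : v1 < 5 * e + 8)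
    {g : Fm} {r : ℝ} (hg : Val (wt σ val) g r) {gl gh : ℕ} (hl : (gl : ℝ) ≤ r) (hh : r ≤ gh) :
    ∃ s, Val (wt σ val) (plw rg b v1 g gl gh) s ∧ s ≤ val v1 * r := by
  have r1 := h.rg _ h1
  cases b
  · refine ⟨_, val_pl (h.vvar h1) hg _ _, ?_⟩
    nlinarith [mul_nonneg (sub_nonneg.2 r1.lo) (sub_nonneg.2 hl)]
  · refine ⟨_, val_pl (h.vvar h1) hg _ _, ?_⟩
    nlinarith [mul_nonneg (sub_nonneg.2 r1.hi) (sub_nonneg.2 hh)]

lemma mn_le (a b : ℕ) : mn a b ≤ a ∧ mn a b ≤ b := by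
  unfold mn
  cases h : Nat.ble a b
  · have : ¬ a ≤ b := by rw [← Nat.ble_eq, h]; simp
    rw [iff_false]; omega
  · rw [iff_true]; exact ⟨le_rfl, Nat.le_of_ble_eq_true h⟩

lemma wcore_ok (G : Glob X k Q) (h : Good X k Q vs sg tr rg tot e σ val)
    {p q v u1 u2 v1 v2 vp vn d : ℕ} {l l' : ℝ} (hp : p < e + 3) (hq : q < e + 3)
    (hu1 : u1 < e + 3) (hu2 : u2 < e + 3) (hv1 : v1 < e + 3) (hv2 : v2 < e + 3)
    (hv : v + 1 < 5 * e + 8) (hvp : vp < 5 * e + 8) (hvn : vn < 5 * e + 8)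
    (eb : val v = val 0 * ((nC X (σ p) (σ q) : ℝ) - 2))
    (en : val (v + 1) = val 0 * nN X (σ p) (σ q))
    (hs : ∀ Z ∈ X, det (σ p) (σ q) Z < 0 → l' ≤ k / 1048576 * cr (σ u1) (σ u2) (σ p) Z ∧
      l ≤ k / 1048576 * cr (σ v1) (σ v2) (σ q) Z)
    (hl : 0 ≤ l) (hl' : 0 ≤ l') (ha : l' ≤ k / 1048576 * cr (σ u1) (σ u2) (σ p) (σ q))
    (hb : l ≤ k / 1048576 * cr (σ v1) (σ v2) (σ q) (σ p))
    (n1 : bit d 1 = true → val vn + val 0 = val 0 * l ∧
      (nC X (σ p) (σ q) : ℝ) - 2 + l ≤ k / 1048576 * cr (σ v1) (σ v2) (σ q) (σ p))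
    (n0 : bit d 1 = false → l = 0)
    (p1 : bit d 0 = true → val vp + val 0 = val 0 * l' ∧
      (nC X (σ p) (σ q) : ℝ) - 2 + l' ≤ k / 1048576 * cr (σ u1) (σ u2) (σ p) (σ q))
    (p0 : bit d 0 = false → l' = 0) :
    FOK (wt σ val) (wcore Q vs rg p q v u1 u2 v1 v2 vp vn d) := by
  refine fok_iff fun c => ?_
  rw [band_eq, lt_eq, bor_eq] at c
  obtain ⟨c1, c2⟩ := c
  have u0 := h.upos G
  have k0 : (0 : ℝ) < k / 1048576 := by have := G.kpos; positivity
  have a0 : 0 ≤ cr (σ u1) (σ u2) (σ p) (σ q) := le_of_mul_le_mul_left (by linarith) k0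
  have b0 : 0 ≤ cr (σ v1) (σ v2) (σ q) (σ p) := le_of_mul_le_mul_left (by linarith) k0
  have cl : (lo4 vs u1 u2 v1 v2 : ℝ) ≤ cr (σ u1) (σ u2) (σ v1) (σ v2) :=
    (h.lo4' u1 u2 v1 v2).resolve_left c1.ne'
  have c0 : 0 < cr (σ u1) (σ u2) (σ v1) (σ v2) := lt_of_lt_of_le (by exact_mod_cast c1) cl
  have ch := h.hi4 u1 u2 v1 v2
  have al := h.lo4 a0
  have ah := h.hi4 u1 u2 p q
  have bl := h.lo4 b0
  have bh := h.hi4 v1 v2 q p
  have va := h.vcr hu1 hu2 hp hq
  have vb := h.vcr hv1 hv2 hq hp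
  have vc := h.vcr hu1 hu2 hv1 hv2
  have b00 := h.nn G v
  have W := fun hN => h.sc G (wedge G.un (h.vx _ hp).ex (h.vx _ hq).ex hs hl hl' ha hb c0 hN)
  set a := cr (σ u1) (σ u2) (σ p) (σ q)
  set b := cr (σ v1) (σ v2) (σ q) (σ p)
  set c := cr (σ u1) (σ u2) (σ v1) (σ v2)
  obtain ⟨r1, V1, R1⟩ : ∃ r, Val (wt σ val) (iff (bit d 2)
      (pl (crF u1 u2 p q) (hi4 vs u1 u2 p q) (crF v1 v2 q p) (lo4 vs v1 v2 q p))
      (pl (crF u1 u2 p q) (lo4 vs u1 u2 p q) (crF v1 v2 q p) (hi4 vs v1 v2 q p))) r ∧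
      a * b ≤ r := by
    cases bit d 2
    · exact ⟨_, val_pl va vb _ _, by nlinarith [mul_nonneg (sub_nonneg.2 al) (sub_nonneg.2 bh)]⟩
    · exact ⟨_, val_pl va vb _ _, by nlinarith [mul_nonneg (sub_nonneg.2 ah) (sub_nonneg.2 bl)]⟩
  obtain ⟨r3, V3, R3⟩ : ∃ r, Val (wt σ val) (iff (bit d 1) (plv rg (bit d 4) vn 0 (crF u1 u2 p q)
      (lo4 vs u1 u2 p q) (hi4 vs u1 u2 p q)) (cst 0)) r ∧ r ≤ val 0 * l * a := by
    cases hd : bit d 1
    · exact ⟨_, val_cst 0, by rw [n0 hd]; simp⟩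
    · rw [← (n1 hd).1]
      exact plv_ok h _ hvn (by omega) va al ah
  obtain ⟨r4, V4, R4⟩ : ∃ r, Val (wt σ val) (iff (bit d 0) (plv rg (bit d 5) vp 0 (crF v1 v2 q p)
      (lo4 vs v1 v2 q p) (hi4 vs v1 v2 q p)) (cst 0)) r ∧ r ≤ val 0 * l' * b := by
    cases hd : bit d 0
    · exact ⟨_, val_cst 0, by rw [p0 hd]; simp⟩
    · rw [← (p1 hd).1]
      exact plv_ok h _ hvp (by omega) vb bl bh
  have q1 := mul_le_mul_of_nonneg_left R1 (Nat.cast_nonneg (α := ℝ) Q)
  cases hpos : (nth dR rg v.succ).pos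
  · rw [iff_false, iff_false]
    obtain ⟨r2, V2, R2⟩ := plw_ok h (bit d 3) hv vc cl ch
    generalize hth : iff (bit d 1) (mn (lo4 vs u1 u2 v1 v2) (lo4 vs u1 u2 p q))
      (iff (bit d 0) (mn (lo4 vs u1 u2 v1 v2) (lo4 vs v1 v2 q p)) 0) = th
    refine fok_le ((V1.sm Q).sub ((((V2.add ((h.vvar (by omega)).sm th)).add V3).add V4).sm MM)) ?_
    rw [MM_cast]
    rcases (nN X (σ p) (σ q)).eq_zero_or_pos with z | z
    · rw [en, z] at R2
      have key : (th : ℝ) * ((nC X (σ p) (σ q) : ℝ) - 2) + l * a + l' * b ≤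
          k / 1048576 * (a * b) := by
        have two : 0 ≤ (nC X (σ p) (σ q) : ℝ) - 2 :=
          le_of_mul_le_mul_left (by rw [← eb]; simpa using b00) u0
        rw [hpos] at c2
        cases h1 : bit d 1 <;> cases h0 : bit d 0 <;> rw [h1, h0] at hth
        · rw [n0 h1, p0 h0, ← hth]
          have := mul_nonneg k0.le (mul_nonneg a0 b0)
          simpa using this
        · have t : (th : ℝ) ≤ b := by
            refine le_trans ?_ bl
            rw [← hth]; exact_mod_cast (mn_le _ _).2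
          rw [n0 h1]
          have := mul_le_mul_of_nonneg_right (p1 h0).2 b0
          have := mul_le_mul_of_nonneg_right t two
          linarith
        · have t : (th : ℝ) ≤ a := by
            refine le_trans ?_ al
            rw [← hth]; exact_mod_cast (mn_le _ _).2
          rw [p0 h0]
          have := mul_le_mul_of_nonneg_right (n1 h1).2 a0
          have := mul_le_mul_of_nonneg_right t two
          linarith
        · rw [h1, h0] at c2
          simp at c2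
      have := h.sc' G key
      rw [eb]
      simp only [Nat.cast_zero, mul_zero, zero_mul] at R2
      linarith
    · have t : (th : ℝ) ≤ c := by
        refine le_trans ?_ cl
        rw [← hth]
        cases bit d 1 <;> cases bit d 0
        · simp
        · exact_mod_cast (mn_le _ _).1
        · exact_mod_cast (mn_le _ _).1
        · exact_mod_cast (mn_le _ _).1
      have t2 := mul_le_mul_of_nonneg_right t b00
      have := W z
      rw [en] at R2
      rw [eb] at t2 ⊢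
      linarith
  · rw [iff_true, iff_true]
    obtain ⟨r2, V2, R2⟩ := plv_ok h (bit d 3) hv (v2 := v) (by omega) vc cl ch
    refine fok_lt ((V1.sm Q).sub (((V2.add V3).add V4).sm MM)) ?_
    have z : 0 < nN X (σ p) (σ q) := by
      have := (h.rg _ hv).pos hpos
      rw [en] at this
      have := (pos_iff_pos_of_mul_pos (u0.trans_le this)).1 u0
      exact_mod_cast this
    have := W z
    rw [en, eb] at R2
    rw [MM_cast]
    linarith

lemma fWedge_ok (G : Glob X k Q) (h : Good X k Q vs sg tr rg tot e σ val) (a b c d : ℕ) :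
    FOK (wt σ val) (fWedge Q vs sg rg a b c d) := by
  have s := h.sg a
  have sp := h.sg b
  have sn := h.sg c
  unfold fWedge
  simp only [frc_eq]
  generalize nth dS sg a = A at *
  generalize nth dS sg b = B at *
  generalize nth dS sg c = C at *
  refine fok_iff fun o => ?_
  rw [band_eq] at o
  obtain ⟨o1, o2⟩ := o
  have vp := h.vx _ s.p
  have vq := h.vx _ s.q
  have k0 : (0 : ℝ) < k / 1048576 := by have := G.kpos; positivity
  have two := s.two h
  obtain ⟨l', u1, u2, hs', hl', ha, p1, p0⟩ : ∃ l' : ℝ,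
      iff (bit d 0) B.p (nth dV vs A.p).sa < e + 3 ∧ iff (bit d 0) A.p (nth dV vs A.p).sb < e + 3 ∧
      (∀ Z ∈ X, det (σ A.p) (σ A.q) Z < 0 → l' ≤ k / 1048576 *
        cr (σ (iff (bit d 0) B.p (nth dV vs A.p).sa)) (σ (iff (bit d 0) A.p (nth dV vs A.p).sb))
          (σ A.p) Z) ∧ 0 ≤ l' ∧
      l' ≤ k / 1048576 * cr (σ (iff (bit d 0) B.p (nth dV vs A.p).sa))
        (σ (iff (bit d 0) A.p (nth dV vs A.p).sb)) (σ A.p) (σ A.q) ∧
      (bit d 0 = true → val B.v + val 0 = val 0 * l' ∧ (nC X (σ A.p) (σ A.q) : ℝ) - 2 + l' ≤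
        k / 1048576 * cr (σ (iff (bit d 0) B.p (nth dV vs A.p).sa))
          (σ (iff (bit d 0) A.p (nth dV vs A.p).sb)) (σ A.p) (σ A.q)) ∧
      (bit d 0 = false → l' = 0) := by
    revert o1
    cases bit d 0
    · intro _
      exact ⟨0, vp.sa, vp.sb, fun Z hZ _ => mul_nonneg k0.le (vp.sup Z hZ), le_rfl,
        mul_nonneg k0.le (vp.sup _ vq.ex.1), fun h => absurd h (by simp), fun _ => rfl⟩
    · intro o1
      simp only [iff_true, band_eq] at o1 ⊢
      have e1 := Nat.eq_of_beq_eq_true o1.1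
      have o := h.ord _ sp.p _ s.p _ s.q o1.2
      have vo := h.vx _ sp.p
      have ec : ∀ Z, cr (σ B.p) (σ A.p) (σ A.p) Z = det (σ B.p) (σ A.p) Z := fun Z => by
        unfold cr det; ring
      have tw := sp.two h
      have eb := sp.b
      rw [e1] at tw eb
      have h1 := ear_lt G.un vo.ex vp.ex vq.ex o
      have h2 : (2 : ℝ) ≤ nC X (σ A.q) (σ B.p) := by
        exact_mod_cast two_le_nC vq.ex.1 vo.ex.1 (ne13 o).symm
      refine ⟨nC X (σ B.p) (σ A.p) - 1, sp.p, s.p, fun Z hZ hz => ?_, by linarith, ?_,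
        fun _ => ⟨by rw [eb]; ring, ?_⟩, fun h => absurd h (by simp)⟩
      · rw [ec]
        exact (seg_lt G.un vo.ex vp.ex hZ (vp.ex.prev vq.ex.1 vo.ex.1 hZ (by rwa [← det_cyc])
          (by rintro rfl; simp at hz) hz.le)).le
      · rw [ec]; linarith
      · rw [ec]; linarith
  obtain ⟨l, v1, v2, hs, hl, hb, n1, n0⟩ : ∃ l : ℝ,
      iff (bit d 1) A.q (nth dV vs A.q).sa < e + 3 ∧ iff (bit d 1) C.q (nth dV vs A.q).sb < e + 3 ∧
      (∀ Z ∈ X, det (σ A.p) (σ A.q) Z < 0 → l ≤ k / 1048576 *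
        cr (σ (iff (bit d 1) A.q (nth dV vs A.q).sa)) (σ (iff (bit d 1) C.q (nth dV vs A.q).sb))
          (σ A.q) Z) ∧ 0 ≤ l ∧
      l ≤ k / 1048576 * cr (σ (iff (bit d 1) A.q (nth dV vs A.q).sa))
        (σ (iff (bit d 1) C.q (nth dV vs A.q).sb)) (σ A.q) (σ A.p) ∧
      (bit d 1 = true → val C.v + val 0 = val 0 * l ∧ (nC X (σ A.p) (σ A.q) : ℝ) - 2 + l ≤
        k / 1048576 * cr (σ (iff (bit d 1) A.q (nth dV vs A.q).sa))
          (σ (iff (bit d 1) C.q (nth dV vs A.q).sb)) (σ A.q) (σ A.p)) ∧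
      (bit d 1 = false → l = 0) := by
    revert o2
    cases bit d 1
    · intro _
      exact ⟨0, vq.sa, vq.sb, fun Z hZ _ => mul_nonneg k0.le (vq.sup Z hZ), le_rfl,
        mul_nonneg k0.le (vq.sup _ vp.ex.1), fun h => absurd h (by simp), fun _ => rfl⟩
    · intro o2
      simp only [iff_true, band_eq] at o2 ⊢
      have e1 := Nat.eq_of_beq_eq_true o2.1
      have o := h.ord _ s.p _ s.q _ sn.q o2.2
      have vo := h.vx _ sn.q
      have ec : ∀ Z, cr (σ A.q) (σ C.q) (σ A.q) Z = det (σ A.q) (σ C.q) Z := fun Z => rfl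
      have tw := sn.two h
      have eb := sn.b
      rw [e1] at tw eb
      have h1 := ear_lt G.un vp.ex vq.ex vo.ex o
      have h2 : (2 : ℝ) ≤ nC X (σ C.q) (σ A.p) := by
        exact_mod_cast two_le_nC vo.ex.1 vp.ex.1 (ne13 o).symm
      refine ⟨nC X (σ A.q) (σ C.q) - 1, s.q, sn.q, fun Z hZ hz => ?_, by linarith, ?_,
        fun _ => ⟨by rw [eb]; ring, ?_⟩, fun h => absurd h (by simp)⟩
      · rw [ec]
        exact (seg_lt G.un vq.ex vo.ex hZ (vq.ex.next vp.ex.1 vo.ex.1 hZ o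
          (by rintro rfl; simp at hz) hz.le)).le
      · rw [ec, ← det_cyc]; linarith
      · rw [ec, ← det_cyc]; linarith
  exact wcore_ok G h s.p s.q u1 u2 v1 v2 s.v (by have := sp.v; omega) (by have := sn.v; omega)
    s.b s.n (fun Z hZ hz => ⟨hs' Z hZ hz, hs Z hZ hz⟩) hl hl' ha hb n1 n0 p1 p0

lemma fact_ok (G : Glob X k Q) (h : Good X k Q vs sg tr rg tot e σ val) (t a b c d : ℕ) :
    FOK (wt σ val) (fact Q vs sg tr rg tot e t a b c d) := by
  unfold fact
  rcases nth_mem triv _ t with h1 | h1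
  · rw [h1]; exact fok_triv
  generalize nth triv _ t = F at h1
  simp only [List.mem_cons, List.not_mem_nil, or_false] at h1
  rcases h1 with rfl | rfl | rfl | rfl | rfl | rfl | rfl | rfl | rfl | rfl | rfl | rfl | rfl | rfl |
    rfl | rfl | rfl | rfl
  · exact fWedge_ok G h a b c d
  · exact fUp_ok h a
  · exact fEar_ok G h a b
  · exact fMax_ok G h a b c
  · obtain ⟨r, h1, h2⟩ := h.tot σ val fun _ _ => rfl
    exact fok_le h1 h2
  · exact fInt_ok h a
  · exact fDeep_ok G h a b c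
  · exact fPos_ok h a
  · exact fRc_ok h a
  · exact fRn_ok G h a
  · exact fMin_ok G h a b c
  · exact fLo_ok h a
  · exact fRb_ok G h a b
  · exact fTrap_ok h a
  · exact fStrong_ok G h a b
  · exact fLeaf_ok G h a b
  · exact fSeg_ok h a
  · exact fok_lt h.v0 (h.upos G)

lemma leaf_succ (n w : ℕ) (A : Fm) (s : ℕ) : leaf Q vs sg tr rg tot e (n + 1) w A s =
    leaf Q vs sg tr rg tot e n (w.shiftRight 64)
      (A.add ((factW Q vs sg tr rg tot e (w.mod 18446744073709551616)).F.sm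
        (lamW (w.mod 18446744073709551616))))
      (s + lamW (w.mod 18446744073709551616) *
        (factW Q vs sg tr rg tot e (w.mod 18446744073709551616)).s) := rfl

lemma leaf_ok (G : Glob X k Q) (h : Good X k Q vs sg tr rg tot e σ val) (n : ℕ) :
    ∀ (w : ℕ) (A : Fm) (s : ℕ), FOK (wt σ val) ⟨A, s⟩ →
      leaf Q vs sg tr rg tot e n w A s = true → False := by
  induction n with
  | zero =>
    rintro w A s ⟨r, h1, h2, h3⟩ c
    refine final_spec (h.box 3) (h.box 4) (h.box 5) (by have := h.e3; rw [h.lr]; omega)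
      (fun i hi => ?_) (fun i hi => h.zero i (by rwa [← h.lr])) h1 h2 h3 c
    have := h.rg i (by rwa [← h.lr])
    exact ⟨this.lo, this.hi⟩
  | succ n ih =>
    rintro w A s ⟨r, h1, h2, h3⟩ c
    rw [leaf_succ] at c
    refine ih _ _ _ ?_ c
    have : FOK (wt σ val) (factW Q vs sg tr rg tot e (w.mod 18446744073709551616)) := by
      unfold factW
      simp only [frc_eq]
      exact fact_ok G h _ _ _ _ _
    obtain ⟨r', g1, g2, g3⟩ := this
    generalize lamW (w.mod 18446744073709551616) = l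
    have l0 : (0 : ℝ) ≤ l := Nat.cast_nonneg _
    refine ⟨_, h1.add (g1.sm l), by positivity, fun hs => ?_⟩
    by_cases s0 : s = 0
    · subst s0
      have hs' : l * (factW Q vs sg tr rg tot e (w.mod 18446744073709551616)).s ≠ 0 := by
        simpa using hs
      have := g3 (right_ne_zero_of_mul hs')
      have l1 : (0 : ℝ) < l := by exact_mod_cast Nat.pos_of_ne_zero (left_ne_zero_of_mul hs')
      positivity
    · have := h3 s0
      positivity

end Pool.Agent.MP_b1b11b_co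

end MrgPart4

-- ======== part 5: formerly Pool.Agent.MP_b1b11b_co.Sound
section MrgPart5

/-! Soundness of the branching steps. -/

namespace Pool.Agent.MP_b1b11b_co

open Finset

variable {X : Finset Pt} {k Q : ℕ} {vs : List Vx} {sg : List Sg} {tr : List Tr} {rg : List Rg}
  {tot : Fm} {e : ℕ} {σ : ℕ → Pt} {val : ℕ → ℝ}

lemma mem_nth {α : Type} (d : α) {l : List α} {a : α} (h : a ∈ l) : ∃ i, nth d l i = a := by
  induction l with
  | nil => simp at h
  | cons b t ih =>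
    rcases List.mem_cons.1 h with rfl | h
    · exact ⟨0, rfl⟩
    · obtain ⟨i, hi⟩ := ih h
      exact ⟨i + 1, hi⟩

lemma all_append {α : Type} {d : α} {l r : List α} {p : α → Prop} (h1 : ∀ i, p (nth d l i))
    (h2 : ∀ a ∈ r, p a) (i : ℕ) : p (nth d (l ++ r) i) := by
  rcases nth_mem d (l ++ r) i with h | h
  · rw [h, ← nth_ge d l l.length le_rfl]; exact h1 _
  · rcases List.mem_append.1 h with h | h
    · obtain ⟨j, hj⟩ := mem_nth d h
      rw [← hj]; exact h1 j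
    · exact h2 _ h

lemma Good.box_upd (h : Good X k Q vs sg tr rg tot e σ val) (f : Vx → Vx) (n : ℕ)
    (h1 : ∀ V, (f V).sa = V.sa) (h2 : ∀ V, (f V).sb = V.sb) (h3 : ∀ V, (f V).key = V.key)
    (hb : InB (f (nth dV vs n)) (σ n)) : Good X k Q (upd f vs n) sg tr rg tot e σ val := by
  have e1 : ∀ i, (nth dV (upd f vs n) i).sa = (nth dV vs i).sa := fun i => by
    rcases nth_upd dV f vs n i with g | ⟨-, g⟩ <;> rw [g]; exact h1 _
  have e2 : ∀ i, (nth dV (upd f vs n) i).sb = (nth dV vs i).sb := fun i => by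
    rcases nth_upd dV f vs n i with g | ⟨-, g⟩ <;> rw [g]; exact h2 _
  have e3 : ∀ i, (nth dV (upd f vs n) i).key = (nth dV vs i).key := fun i => by
    rcases nth_upd dV f vs n i with g | ⟨-, g⟩ <;> rw [g]; exact h3 _
  refine { h with lv := by rw [upd_length, h.lv], box := fun i => ?_, vx := fun i hi => ?_,
                  ord := fun i hi j hj l hl o => ?_, sg := fun j => ?_ }
  · rcases nth_upd dV f vs n i with g | ⟨rfl, g⟩ <;> rw [g]
    · exact h.box i
    · exact hb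
  · rw [e1, e2]; exact h.vx i hi
  · refine h.ord i hi j hj l hl ?_
    unfold Pool.Agent.MP_b1b11b_co.ord at o ⊢
    rwa [e3, e3, e3] at o
  · have s := h.sg j
    exact { s with c := by rw [e1, e1, e2, e2]; exact s.c }

lemma Good.rg_upd (h : Good X k Q vs sg tr rg tot e σ val) (f : Rg → Rg) (n : ℕ)
    (hb : n < 5 * e + 8 → ROK (f (nth dR rg n)) (val 0) (val n)) :
    Good X k Q vs sg tr (upd f rg n) tot e σ val := by
  refine { h with lr := by rw [upd_length, h.lr], rg := fun i hi => ?_ }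
  rcases nth_upd dR f rg n i with g | ⟨rfl, g⟩ <;> rw [g]
  · exact h.rg i hi
  · exact hb hi

lemma ordk_iff (a b c : ℕ) :
    ordk a b c = true ↔ (a < b ∧ b < c) ∨ (b < c ∧ c < a) ∨ (c < a ∧ a < b) := by
  unfold ordk
  cases h : lt a b
  · have : ¬ a < b := by rw [← lt_eq, h]; simp
    rw [iff_false, band_eq, lt_eq, lt_eq]; omega
  · have : a < b := by rwa [← lt_eq]
    rw [iff_true, bor_eq, lt_eq, lt_eq]; omega

lemma ord_ext {key : ℕ → ℕ} {m p q κ : ℕ} {D : Pt} (hex : ∀ i < m, Ex X (σ i)) (hD : D ∈ X)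
    (hp : p < m) (hq : q < m)
    (hord : ∀ i < m, ∀ j < m, ∀ l < m, ordk (key i) (key j) (key l) = true →
      0 < det (σ i) (σ j) (σ l))
    (hk : ordk (key p) κ (key q) = true)
    (ho : ∀ i < m, i = p ∨ i = q ∨ ordk (key p) (key q) (key i) = true)
    (hd : 0 < det (σ p) D (σ q)) :
    ∀ i < m, ∀ j < m, ordk κ (key i) (key j) = true → 0 < det D (σ i) (σ j) := by
  have hd' : det (σ p) (σ q) D ≤ 0 := by rw [det_swap']; linarith
  have A : ∀ j < m, ordk (key p) (key q) (key j) = true → 0 < det (σ q) (σ j) D := fun j hj o =>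
    (hex q hq).next (hex p hp).1 (hex j hj).1 hD (hord p hp q hq j hj o) (ne23 hd) hd'
  have B : ∀ j < m, ordk (key p) (key q) (key j) = true → 0 < det (σ j) (σ p) D := fun j hj o =>
    (hex p hp).prev (hex q hq).1 (hex j hj).1 hD (hord p hp q hq j hj o) (ne12 hd).symm hd'
  intro i hi j hj o
  rw [det_cyc]
  rcases ho i hi with rfl | rfl | oi
  · exfalso
    rcases ho j hj with rfl | rfl | oj <;> simp only [ordk_iff] at * <;> omega
  · rcases ho j hj with rfl | rfl | oj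
    · rwa [det_cyc]
    · exfalso; simp only [ordk_iff] at *; omega
    · exact A j hj oj
  · rcases ho j hj with rfl | rfl | oj
    · exact B i hi oi
    · exfalso; simp only [ordk_iff] at *; omega
    · have o2 : ordk (key i) (key j) (key p) = true := by simp only [ordk_iff] at *; omega
      have h1 := hord i hi j hj p hp o2
      have h2 := B i hi oi
      exact (hex i hi).ang (hex j hj).1 (hex p hp).1 hD (ne12 h1).symm (ne13 h1).symm
        (ne13 h2).symm h1.le h2.le (Or.inl h1)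

lemma good_expand (G : Glob X k Q) (h : Good X k Q vs sg tr rg tot e σ val) (a κ : ℕ)
    (hok : expOK vs rg e (nth dS sg a) κ = true) {S : St}
    (hS : S = expand Q vs sg tr rg tot e (nth dS sg a) κ (e + 3) (5 * e + 8)) :
    ∃ σ' val', Good X k Q S.vs S.sg S.tr S.rg S.tot S.e σ' val' := by
  have s := h.sg a
  generalize nth dS sg a = A at *
  simp only [expOK, band_eq, lt_eq] at hok
  obtain ⟨⟨⟨he, hpos⟩, hk⟩, k0, k1, k2, k3, k4⟩ := hok
  have ho : ∀ i < e + 3, i = A.p ∨ i = A.q ∨ ord vs A.p A.q i = true := by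
    have : ∀ i < e + 3, keyOK vs e A.p A.q i = true →
        i = A.p ∨ i = A.q ∨ ord vs A.p A.q i = true := by
      intro i hi c
      simp only [keyOK, bor_eq, Nat.ble_eq, Nat.add_eq] at c
      rcases c with c | c | c | c
      · omega
      · exact Or.inl (Nat.eq_of_beq_eq_true c)
      · exact Or.inr (Or.inl (Nat.eq_of_beq_eq_true c))
      · exact Or.inr (Or.inr c)
    intro i hi
    have hi5 : i < 5 := by omega
    interval_cases i
    exacts [this _ hi k0, this _ hi k1, this _ hi k2, this _ hi k3, this _ hi k4]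
  have u0 := h.upos G
  have vp := h.vx _ s.p
  have vq := h.vx _ s.q
  have hN : 0 < nN X (σ A.p) (σ A.q) := by
    have := (h.rg _ s.v).pos hpos
    rw [s.n] at this
    have := (pos_iff_pos_of_mul_pos (u0.trans_le this)).1 u0
    exact_mod_cast this
  obtain ⟨Z0, hZ0, hZ0'⟩ := nN_pos_iff.1 hN
  obtain ⟨D, hD, hmin⟩ := exists_deepest X ⟨Z0, hZ0⟩ s.ne
  have hd : 0 < det (σ A.p) D (σ A.q) := by rw [det_swap']; linarith [hmin Z0 hZ0]
  have sD : ∀ Z ∈ X, 0 ≤ cr (σ A.p) (σ A.q) D Z := by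
    intro Z hZ
    have := hmin Z hZ
    have e : cr (σ A.p) (σ A.q) D Z = det (σ A.p) (σ A.q) Z - det (σ A.p) (σ A.q) D := by
      unfold cr det; ring
    linarith
  obtain ⟨ha', hb'⟩ := ab_pos (vp.sup D hD.1) (vq.sup D hD.1) (vp.sup _ vq.ex.1) (vq.sup _ vp.ex.1)
    s.c hd
  have c1 := two_le_nC vp.ex.1 hD.1 (ne12 hd)
  have c2 := two_le_nC hD.1 vq.ex.1 (ne23 hd)
  have c3 := two_le_nC vp.ex.1 vq.ex.1 s.ne
  have i1 := expand_id vp.ex hD vq.ex hd
  have i2 := cnt_lo vp.ex hD vq.ex hd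
  rw [nC_comm X (σ A.q)] at i2
  have g1 := h.sc G (cnt_lt G.un vp.ex.1 hD.1 vq.ex.1 hd)
  have g2 := h.sc' G (trapezoid G.un vp.ex vq.ex hD vp.sup vq.sup sD s.c hd)
  have g3 := G.mx _ vp.ex.1 _ hD.1 _ vq.ex.1
  have ku := h.ku G
  obtain ⟨t, ht⟩ : ∃ t, nCl X (σ A.p) D (σ A.q) + nOp X (σ A.p) D (σ A.q) = t + 2 :=
    ⟨nCl X (σ A.p) D (σ A.q) + nOp X (σ A.p) D (σ A.q) - 2, by omega⟩
  obtain ⟨b1, hb1⟩ : ∃ t, nC X (σ A.p) D = t + 2 := ⟨nC X (σ A.p) D - 2, by omega⟩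
  obtain ⟨b2, hb2⟩ : ∃ t, nC X D (σ A.q) = t + 2 := ⟨nC X D (σ A.q) - 2, by omega⟩
  obtain ⟨b0, hb0⟩ : ∃ t, nC X (σ A.p) (σ A.q) = t + 2 := ⟨nC X (σ A.p) (σ A.q) - 2, by omega⟩
  have ht' : (nCl X (σ A.p) D (σ A.q) : ℝ) + nOp X (σ A.p) D (σ A.q) - 2 = t := by
    have : ((nCl X (σ A.p) D (σ A.q) + nOp X (σ A.p) D (σ A.q) : ℕ) : ℝ) = (t + 2 : ℕ) := by
      rw [ht]
    push_cast at this; linarith
  rw [ht'] at g1
  have q0 : (0 : ℝ) < Q := by exact_mod_cast G.qpos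
  have g4 := mul_le_mul_of_nonneg_left g3 q0.le
  have tk : t + 1 ≤ k := by
    have : val 0 * t < val 0 * k := by linarith
    have := lt_of_mul_lt_mul_left this u0.le
    exact_mod_cast this
  have nk : nN X (σ A.p) D + nN X D (σ A.q) ≤ k := by
    have : val 0 * ((nN X (σ A.p) D : ℝ) + nN X D (σ A.q)) ≤ val 0 * k := by linarith
    have := le_of_mul_le_mul_left this u0
    exact_mod_cast this
  let new : List ℕ := [t, b1, nN X (σ A.p) D, b2, nN X D (σ A.q)]
  let val' : ℕ → ℝ := fun v =>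
    if v < 5 * e + 8 then val v else val 0 * (nth 0 new (v - (5 * e + 8)) : ℕ)
  have w0 : ∀ v < 5 * e + 8, val' v = val v := fun v hv => if_pos hv
  have w1 : ∀ i, val' (5 * e + 8 + i) = val 0 * (nth 0 new i : ℕ) := fun i => by
    simp only [val']
    rw [if_neg (by omega), Nat.add_sub_cancel_left]
  have w00 : val' 0 = val 0 := w0 0 (by omega)
  have x0 : val' (5 * e + 8) = val 0 * t := w1 0
  have x1 : val' (5 * e + 8 + 1) = val 0 * b1 := w1 1
  have x2 : val' (5 * e + 8 + 2) = val 0 * nN X (σ A.p) D := w1 2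
  have x3 : val' (5 * e + 8 + 3) = val 0 * b2 := w1 3
  have x4 : val' (5 * e + 8 + 4) = val 0 * nN X D (σ A.q) := w1 4
  let σ' : ℕ → Pt := Function.update σ (e + 3) D
  have s0 : ∀ i < e + 3, σ' i = σ i := fun i hi => Function.update_of_ne (by omega) _ _
  have s1 : σ' (e + 3) = D := Function.update_self _ _ _
  have n0 : ∀ i < e + 3, nth dV (vs ++ [⟨0, 2048, 0, 2048, A.p, A.q, κ⟩]) i = nth dV vs i :=
    fun i hi => nth_append_lt _ _ _ _ (by rw [h.lv]; exact hi)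
  have n1 : nth dV (vs ++ [⟨0, 2048, 0, 2048, A.p, A.q, κ⟩]) (e + 3) =
      ⟨0, 2048, 0, 2048, A.p, A.q, κ⟩ := by
    have := nth_append_ge dV vs [⟨0, 2048, 0, 2048, A.p, A.q, κ⟩] 0
    rwa [h.lv] at this
  have oe := ord_ext (key := fun i => (nth dV vs i).key) (fun i hi => (h.vx i hi).ex) hD.1 s.p s.q
    h.ord hk ho hd
  have lo' : val 0 * ((b0 : ℝ) + b1 + b2 + 1) ≤ val 0 * t :=
    mul_le_mul_of_nonneg_left (by exact_mod_cast (by omega)) u0.le
  have int' : val 0 * ((t : ℝ) + 1) ≤ val 0 * k :=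
    mul_le_mul_of_nonneg_left (by exact_mod_cast tk) u0.le
  have eb0 : val A.v = val 0 * b0 := by rw [s.b, hb0]; push_cast; ring
  have sv := s.v
  have sp := s.p
  have sq := s.q
  subst hS
  refine ⟨σ', val', ?_⟩
  simp only [expand, snoc_eq, Nat.add_eq, Nat.succ_eq_add_one]
  refine ⟨by omega, by simp [h.lv], by simp [h.lr]; omega, by simp [h.ltr], ?_, fun i => ?_,
    fun i hi => ?_, fun i hi j hj l hl o => ?_, all_append (fun j => ?_) ?_,
    all_append (fun j => ?_) ?_, fun j j1 j2 => ?_, fun j hj => ?_, fun j hj => ?_,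
    fun v hv => ?_, fun v => ?_, fun v hv => ?_, by rw [w00, h.u], fun σ'' val'' hv => ?_⟩
  · have := h.fix
    unfold Fix at this ⊢
    rwa [s0 0 (by omega), s0 1 (by omega), s0 2 (by omega)]
  · rcases lt_trichotomy i (e + 3) with c | rfl | c
    · rw [n0 i c, s0 i c]; exact h.box i
    · rw [n1, s1]
      obtain ⟨f0, f1, f2⟩ := h.fix
      have m0 := (h.vx 0 (by omega)).ex.1
      have m1 := (h.vx 1 (by omega)).ex.1
      have m2 := (h.vx 2 (by omega)).ex.1
      have y1 := G.mx _ m0 _ m1 _ hD.1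
      have y2 := G.mx _ m1 _ m0 _ hD.1
      have y3 := G.mx _ m0 _ m2 _ hD.1
      have y4 := G.mx _ m2 _ m0 _ hD.1
      rw [f0, f1] at y1 y2
      rw [f0, f2] at y3 y4
      simp only [det] at y1 y2 y3 y4
      refine ⟨?_, ?_, ?_, ?_⟩ <;> push_cast <;> linarith
    · rw [nth_ge _ _ _ (by simp [h.lv]; omega)]
      have := h.box i
      rw [nth_ge _ _ _ (by rw [h.lv]; omega)] at this
      simp only [σ']
      rwa [Function.update_of_ne (by omega)]
  · rcases (Nat.lt_succ_iff.1 (show i < e + 3 + 1 by omega)).lt_or_eq with c | rfl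
    · have v := h.vx i c
      rw [n0 i c]
      refine ⟨by rw [s0 i c]; exact v.ex, by have := v.sa; omega, by have := v.sb; omega, ?_⟩
      rw [s0 i c, s0 _ v.sa, s0 _ v.sb]; exact v.sup
    · rw [n1]
      refine ⟨by rw [s1]; exact hD, by simp only; omega, by simp only; omega, ?_⟩
      simp only
      rw [s1, s0 _ sp, s0 _ sq]; exact sD
  · unfold ord at o
    rcases (Nat.lt_succ_iff.1 (show i < e + 3 + 1 by omega)).lt_or_eq with ci | rfl <;>
      rcases (Nat.lt_succ_iff.1 (show j < e + 3 + 1 by omega)).lt_or_eq with cj | rfl <;>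
      rcases (Nat.lt_succ_iff.1 (show l < e + 3 + 1 by omega)).lt_or_eq with cl | rfl
    · rw [n0 i ci, n0 j cj, n0 l cl] at o
      rw [s0 i ci, s0 j cj, s0 l cl]
      exact h.ord i ci j cj l cl o
    · rw [n0 i ci, n0 j cj, n1] at o
      rw [s0 i ci, s0 j cj, s1, ← det_cyc]
      exact oe i ci j cj (by simp only [ordk_iff] at o ⊢; omega)
    · rw [n0 i ci, n0 l cl, n1] at o
      rw [s0 i ci, s0 l cl, s1, det_cyc]
      exact oe l cl i ci (by simp only [ordk_iff] at o ⊢; omega)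
    · exfalso; simp only [ordk_iff] at o; omega
    · rw [n0 j cj, n0 l cl, n1] at o
      rw [s0 j cj, s0 l cl, s1]
      exact oe j cj l cl o
    · exfalso; simp only [ordk_iff] at o; omega
    · exfalso; simp only [ordk_iff] at o; omega
    · exfalso; simp only [ordk_iff] at o; omega
  · have t := h.sg j
    have tp := t.p
    have tq := t.q
    have tv := t.v
    refine ⟨by omega, by omega, by omega, ?_, ?_, ?_, ?_⟩
    · rw [s0 _ tp, s0 _ tq]; exact t.ne
    · rw [s0 _ tp, s0 _ tq, w00, w0 _ (by omega)]; exact t.b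
    · rw [s0 _ tp, s0 _ tq, w00, w0 _ tv]; exact t.n
    · rw [n0 _ tp, n0 _ tq, s0 _ (h.vx _ tp).sa, s0 _ (h.vx _ tp).sb, s0 _ (h.vx _ tq).sa,
        s0 _ (h.vx _ tq).sb]
      exact t.c
  · intro B hB
    simp only [List.mem_cons, List.not_mem_nil, or_false] at hB
    rcases hB with rfl | rfl
    · refine ⟨by simp only; omega, by simp only; omega, by simp only; omega, ?_, ?_, ?_, ?_⟩ <;>
        simp only
      · rw [s0 _ sp, s1]; exact ne12 hd
      · rw [s0 _ sp, s1, w00, x1, hb1]; push_cast; ring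
      · rw [s0 _ sp, s1, w00]; exact x2
      · rw [n0 _ sp, n1, s0 _ vp.sa, s0 _ vp.sb, s0 _ sp, s0 _ sq]; exact ha'
    · refine ⟨by simp only; omega, by simp only; omega, by simp only; omega, ?_, ?_, ?_, ?_⟩ <;>
        simp only
      · rw [s0 _ sq, s1]; exact ne23 hd
      · rw [s0 _ sq, s1, w00, x3, hb2]; push_cast; ring
      · rw [s0 _ sq, s1, w00]; exact x4
      · rw [n0 _ sq, n1, s0 _ vq.sa, s0 _ vq.sb, s0 _ sp, s0 _ sq]
        have : cr (σ A.p) (σ A.q) (σ (nth dV vs A.q).sa) (σ (nth dV vs A.q).sb) =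
            cr (σ (nth dV vs A.q).sa) (σ (nth dV vs A.q).sb) (σ A.q) (σ A.p) := by unfold cr; ring
        rw [this]; exact hb'
  · have t := h.tr' j
    have := t.a; have := t.b; have := t.c; have := t.vc; have := t.v1; have := t.v2
    have := t.v3
    refine ⟨by omega, by omega, by omega, by omega, by omega, by omega, by omega, ?_, ?_, ?_⟩
    · rw [s0 _ t.a, s0 _ t.b, s0 _ t.c, w0 _ t.vc]; exact t.up
    · rw [w00, w0 _ t.vc, w0 _ t.v1, w0 _ (by omega), w0 _ (by omega)]; exact t.lo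
    · rw [w00, w0 _ t.vc]; exact t.int
  · intro B hB
    simp only [List.mem_cons, List.not_mem_nil, or_false] at hB
    subst hB
    refine ⟨by simp only; omega, by simp only; omega, by simp only; omega, by simp only; omega,
      by simp only; omega, by simp only; omega, by simp only; omega, ?_, ?_, ?_⟩ <;> simp only
    · rw [s0 _ sp, s0 _ sq, s1, x0]; exact g1
    · rw [w00, x0, x1, x3, w0 _ (by omega), eb0]; linarith
    · rw [w00, x0]; linarith
  · rcases j2.lt_or_eq with c | rfl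
    · rw [nth_append_lt _ _ _ _ (by rw [h.ltr]; exact c)]
      have t := h.tr' j
      rw [s0 _ t.a, s0 _ t.b, s0 _ t.c, w0 _ t.v2, w0 _ t.v3]
      exact h.trap j j1 (by omega)
    · have := nth_append_ge dT tr [⟨A.p, e + 3, A.q, 5 * e + 8, A.v, 5 * e + 8 + 1, 5 * e + 8 + 3⟩] 0
      rw [h.ltr] at this
      rw [this, nth_zero]
      simp only
      rw [s0 _ sp, s0 _ sq, s1, x2, x4]; linarith
  · rw [w00, w0 _ (by omega), w0 _ (by omega)]; exact h.top j hj
  · rw [w00, w0 _ (by omega), s0 _ (by omega), s0 _ (by omega)]; exact h.top2 j hj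
  · rw [w00]
    rcases lt_or_ge v (5 * e + 8) with c | c
    · rw [nth_append_lt _ _ _ _ (by rw [h.lr]; exact c), w0 v c]; exact h.rg v c
    · obtain ⟨i, rfl⟩ := Nat.exists_eq_add_of_le c
      have := nth_append_ge dR rg [⟨0, Q, false⟩, ⟨0, Q, false⟩, ⟨0, Q, false⟩, ⟨0, Q, false⟩,
        ⟨0, Q, false⟩] i
      rw [h.lr] at this
      rw [this, w1]
      have hi : i < 5 := by omega
      have b : nth 0 new i ≤ k := by
        interval_cases i <;> simp only [new, nth_zero, nth_succ] <;> omega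
      have b' : val 0 * (nth 0 new i : ℕ) ≤ val 0 * k :=
        mul_le_mul_of_nonneg_left (by exact_mod_cast b) u0.le
      have e5 : nth dR [⟨0, Q, false⟩, ⟨0, Q, false⟩, ⟨0, Q, false⟩, ⟨0, Q, false⟩,
        ⟨0, Q, false⟩] i = ⟨0, Q, false⟩ := by interval_cases i <;> rfl
      rw [e5]
      exact ⟨by simp only [Nat.cast_zero]; positivity, by simp only; linarith,
        fun c => absurd c (by simp)⟩
  · rw [w00]
    rcases lt_or_ge v (5 * e + 8) with c | c
    · rw [w0 v c]; exact h.nat v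
    · obtain ⟨i, rfl⟩ := Nat.exists_eq_add_of_le c
      exact ⟨_, w1 i⟩
  · obtain ⟨i, rfl⟩ := Nat.exists_eq_add_of_le (show 5 * e + 8 ≤ v by omega)
    rw [w1, nth_ge _ _ _ (by simp only [new, List.length_cons, List.length_nil]; omega)]
    simp
  · obtain ⟨r, r1, r2⟩ := h.tot σ'' val'' fun v c => (hv v (by omega)).trans (w0 v c)
    have vv : ∀ v < 5 * (e + 1) + 8, Val (wt σ'' val'') (var v) (val' v) := fun v c => by
      rw [← hv v c]; exact val_var (by omega)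
    refine ⟨_, (r1.add ((((vv _ (by omega)).add (vv _ (by omega))).add ((vv _ (by omega)).add
      (vv _ (by omega)))).add (((vv _ (by omega)).add (vv _ (by omega))).sm 2))).sub
      ((vv _ (by omega)).add ((vv _ (by omega)).sm 2)), ?_⟩
    rw [w00, x0, x1, x2, x3, x4, w0 _ (by omega), w0 _ sv, eb0, s.n]
    have : ((2 * nN X (σ A.p) (σ A.q) + b0 : ℕ) : ℝ) =
        (t + 1 + b1 + b2 + 2 * (nN X (σ A.p) D + nN X D (σ A.q)) : ℕ) := by
      congr 1; omega
    push_cast at this ⊢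
    have := congrArg (val 0 * ·) this
    linarith

/-- No configuration fits the state. -/
def Snd (X : Finset Pt) (k Q : ℕ) (S : St) : Prop :=
  ∀ σ val, Good X k Q S.vs S.sg S.tr S.rg S.tot S.e σ val → False

lemma run_cons (H : List St) (w : ℕ) (c : List ℕ) (S : St) (r : List St) :
    run Q H (w :: c) (S :: r) = step Q H (run Q H c) r S.vs S.sg S.tr S.rg S.tot S.e (w.mod 8)
      ((w.shiftRight 3).mod 32) (w.shiftRight 8) := by
  cases S; rfl

lemma step_ok (G : Glob X k Q) {H : List St} (hH : ∀ S ∈ H, Snd X k Q S) {ih : List St → Bool}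
    (hih : ∀ stk, ih stk = true → ∀ S ∈ stk, Snd X k Q S) {r : List St} {j a t : ℕ}
    (h : step Q H ih r vs sg tr rg tot e j a t = true) :
    Snd X k Q ⟨vs, sg, tr, rg, tot, e⟩ ∧ ∀ S ∈ r, Snd X k Q S := by
  unfold step at h
  have two : ∀ {S1 S2 : St}, ih (S1 :: S2 :: r) = true →
      (∀ σ val, Good X k Q vs sg tr rg tot e σ val →
        Good X k Q S1.vs S1.sg S1.tr S1.rg S1.tot S1.e σ val ∨
        Good X k Q S2.vs S2.sg S2.tr S2.rg S2.tot S2.e σ val) →
      Snd X k Q ⟨vs, sg, tr, rg, tot, e⟩ ∧ ∀ S ∈ r, Snd X k Q S := by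
    intro S1 S2 h1 h2
    have := hih _ h1
    refine ⟨fun σ val g => ?_, fun S hS => this S (by simp [hS])⟩
    rcases h2 σ val g with g | g
    · exact this S1 (by simp) σ val g
    · exact this S2 (by simp) σ val g
  rcases j with _ | _ | _ | _ | _ | _ | _ | _ | j <;>
    simp only [nth_zero, nth_succ, nth_nil, band_eq] at h
  · exact ⟨fun σ val g => leaf_ok G g _ _ _ _ fok_triv h.1, hih _ h.2⟩
  · refine two h fun σ val g => ?_
    have b := g.box a
    rcases le_total (σ a).1 t with c | c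
    · exact Or.inl (g.box_upd _ _ (fun _ => rfl) (fun _ => rfl) (fun _ => rfl) ⟨b.1, c, b.2.2⟩)
    · exact Or.inr (g.box_upd _ _ (fun _ => rfl) (fun _ => rfl) (fun _ => rfl) ⟨c, b.2⟩)
  · refine two h fun σ val g => ?_
    have b := g.box a
    rcases le_total (σ a).2 t with c | c
    · exact Or.inl (g.box_upd _ _ (fun _ => rfl) (fun _ => rfl) (fun _ => rfl)
        ⟨b.1, b.2.1, b.2.2.1, c⟩)
    · exact Or.inr (g.box_upd _ _ (fun _ => rfl) (fun _ => rfl) (fun _ => rfl)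
        ⟨b.1, b.2.1, c, b.2.2.2⟩)
  · refine two h.2 fun σ val g => ?_
    obtain ⟨n, hn⟩ := g.nat a
    rw [g.one h.1, one_mul] at hn
    rcases le_or_gt n t with c | c
    · refine Or.inl (g.rg_upd _ _ fun ha => ⟨(g.rg a ha).lo, ?_, (g.rg a ha).pos⟩)
      rw [hn]; exact_mod_cast c
    · refine Or.inr (g.rg_upd _ _ fun ha => ⟨?_, (g.rg a ha).hi, (g.rg a ha).pos⟩)
      rw [hn]; exact_mod_cast c
  · refine two h fun σ val g => ?_
    rcases le_total (val a) t with c | c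
    · exact Or.inl (g.rg_upd _ _ fun ha => ⟨(g.rg a ha).lo, c, (g.rg a ha).pos⟩)
    · exact Or.inr (g.rg_upd _ _ fun ha => ⟨c, (g.rg a ha).hi, (g.rg a ha).pos⟩)
  · refine two h fun σ val g => ?_
    obtain ⟨n, hn⟩ := g.nat a
    rcases n.eq_zero_or_pos with c | c
    · refine Or.inl (g.rg_upd _ _ fun ha => ⟨(g.rg a ha).lo, ?_, (g.rg a ha).pos⟩)
      rw [hn, c]; simp [sethi]
    · have c' : val 0 ≤ val a := by
        rw [hn]
        exact le_mul_of_one_le_right (g.upos G).le (by exact_mod_cast c)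
      refine Or.inr (g.rg_upd _ _ fun ha => ⟨?_, (g.rg a ha).hi, fun _ => c'⟩)
      simp only [setpos]
      cases Nat.ble (nth dR rg a).lo (nth dR rg 0).lo
      · exact (g.rg a ha).lo
      · exact (g.rg 0 (by omega)).lo.trans c'
  · have := hih _ h.2
    refine ⟨fun σ val g => ?_, fun S hS => this S (by simp [hS])⟩
    obtain ⟨σ', val', g'⟩ := good_expand G g a t h.1
      (S := expand Q vs sg tr rg tot e (nth dS sg a) t (e.add 3) ((e.mul 5).add 8))
      (by rw [Nat.add_eq, Nat.add_eq, Nat.mul_eq, mul_comm e 5])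
    exact this _ (by simp) σ' val' g'
  · exact ⟨hH _ (of_decide_eq_true h.1), hih _ h.2⟩
  · exact absurd h (by simp)

lemma run_ok (G : Glob X k Q) {H : List St} (hH : ∀ S ∈ H, Snd X k Q S) (c : List ℕ) :
    ∀ stk, run Q H c stk = true → ∀ S ∈ stk, Snd X k Q S := by
  induction c with
  | nil =>
    intro stk h
    cases stk with
    | nil => simp
    | cons S r => exact absurd h (by simp [run])
  | cons w c ih =>
    intro stk h
    cases stk with
    | nil => simp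
    | cons S r =>
      rw [run_cons] at h
      have := step_ok G hH ih h
      intro T hT
      rcases List.mem_cons.1 hT with rfl | hT
      · exact this.1
      · exact this.2 T hT

lemma snd_of (G : Glob X k Q) {S : St} {c : List ℕ} (h : run Q [] c [S] = true) : Snd X k Q S :=
  run_ok G (by simp) c _ h S (by simp)

end Pool.Agent.MP_b1b11b_co

end MrgPart5

-- marker of a merged file
example : 731051 + 700710 = 731051 + 700710 := rfl
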