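import Mathlib.Analysis.InnerProductSpace.PiL2
import Mathlib.Algebra.Ring.IsFormallyReal
import Mathlib.LinearAlgebra.AffineSpace.FiniteDimensional
import Pool.Agent.MP_b1b11b_co.Sound
import Pool.Agent.MP_b1b11b_co.Cert

-- ======== part 0: formerly Pool.Agent.MP_b1b11b_co.Init
section MrgPart0

/-! The initial state and the normalisation of a configuration. -/

namespace Pool.Agent.MP_b1b11b_co

open Finset

lemma top_bound {X : Finset Pt} {κ : ℝ} (hU : Un X κ) {P Q R : Pt} (hP : Ex X P) (hQ : Ex X Q)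
    (hR : Ex X R) (h : 0 < det P Q R) (h1 : ∀ Z ∈ X, 0 ≤ cr R Q P Z) (h2 : ∀ Z ∈ X, 0 ≤ cr P R Q Z) :
    (nN X P Q : ℝ) + nC X P Q - 2 < κ * det P Q R := by
  have e1 : cr R Q P Q = det P Q R := by unfold cr det; ring
  have e2 : cr P R Q P = det P Q R := by unfold cr det; ring
  have e3 : cr R Q P R = det P Q R := by unfold cr det; ring
  rcases (nN X P Q).eq_zero_or_pos with z | z
  · have := seg_lt hU hP hQ hR.1 h
    rw [z]; push_cast; linarith
  · have := region hU (U1 := R) (U2 := Q) (V1 := P) (V2 := R) hP hQ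
      (fun Z hZ _ => ⟨h1 Z hZ, h2 Z hZ⟩) (by rw [e1]; exact h.le) (by rw [e2]; exact h.le)
      (by rw [e3]; exact h) z
    rw [e1, e2, e3, ← mul_assoc] at this
    exact lt_of_mul_lt_mul_right this h.le

lemma good_init {X : Finset Pt} {k Q x ulo uhi : ℕ} (G : Glob X k Q) (h0 : Ex X (1024, 1024))
    (h1 : Ex X (2048, 1024)) (h2 : Ex X (1024, 2048)) (hx : 4 * k + x + 2 ≤ 2 * X.card)
    (hlo : ulo * k ≤ Q) (hhi : Q ≤ uhi * k) : ¬ Snd X k Q (st0 Q x ulo uhi) := by
  intro hS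
  set P0 : Pt := (1024, 1024) with e0
  set P1 : Pt := (2048, 1024) with e1
  set P2 : Pt := (1024, 2048) with e2
  have d0 : det P0 P1 P2 = 1048576 := by simp only [e0, e1, e2, det]; norm_num
  have d1 : det P1 P2 P0 = 1048576 := by rw [← det_cyc, d0]
  have d2 : det P2 P0 P1 = 1048576 := by rw [← det_cyc, d1]
  have p0 : 0 < det P0 P1 P2 := by rw [d0]; norm_num
  have p1 : 0 < det P1 P2 P0 := by rw [d1]; norm_num
  have p2 : 0 < det P2 P0 P1 := by rw [d2]; norm_num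
  have sup : ∀ {P Q R : Pt}, Q ∈ X → R ∈ X → det P Q R = 1048576 → ∀ Z ∈ X, 0 ≤ cr R Q P Z := by
    intro P Q R hQ hR h Z hZ
    have := G.mx _ hQ _ hR _ hZ
    have e : cr R Q P Z = det P Q R - det Q R Z := by unfold cr det; ring
    linarith
  have s0 := sup h1.1 h2.1 d0
  have s1 := sup h2.1 h0.1 d1
  have s2 := sup h0.1 h1.1 d2
  have k0 : (0 : ℝ) < k := by exact_mod_cast G.kpos
  have q0 : (0 : ℝ) < Q := by exact_mod_cast G.qpos
  have kk : (k : ℝ) / 1048576 * 1048576 = k := by ring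
  have t0 := top_bound G.un h0 h1 h2 p0 s0 s1
  have t1 := top_bound G.un h1 h2 h0 p1 s1 s2
  have t2 := top_bound G.un h2 h0 h1 p2 s2 s0
  have g := cnt_lt G.un h0.1 h1.1 h2.1 p0
  rw [d0, kk] at t0 g
  rw [d1, kk] at t1
  rw [d2, kk] at t2
  have i1 := tri_id h0 h1 h2 p0
  have i2 := cnt_lo h0 h1 h2 p0
  have c0 := two_le_nC h0.1 h1.1 (ne12 p0)
  have c1 := two_le_nC h1.1 h2.1 (ne12 p1)
  have c2 := two_le_nC h2.1 h0.1 (ne12 p2)
  obtain ⟨t, ht⟩ : ∃ t, nCl X P0 P1 P2 + nOp X P0 P1 P2 = t + 2 :=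
    ⟨nCl X P0 P1 P2 + nOp X P0 P1 P2 - 2, by omega⟩
  obtain ⟨b0, hb0⟩ : ∃ t, nC X P0 P1 = t + 2 := ⟨nC X P0 P1 - 2, by omega⟩
  obtain ⟨b1, hb1⟩ : ∃ t, nC X P1 P2 = t + 2 := ⟨nC X P1 P2 - 2, by omega⟩
  obtain ⟨b2, hb2⟩ : ∃ t, nC X P2 P0 = t + 2 := ⟨nC X P2 P0 - 2, by omega⟩
  have tk : t < k := by
    have : ((nCl X P0 P1 P2 + nOp X P0 P1 P2 : ℕ) : ℝ) = (t + 2 : ℕ) := by rw [ht]
    push_cast at this
    exact_mod_cast (by linarith : (t : ℝ) < k)
  rw [hb0] at t0
  rw [hb1] at t1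
  rw [hb2] at t2
  push_cast at t0 t1 t2
  have n0 : nN X P0 P1 + b0 < k := by exact_mod_cast (by linarith : (nN X P0 P1 : ℝ) + b0 < k)
  have n1 : nN X P1 P2 + b1 < k := by exact_mod_cast (by linarith : (nN X P1 P2 : ℝ) + b1 < k)
  have n2 : nN X P2 P0 + b2 < k := by exact_mod_cast (by linarith : (nN X P2 P0 : ℝ) + b2 < k)
  set u : ℝ := Q / k with eu
  have u0 : 0 < u := by positivity
  have ku : (Q : ℝ) = u * k := by rw [eu]; field_simp
  have mul : ∀ {a b : ℕ}, a ≤ b → u * a ≤ u * b := fun h =>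
    mul_le_mul_of_nonneg_left (by exact_mod_cast h) u0.le
  let L : List ℕ := [1, t, b0, nN X P0 P1, b1, nN X P1 P2, b2, nN X P2 P0]
  let val : ℕ → ℝ := fun v => u * (nth 0 L v : ℕ)
  let σ : ℕ → Pt := nth (0, 0) [P0, P1, P2]
  have v0 : val 0 = u := by simp [val, L]
  have v1 : val 1 = u * t := rfl
  have v2 : val 2 = u * b0 := rfl
  have v3 : val 3 = u * nN X P0 P1 := rfl
  have v4 : val 4 = u * b1 := rfl
  have v5 : val 5 = u * nN X P1 P2 := rfl
  have v6 : val 6 = u * b2 := rfl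
  have v7 : val 7 = u * nN X P2 P0 := rfl
  have σ0 : σ 0 = P0 := rfl
  have σ1 : σ 1 = P1 := rfl
  have σ2 : σ 2 = P2 := rfl
  have sg0 : SOK X σ val (st0 Q x ulo uhi).vs 3 8 ⟨0, 1, 2⟩ := by
    refine ⟨by norm_num, by norm_num, by norm_num, ne12 p0, ?_, ?_, ?_⟩
    · simp only [σ0, σ1, v0, v2, hb0]; push_cast; ring
    · simp only [σ0, σ1, v0]; exact v3
    · change 0 < cr P2 P1 P0 P2
      simp only [e0, e1, e2, cr]; norm_num
  have sg1 : SOK X σ val (st0 Q x ulo uhi).vs 3 8 ⟨1, 2, 4⟩ := by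
    refine ⟨by norm_num, by norm_num, by norm_num, ne12 p1, ?_, ?_, ?_⟩
    · simp only [σ1, σ2, v0, v4, hb1]; push_cast; ring
    · simp only [σ1, σ2, v0]; exact v5
    · change 0 < cr P0 P2 P1 P0
      simp only [e0, e1, e2, cr]; norm_num
  have sg2 : SOK X σ val (st0 Q x ulo uhi).vs 3 8 ⟨2, 0, 6⟩ := by
    refine ⟨by norm_num, by norm_num, by norm_num, ne12 p2, ?_, ?_, ?_⟩
    · simp only [σ0, σ2, v0, v6, hb2]; push_cast; ring
    · simp only [σ0, σ2, v0]; exact v7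
    · change 0 < cr P1 P0 P2 P1
      simp only [e0, e1, e2, cr]; norm_num
  have tr0 : TOK Q σ val 3 8 dT := by
    refine ⟨by decide, by decide, by decide, by decide, by decide, by decide, by decide, ?_, ?_, ?_⟩
    · change 1048576 * val 1 < Q * det P0 P1 P2
      have := mul (show t + 1 ≤ k by omega)
      rw [v1, d0, ku]; push_cast at this; linarith
    · change val 2 + val 4 + val 6 + val 0 ≤ val 1
      have := mul (show b0 + b1 + b2 + 1 ≤ t by omega)
      rw [v0, v1, v2, v4, v6]; push_cast at this; linarith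
    · change val 1 + val 0 ≤ Q
      have := mul (show t + 1 ≤ k by omega)
      rw [v0, v1, ku]; push_cast at this; linarith
  refine hS σ val ⟨Nat.zero_le _, rfl, rfl, rfl, ⟨rfl, rfl, rfl⟩, fun i => ?_, fun i hi => ?_,
    fun i hi j hj l hl o => ?_, fun j => ?_, fun j => ?_, fun j j1 j2 => ?_, fun a ha => ?_,
    fun a ha => ?_, fun v hv => ?_, fun v => ⟨_, by rw [v0]⟩, fun v hv => ?_, v0,
    fun σ' val' hv => ?_⟩
  · rcases i with _ | _ | _ | i <;> simp [st0, InB, σ, e0, e1, e2, dV]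
  · have hi' : i < 3 := hi
    interval_cases i
    · exact ⟨h0, by change 2 < 3; norm_num, by change 1 < 3; norm_num, s0⟩
    · exact ⟨h1, by change 0 < 3; norm_num, by change 2 < 3; norm_num, s1⟩
    · exact ⟨h2, by change 1 < 3; norm_num, by change 0 < 3; norm_num, s2⟩
  · have hi' : i < 3 := hi
    have hj' : j < 3 := hj
    have hl' : l < 3 := hl
    interval_cases i <;> interval_cases j <;> interval_cases l <;>
      first
      | exact p0
      | exact p1
      | exact p2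
      | exact absurd o (by simp [ord, ordk_iff, st0])
  · rcases j with _ | _ | _ | j
    exacts [sg0, sg1, sg2, sg0]
  · rcases j with _ | j
    exacts [tr0, tr0]
  · exact absurd (j1.trans j2) (by change ¬ 1 ≤ 0; norm_num)
  · interval_cases a
    · have := mul (show b0 + nN X P0 P1 + 1 ≤ k by omega)
      change val 2 + val 3 + val 0 ≤ _
      rw [v0, v2, v3, ku]; push_cast at this; linarith
    · have := mul (show b1 + nN X P1 P2 + 1 ≤ k by omega)
      change val 4 + val 5 + val 0 ≤ _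
      rw [v0, v4, v5, ku]; push_cast at this; linarith
    · have := mul (show b2 + nN X P2 P0 + 1 ≤ k by omega)
      change val 6 + val 7 + val 0 ≤ _
      rw [v0, v6, v7, ku]; push_cast at this; linarith
  · interval_cases a
    · rw [v0]; exact v3
    · rw [v0]; exact v5
  · have hv' : v < 8 := hv
    have gen : ∀ n : ℕ, n ≤ k → ROK ⟨0, Q, false⟩ (val 0) (u * n) := fun n hn =>
      ⟨by simp only [Nat.cast_zero]; positivity, by simp only; rw [ku]; exact mul hn,
        fun c => absurd c (by simp)⟩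
    interval_cases v
    · refine ⟨?_, ?_, fun _ => le_rfl⟩
      · change (ulo : ℝ) ≤ val 0
        rw [v0, eu, le_div_iff₀ k0]; exact_mod_cast hlo
      · change val 0 ≤ (uhi : ℝ)
        rw [v0, eu, div_le_iff₀ k0]; exact_mod_cast hhi
    · exact gen t (by omega)
    · exact gen b0 (by omega)
    · exact gen (nN X P0 P1) (by omega)
    · exact gen b1 (by omega)
    · exact gen (nN X P1 P2) (by omega)
    · exact gen b2 (by omega)
    · exact gen (nN X P2 P0) (by omega)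
  · simp only [val]
    rw [nth_ge _ _ _ hv]; simp
  · have vv : ∀ v < 8, Val (wt σ' val') (var v) (val v) := fun v c => by
      rw [← hv v c]; exact val_var (by omega)
    refine ⟨_, ((((vv 1 (by omega)).add (((vv 2 (by omega)).add (vv 4 (by omega))).add
      (vv 6 (by omega)))).add ((((vv 3 (by omega)).add (vv 5 (by omega))).add
      (vv 7 (by omega))).sm 2)).add ((vv 0 (by omega)).sm 3)).sub
      ((val_cst (Q * 4)).add ((vv 0 (by omega)).sm x)), ?_⟩
    have := mul (show 4 * k + x ≤ t + b0 + b1 + b2 + 2 * (nN X P0 P1 + nN X P1 P2 + nN X P2 P0) + 3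
      by omega)
    rw [v0, v1, v2, v3, v4, v5, v6, v7]
    push_cast at this ⊢
    rw [ku]
    linarith

/-- Barycentric coordinate with respect to `R`. -/
noncomputable def bc (P Q R Z : Pt) : ℝ := det P Q Z / det P Q R

lemma bc_swap (P Q R : Pt) : bc P Q R = bc Q P R := by
  funext Z
  unfold bc
  rw [det_swap P Q Z, det_swap P Q R, neg_div_neg_eq]

lemma core {Y : Finset Pt} {k Q x ulo uhi : ℕ}
    (cert : ∀ X, Glob X k Q → Snd X k Q (st0 Q x ulo uhi)) (hk : 0 < k) (hq : 0 < Q)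
    (hx : 4 * k + x + 2 ≤ 2 * Y.card) (hlo : ulo * k ≤ Q) (hhi : Q ≤ uhi * k) {A B C : Pt}
    (hA : Ex Y A) (hB : Ex Y B) (hC : Ex Y C) (hd : det A B C ≠ 0)
    (hmx : ∀ P ∈ Y, ∀ Q ∈ Y, ∀ R ∈ Y, |det P Q R| ≤ |det A B C|)
    (hmn : ∀ P ∈ Y, ∀ Q ∈ Y, ∀ R ∈ Y, det P Q R ≠ 0 → |det A B C| < k * |det P Q R|)
    (o1 : ∀ Z ∈ Y, ∃ W ∈ Y, bc A B C W ≤ bc B C A Z)
    (o2 : ∀ Z ∈ Y, ∃ W ∈ Y, bc B C A W ≤ bc C A B Z) : False := by
  classical
  let φ : Pt → Pt := fun Z =>
    (1024 + 1024 * (det A Z C / det A B C), 1024 + 1024 * (det A B Z / det A B C))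
  have fd : ∀ P Q R, det (φ P) (φ Q) (φ R) = 1048576 * (det P Q R / det A B C) := by
    intro P Q R
    have : det (φ P) (φ Q) (φ R) = 1048576 * (((det A Q C - det A P C) * (det A B R - det A B P) -
        (det A B Q - det A B P) * (det A R C - det A P C)) / det A B C ^ 2) := by
      simp only [φ]; rw [det]; field_simp; ring
    rw [this]
    congr 1
    rw [div_eq_div_iff (pow_ne_zero 2 hd) hd]
    unfold det; ring
  have f1 : ∀ Z V, 1024 * (Z.1 - V.1) =
      ((φ Z).1 - (φ V).1) * (B.1 - A.1) + ((φ Z).2 - (φ V).2) * (C.1 - A.1) := by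
    intro Z V
    simp only [φ]; field_simp; unfold det; ring
  have f2 : ∀ Z V, 1024 * (Z.2 - V.2) =
      ((φ Z).1 - (φ V).1) * (B.2 - A.2) + ((φ Z).2 - (φ V).2) * (C.2 - A.2) := by
    intro Z V
    simp only [φ]; field_simp; unfold det; ring
  have inj : Function.Injective φ := by
    intro Z V h
    have a := f1 Z V
    have b := f2 Z V
    rw [h] at a b
    exact Prod.ext (by linarith) (by linarith)
  have ex : ∀ V, Ex Y V → Ex (Y.image φ) (φ V) := by
    rintro V ⟨hV, a, b, hab⟩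
    refine ⟨mem_image_of_mem _ hV, a * (B.1 - A.1) + b * (B.2 - A.2),
      a * (C.1 - A.1) + b * (C.2 - A.2), fun Z' hZ' hne => ?_⟩
    obtain ⟨Z, hZ, rfl⟩ := mem_image.1 hZ'
    have := hab Z hZ fun h => hne (by rw [h])
    have e1 := f1 Z V
    have e2 := f2 Z V
    have e3 : (a * (B.1 - A.1) + b * (B.2 - A.2)) * ((φ Z).1 - (φ V).1) +
        (a * (C.1 - A.1) + b * (C.2 - A.2)) * ((φ Z).2 - (φ V).2) =
        1024 * (a * (Z.1 - V.1) + b * (Z.2 - V.2)) := by
      linear_combination (-a) * e1 - b * e2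
    rw [e3]; positivity
  have φA : φ A = (1024, 1024) := by simp [φ]
  have φB : φ B = (2048, 1024) := by simp only [φ, div_self hd, det_abb]; norm_num
  have φC : φ C = (1024, 2048) := by simp only [φ, div_self hd, det_abb]; norm_num
  have hd' : 0 < |det A B C| := abs_pos.2 hd
  have G : Glob (Y.image φ) k Q := by
    refine ⟨hk, hq, ?_, ?_, ?_, ?_⟩
    · intro P' hP' Q' hQ' R' hR' h
      obtain ⟨P, hP, rfl⟩ := mem_image.1 hP'
      obtain ⟨Q, hQ, rfl⟩ := mem_image.1 hQ'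
      obtain ⟨R, hR, rfl⟩ := mem_image.1 hR'
      rw [fd] at h ⊢
      have h' : 0 < det P Q R / det A B C := by linarith
      have := hmn P hP Q hQ R hR fun c => by rw [c] at h'; simp at h'
      rw [← abs_of_pos h', abs_div]
      have : 1 < k * |det P Q R| / |det A B C| := by rwa [lt_div_iff₀ hd', one_mul]
      calc 1 < k * |det P Q R| / |det A B C| := this
        _ = _ := by ring
    · intro P' hP' Q' hQ' R' hR'
      obtain ⟨P, hP, rfl⟩ := mem_image.1 hP'
      obtain ⟨Q, hQ, rfl⟩ := mem_image.1 hQ'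
      obtain ⟨R, hR, rfl⟩ := mem_image.1 hR'
      rw [fd]
      have : det P Q R / det A B C ≤ 1 := by
        refine (le_abs_self _).trans ?_
        rw [abs_div, div_le_one hd']
        exact hmx P hP Q hQ R hR
      linarith
    · intro Z' hZ'
      obtain ⟨Z, hZ, rfl⟩ := mem_image.1 hZ'
      obtain ⟨W, hW, h⟩ := o1 Z hZ
      refine ⟨φ W, mem_image_of_mem _ hW, ?_⟩
      rw [← φA, ← φB, ← φC, fd, fd]
      unfold bc at h
      rw [← det_cyc A B C] at h
      linarith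
    · intro Z' hZ'
      obtain ⟨Z, hZ, rfl⟩ := mem_image.1 hZ'
      obtain ⟨W, hW, h⟩ := o2 Z hZ
      refine ⟨φ W, mem_image_of_mem _ hW, ?_⟩
      rw [← φA, ← φB, ← φC, fd, fd]
      unfold bc at h
      rw [← det_cyc A B C, det_cyc C A B] at h
      linarith
  exact good_init G (φA ▸ ex A hA) (φB ▸ ex B hB) (φC ▸ ex C hC)
    (by rwa [card_image_of_injective _ inj]) hlo hhi (cert _ G)

lemma main_of_cert {Y : Finset Pt} {k Q x ulo uhi : ℕ}
    (cert : ∀ X, Glob X k Q → Snd X k Q (st0 Q x ulo uhi)) (hk : 0 < k) (hq : 0 < Q)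
    (hx : 4 * k + x + 2 ≤ 2 * Y.card) (hlo : ulo * k ≤ Q) (hhi : Q ≤ uhi * k) {d : ℝ} (hd : 0 < d)
    (hex : ∃ A ∈ Y, ∃ B ∈ Y, ∃ C ∈ Y, |det A B C| = d)
    (hmx : ∀ P ∈ Y, ∀ Q ∈ Y, ∀ R ∈ Y, |det P Q R| ≤ d)
    (hmn : ∀ P ∈ Y, ∀ Q ∈ Y, ∀ R ∈ Y, det P Q R ≠ 0 → d < k * |det P Q R|) : False := by
  have step : ∀ A ∈ Y, ∀ B ∈ Y, ∀ C ∈ Y, det A B C = d → ∃ D, Ex Y D ∧ det B D A = d := by
    intro A hA B hB C hC h
    obtain ⟨D, hD, hm⟩ := exists_deepest Y ⟨A, hA⟩ (ne12 (h ▸ hd : 0 < det A B C)).symm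
    refine ⟨D, hD, ?_⟩
    have h1 := hm C hC
    have h2 := (le_abs_self _).trans (hmx A hA B hB D hD.1)
    rw [det_swap B A D, det_swap B A C] at h1
    rw [← det_cyc]
    linarith
  obtain ⟨A, hA, B, hB, C, hC, h⟩ : ∃ A ∈ Y, ∃ B ∈ Y, ∃ C ∈ Y, det A B C = d := by
    obtain ⟨A, hA, B, hB, C, hC, h⟩ := hex
    rcases le_total 0 (det A B C) with c | c
    · exact ⟨A, hA, B, hB, C, hC, by rwa [abs_of_nonneg c] at h⟩
    · exact ⟨B, hB, A, hA, C, hC, by rwa [abs_of_nonpos c, ← det_swap] at h⟩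
  obtain ⟨C, hC, h⟩ := step A hA B hB C hC h
  obtain ⟨A, hA, h⟩ := step B hB C hC.1 A hA h
  obtain ⟨B, hB, h⟩ := step C hC.1 A hA.1 B hB h
  have fin : ∀ {A B C : Pt}, Ex Y A → Ex Y B → Ex Y C → |det A B C| = d →
      (∀ Z ∈ Y, ∃ W ∈ Y, bc A B C W ≤ bc B C A Z) → (∀ Z ∈ Y, ∃ W ∈ Y, bc B C A W ≤ bc C A B Z) →
      False := by
    intro A B C hA hB hC h o1 o2
    exact core cert hk hq hx hlo hhi hA hB hC (by rw [← abs_pos, h]; exact hd) (by rwa [h])
      (by rwa [h]) o1 o2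
  have a1 : |det A B C| = d := by rw [h, abs_of_pos hd]
  have a2 : |det B C A| = d := by rwa [← det_cyc]
  have a3 : |det C A B| = d := by rwa [← det_cyc]
  have a4 : |det B A C| = d := by rwa [det_swap, abs_neg]
  have a5 : |det C B A| = d := by rwa [det_swap, abs_neg]
  have a6 : |det A C B| = d := by rwa [det_swap, abs_neg]
  obtain ⟨Wc, hWc, mc⟩ := Y.exists_min_image (bc A B C) ⟨A, hA.1⟩
  obtain ⟨Wa, hWa, ma⟩ := Y.exists_min_image (bc B C A) ⟨A, hA.1⟩
  obtain ⟨Wb, hWb, mb⟩ := Y.exists_min_image (bc C A B) ⟨A, hA.1⟩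
  have s1 := bc_swap B A C
  have s2 := bc_swap C B A
  have s3 := bc_swap A C B
  rcases le_total (bc A B C Wc) (bc B C A Wa) with c1 | c1 <;>
    rcases le_total (bc B C A Wa) (bc C A B Wb) with c2 | c2 <;>
    rcases le_total (bc A B C Wc) (bc C A B Wb) with c3 | c3
  · exact fin hA hB hC a1 (fun Z hZ => ⟨Wc, hWc, c1.trans (ma Z hZ)⟩)
      (fun Z hZ => ⟨Wa, hWa, c2.trans (mb Z hZ)⟩)
  · exact fin hA hB hC a1 (fun Z hZ => ⟨Wc, hWc, c1.trans (ma Z hZ)⟩)
      (fun Z hZ => ⟨Wa, hWa, c2.trans (mb Z hZ)⟩)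
  · exact fin hB hA hC a4 (fun Z hZ => ⟨Wc, hWc, by rw [s1, s3]; exact c3.trans (mb Z hZ)⟩)
      (fun Z hZ => ⟨Wb, hWb, by rw [s3, s2]; exact c2.trans (ma Z hZ)⟩)
  · exact fin hC hA hB a3 (fun Z hZ => ⟨Wb, hWb, c3.trans (mc Z hZ)⟩)
      (fun Z hZ => ⟨Wc, hWc, c1.trans (ma Z hZ)⟩)
  · exact fin hC hB hA a5 (fun Z hZ => ⟨Wa, hWa, by rw [s2, s1]; exact c1.trans (mc Z hZ)⟩)
      (fun Z hZ => ⟨Wc, hWc, by rw [s1, s3]; exact c3.trans (mb Z hZ)⟩)
  · exact fin hB hC hA a2 (fun Z hZ => ⟨Wa, hWa, c2.trans (mb Z hZ)⟩)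
      (fun Z hZ => ⟨Wb, hWb, c3.trans (mc Z hZ)⟩)
  · exact fin hA hC hB a6 (fun Z hZ => ⟨Wb, hWb, by rw [s3, s2]; exact c2.trans (ma Z hZ)⟩)
      (fun Z hZ => ⟨Wa, hWa, by rw [s2, s1]; exact c1.trans (mc Z hZ)⟩)
  · exact fin hA hC hB a6 (fun Z hZ => ⟨Wb, hWb, by rw [s3, s2]; exact c2.trans (ma Z hZ)⟩)
      (fun Z hZ => ⟨Wa, hWa, by rw [s2, s1]; exact c1.trans (mc Z hZ)⟩)

end Pool.Agent.MP_b1b11b_co

end MrgPart0

-- ======== part 1: formerly Pool.Agent.MP_b1b11b_co.Top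
section MrgPart1

/-! Assembly of the certificates, and the passage to coordinates. -/

namespace Pool.Agent.MP_b1b11b_co

/-- Coordinates. -/
def co (Z : EuclideanSpace ℝ (Fin 2)) : Pt := (Z 0, Z 1)

lemma co_inj : Function.Injective co := by
  intro A B h
  have h0 : A 0 = B 0 := congrArg Prod.fst h
  have h1 : A 1 = B 1 := congrArg Prod.snd h
  ext i
  fin_cases i
  · exact h0
  · exact h1

lemma distinct_of_det {A B C : Pt} (h : det A B C ≠ 0) : A ≠ B ∧ A ≠ C ∧ B ≠ C := by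
  refine ⟨?_, ?_, ?_⟩ <;> rintro rfl <;> apply h <;> unfold det <;> ring

lemma exists_det {X : Finset (EuclideanSpace ℝ (Fin 2))}
    (hX : ¬ Collinear ℝ (X : Set (EuclideanSpace ℝ (Fin 2)))) :
    ∃ A ∈ X, ∃ B ∈ X, ∃ C ∈ X, det (co A) (co B) (co C) ≠ 0 := by
  by_contra hcon
  push Not at hcon
  apply hX
  by_cases hs : (X : Set (EuclideanSpace ℝ (Fin 2))).Subsingleton
  · rcases hs.eq_empty_or_singleton with h | ⟨p, h⟩
    · rw [h]; exact collinear_empty ℝ _
    · rw [h]; exact collinear_singleton ℝ p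
  · rw [Set.not_subsingleton_iff] at hs
    obtain ⟨A, hA, B, hB, hAB⟩ := hs
    rw [collinear_iff_of_mem hA]
    refine ⟨B - A, fun C hC => ?_⟩
    have h := hcon A hA B hB C hC
    unfold det co at h
    simp only at h
    by_cases h0 : B 0 - A 0 = 0
    · have h1 : B 1 - A 1 ≠ 0 := by
        intro h1
        apply hAB
        apply co_inj
        unfold co
        ext
        · simp only; linarith
        · simp only; linarith
      refine ⟨(C 1 - A 1) / (B 1 - A 1), ?_⟩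
      have h2 : C 0 - A 0 = 0 := by
        rw [h0] at h
        have : (B 1 - A 1) * (C 0 - A 0) = 0 := by linarith
        rcases mul_eq_zero.1 this with h3 | h3
        · exact absurd h3 h1
        · exact h3
      ext i
      fin_cases i
      · simp
        rw [h0]
        linarith
      · simp
        field_simp
        ring
    · refine ⟨(C 0 - A 0) / (B 0 - A 0), ?_⟩
      ext i
      fin_cases i
      · simp
        field_simp
        ring
      · simp
        field_simp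
        linarith

/-- The combinatorial core: for `n ≥ 6` and `k = (n-1)/2` the ratio is at least `k`. -/
lemma core_all {Y : Finset Pt} (hn : 6 ≤ Y.card) {d : ℝ} (hd : 0 < d)
    (hex : ∃ A ∈ Y, ∃ B ∈ Y, ∃ C ∈ Y, |det A B C| = d)
    (hmx : ∀ P ∈ Y, ∀ Q ∈ Y, ∀ R ∈ Y, |det P Q R| ≤ d)
    (hmn : ∀ P ∈ Y, ∀ Q ∈ Y, ∀ R ∈ Y, det P Q R ≠ 0 →
      d < (((Y.card - 1) / 2 : ℕ) : ℝ) * |det P Q R|) : False := by
  generalize hk : (Y.card - 1) / 2 = k at hmn
  have h2 : 2 ≤ k := by omega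
  have hx : 4 * k + 0 + 2 ≤ 2 * Y.card := by omega
  by_cases h9 : 9 ≤ k
  · exact main_of_cert (fun X G => certh k X G) (by omega) (by omega) hx (by omega) (by omega)
      hd hex hmx hmn
  · have hc : k = 2 ∨ k = 3 ∨ k = 4 ∨ k = 5 ∨ k = 6 ∨ k = 7 ∨ k = 8 := by omega
    rcases hc with h | h | h | h | h | h | h
    · exact main_of_cert (fun X G => certa k X G) (by omega) (by omega) (by omega) (by omega)
        (by omega) hd hex hmx hmn
    · exact main_of_cert (fun X G => certb k X G) (by omega) (by omega) hx (by omega)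
        (by omega) hd hex hmx hmn
    · exact main_of_cert (fun X G => certc k X G) (by omega) (by omega) hx (by omega)
        (by omega) hd hex hmx hmn
    · exact main_of_cert (fun X G => certd k X G) (by omega) (by omega) hx (by omega)
        (by omega) hd hex hmx hmn
    · exact main_of_cert (fun X G => certe k X G) (by omega) (by omega) hx (by omega)
        (by omega) hd hex hmx hmn
    · exact main_of_cert (fun X G => certf k X G) (by omega) (by omega) hx (by omega)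
        (by omega) hd hex hmx hmn
    · exact main_of_cert (fun X G => certg k X G) (by omega) (by omega) hx (by omega)
        (by omega) hd hex hmx hmn

lemma ceil_half (n : ℕ) (hn : 1 ≤ n) :
    ((⌈(n : ℝ) / 2⌉ : ℤ) : ℝ) - 1 = (((n - 1) / 2 : ℕ) : ℝ) := by
  have h : ⌈(n : ℝ) / 2⌉ = (((n - 1) / 2 : ℕ) : ℤ) + 1 := by
    rw [Int.ceil_eq_iff]
    have h1 : 2 * ((n - 1) / 2) < n := by omega
    have h2 : n ≤ 2 * ((n - 1) / 2) + 2 := by omega
    have h1' : (2 : ℝ) * (((n - 1) / 2 : ℕ) : ℝ) < n := by exact_mod_cast h1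
    have h2' : (n : ℝ) ≤ 2 * (((n - 1) / 2 : ℕ) : ℝ) + 2 := by exact_mod_cast h2
    generalize (n - 1) / 2 = m at *
    push_cast
    constructor <;> linarith
  rw [h]
  generalize (n - 1) / 2 = m
  push_cast
  ring

end Pool.Agent.MP_b1b11b_co

end MrgPart1

-- marker of a merged file
example : 731051 + 822523 = 731051 + 822523 := rfl
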